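import Pool.Agent.LI4.KNb
import Pool.Agent.LI5.Piece

/-!
LI7: proof of `al_four` (see `Alpha.lean`), with the fields of `Al` that are used as hypotheses.
-/

set_option autoImplicit false

namespace Pool.Agent.LI7

open Pool.Agent.LG6 Pool.Agent.LR5 Pool.Agent.LI5

variable {V : Type} {G : SimpleGraph V}

theorem al_four_s88 [Fintype V] [DecidableEq V] (hG : IsKConnected 6 G)
    {a b v y p q z r' : V} {P₀ : Finset V} {W : Set V}
    (cW : Cn G W)
    (all : ∀ w, w ∈ P₀ ∨ w ∈ W ∨ w = a ∨ w = p ∨ w = z ∨ w = r' ∨ w = b ∨ w = y ∨ w = v ∨ w = q)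
    (PW : ∀ w ∈ W, w ∉ P₀)
    (nP : a ∉ P₀ ∧ p ∉ P₀ ∧ z ∉ P₀ ∧ r' ∉ P₀ ∧ b ∉ P₀ ∧ y ∉ P₀ ∧ v ∉ P₀ ∧ q ∉ P₀)
    (nW : a ∉ W ∧ p ∉ W ∧ z ∉ W ∧ r' ∉ W ∧ b ∉ W ∧ y ∉ W ∧ v ∉ W ∧ q ∉ W)
    (nd : [a, p, z, r', b, y, v, q].Nodup)
    (va : G.Adj v a) (vb : G.Adj v b) (vy : G.Adj v y) (vp : G.Adj v p) (vq : G.Adj v q)
    (ay : G.Adj a y) (by' : G.Adj b y) (ap : G.Adj a p) (qp : G.Adj q p) (qb : G.Adj q b)
    (qz : G.Adj q z) (qr' : G.Adj q r') (zr' : G.Adj z r')
    (alt : (G.Adj p z ∧ G.Adj r' b) ∨ (G.Adj p r' ∧ G.Adj z b))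
    (wn : ∀ w, w ∉ W → (∃ u ∈ W, G.Adj w u) →
      w = a ∨ w = p ∨ w = z ∨ w = r' ∨ w = b ∨ w = y)
    (wa : ∃ u ∈ W, G.Adj a u) (wp : ∃ u ∈ W, G.Adj p u) (wz : ∃ u ∈ W, G.Adj z u)
    (wr : ∃ u ∈ W, G.Adj r' u) (wb : ∃ u ∈ W, G.Adj b u) (wy : ∃ u ∈ W, G.Adj y u) :
    Four G P₀ := by
  obtain ⟨pa, pp, pz, pr, pb, py, pv, pq⟩ := nP
  obtain ⟨na, np, nz, nr, nb, ny, nv, nq⟩ := nW
  have nd' := nd
  simp only [List.nodup_cons, List.mem_cons, List.not_mem_nil, or_false, not_or, List.nodup_nil,
    not_false_iff, and_true] at nd'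
  obtain ⟨⟨d1, d2, d3, d4, d5, d6, d7⟩, ⟨e2, e3, e4, e5, e6, e7⟩, ⟨f3, f4, f5, f6, f7⟩,
    ⟨g4, g5, g6, g7⟩, ⟨i5, i6, i7⟩, ⟨j6, j7⟩, k7⟩ := nd'
  constructor
  · have h1 : ([a, p, z, r', b, y, v, q].toFinset).card = 8 := by
      rw [List.toFinset_card_of_nodup nd]
      rfl
    have h2 : Disjoint P₀ [a, p, z, r', b, y, v, q].toFinset := by
      rw [Finset.disjoint_right]
      intro w hw
      simp only [List.mem_toFinset, List.mem_cons, List.not_mem_nil, or_false] at hw
      rcases hw with rfl | rfl | rfl | rfl | rfl | rfl | rfl | rfl <;> assumption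
    have h3 := Finset.card_union_of_disjoint h2
    have h4 := Finset.card_le_univ (P₀ ∪ [a, p, z, r', b, y, v, q].toFinset)
    omega
  · intro S hS
    obtain ⟨R, hR⟩ : ∃ R : Set V, R = ((↑(S ∪ P₀) : Set V)ᶜ) := ⟨_, rfl⟩
    rw [← hR]
    have hmem : ∀ w, w ∈ R ↔ w ∉ S ∧ w ∉ P₀ := by
      intro w
      rw [hR, Set.mem_compl_iff, Finset.mem_coe, Finset.mem_union, not_or]
    -- four different elements of `S`
    have h4 : ∀ x1 x2 x3 x4 : V, x1 ∈ S → x2 ∈ S → x3 ∈ S → x4 ∈ S → x1 ≠ x2 → x1 ≠ x3 →
        x1 ≠ x4 → x2 ≠ x3 → x2 ≠ x4 → x3 ≠ x4 → False := by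
      intro x1 x2 x3 x4 s1 s2 s3 s4 n12 n13 n14 n23 n24 n34
      have hsub : ({x1, x2, x3, x4} : Finset V) ⊆ S := by
        intro w hw
        simp only [Finset.mem_insert, Finset.mem_singleton] at hw
        rcases hw with rfl | rfl | rfl | rfl <;> assumption
      have hc : ({x1, x2, x3, x4} : Finset V).card = 4 := by
        rw [Finset.card_insert_of_notMem (by simp [n12, n13, n14]),
          Finset.card_insert_of_notMem (by simp [n23, n24]),
          Finset.card_insert_of_notMem (by simp [n34]), Finset.card_singleton]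
      have := Finset.card_le_card hsub
      omega
    -- every component of `R` meets the eight vertices
    have hcomp : ∀ w ∈ R, ∃ K : Set V, K ⊆ R ∧ w ∈ K ∧ Cn G K ∧
        ∃ o ∈ K, o = a ∨ o = p ∨ o = z ∨ o = r' ∨ o = b ∨ o = y ∨ o = v ∨ o = q := by
      intro w hw
      obtain ⟨K, hKR, hwK, hK, hcl⟩ := exists_comp G R w hw
      refine ⟨K, hKR, hwK, hK, ?_⟩
      by_contra hno
      push Not at hno
      have hKW : ∀ u ∈ K, u ∈ W := by
        intro u hu
        obtain ⟨n1, n2, n3, n4, n5, n6, n7, n8⟩ := hno u hu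
        rcases all u with h | h | h | h | h | h | h | h | h | h
        · exact absurd h ((hmem u).1 (hKR hu)).2
        · exact h
        · exact absurd h n1
        · exact absurd h n2
        · exact absurd h n3
        · exact absurd h n4
        · exact absurd h n5
        · exact absurd h n6
        · exact absurd h n7
        · exact absurd h n8
      have hqK : q ∉ K := fun h => nq (hKW q h)
      have hqa : ∀ u ∈ K, ¬ G.Adj q u := by
        intro u hu hqu
        rcases wn q nq ⟨u, hKW u hu, hqu⟩ with h | h | h | h | h | h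
        · exact d7 h.symm
        · exact e7 h.symm
        · exact f7 h.symm
        · exact g7 h.symm
        · exact i7 h.symm
        · exact j7 h.symm
      have h6 := LI4.nbhd6 hG K ⟨w, hwK⟩ q hqK hqa
      have hsub : ({u | u ∉ K ∧ ∃ u' ∈ K, G.Adj u u'} : Set V) ⊆ (↑S : Set V) := by
        rintro u ⟨hu, hu'⟩
        by_contra huS
        have h1 : u ∉ R := hcl u hu hu'
        apply h1
        rw [hmem]
        refine ⟨fun h => huS (Finset.mem_coe.2 h), ?_⟩
        obtain ⟨u', h2, h3⟩ := hu'
        by_cases huW : u ∈ W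
        · exact PW u huW
        · rcases wn u huW ⟨u', hKW u' h2, h3⟩ with rfl | rfl | rfl | rfl | rfl | rfl <;> assumption
      have h7 := Set.ncard_le_ncard hsub (Finset.finite_toSet _)
      rw [Set.ncard_coe_finset] at h7
      omega
    -- it is enough to find a hub
    have key : ∀ h0 ∈ R, (∀ K : Set V, h0 ∈ K → K ⊆ R →
        (∀ x ∈ K, ∀ w, G.Adj w x → w ∉ S → w ∉ P₀ → w ∈ K) →
        ((∀ u ∈ W, u ∉ S) → ∀ x ∈ K, (x ∈ W ∨ ∃ u ∈ W, G.Adj x u) → ∀ u ∈ W, u ∈ K) →
        ∀ o, o ∉ S →
        (o = a ∨ o = p ∨ o = z ∨ o = r' ∨ o = b ∨ o = y ∨ o = v ∨ o = q) → o ∈ K) → Cn G R := by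
      intro h0 hh0 hall
      obtain ⟨K, hKR, hwK, hK, hcl⟩ := exists_comp G R h0 hh0
      have hst : ∀ x ∈ K, ∀ w, G.Adj w x → w ∉ S → w ∉ P₀ → w ∈ K := by
        intro x hx w hwx h1 h2
        by_contra h3
        exact hcl w h3 ⟨x, hx, hwx⟩ ((hmem w).2 ⟨h1, h2⟩)
      have hstW : (∀ u ∈ W, u ∉ S) → ∀ x ∈ K, (x ∈ W ∨ ∃ u ∈ W, G.Adj x u) →
          ∀ u ∈ W, u ∈ K := by
        intro hWS x hx hxu u hu
        have hx' : ∃ u0 ∈ W, u0 ∈ K := by
          rcases hxu with h | ⟨u0, h1, h2⟩
          · exact ⟨x, h, hx⟩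
          · exact ⟨u0, h1, hst x hx u0 h2.symm (hWS u0 h1) (PW u0 h1)⟩
        obtain ⟨u0, h1, h2⟩ := hx'
        by_contra h3
        obtain ⟨g, h, hg, hh, hgh, hgK, hhK⟩ := cross cW K h1 hu h2 h3
        exact hhK (hst g hgK h hgh.symm (hWS h hh) (PW h hh))
      have hO := hall K hwK hKR hst hstW
      have hRK : R ⊆ K := by
        intro w hw
        obtain ⟨K', hKR', hwK', hK', o, hoK', ho⟩ := hcomp w hw
        have hoK : o ∈ K := hO o ((hmem o).1 (hKR' hoK')).1 ho
        by_contra h3
        obtain ⟨g, h, hg, hh, hgh, hgK, hhK⟩ := cross hK' K hoK' hwK' hoK h3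
        have h5 := (hmem h).1 (hKR' hh)
        exact hhK (hst g hgK h hgh.symm h5.1 h5.2)
      have : K = R := Set.Subset.antisymm hKR hRK
      rw [← this]
      exact hK
    have hW : (∀ u ∈ W, u ∉ S) ∨ ∃ u ∈ W, u ∈ S := by
      by_cases h : ∃ u ∈ W, u ∈ S
      · exact Or.inr h
      · push Not at h
        exact Or.inl h
    -- elements of `W` are different from the eight vertices
    have hne : ∀ u ∈ W, u ≠ a ∧ u ≠ p ∧ u ≠ z ∧ u ≠ r' ∧ u ≠ b ∧ u ≠ y ∧ u ≠ v ∧ u ≠ q := by
      intro u hu
      refine ⟨?_, ?_, ?_, ?_, ?_, ?_, ?_, ?_⟩ <;> rintro rfl <;> contradiction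
    by_cases hvS : v ∈ S
    · by_cases hqS : q ∈ S
      · -- both `v` and `q` in `S`
        rcases hW with hW | ⟨u, huW, huS⟩
        · obtain ⟨u, hu⟩ := cW.ne
          refine key u ((hmem u).2 ⟨hW u hu, PW u hu⟩) fun K hK hKR st stW o hoS ho => ?_
          have hWK := stW hW u hK (Or.inl hu)
          have hw : ∀ x, x ∉ S → x ∉ P₀ → (∃ u ∈ W, G.Adj x u) → x ∈ K := by
            rintro x h1 h2 ⟨u', h3, h4⟩
            exact st u' (hWK u' h3) x h4 h1 h2
          rcases ho with rfl | rfl | rfl | rfl | rfl | rfl | rfl | rfl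
          · exact hw _ hoS pa wa
          · exact hw _ hoS pp wp
          · exact hw _ hoS pz wz
          · exact hw _ hoS pr wr
          · exact hw _ hoS pb wb
          · exact hw _ hoS py wy
          · exact absurd hvS hoS
          · exact absurd hqS hoS
        · obtain ⟨n1, n2, n3, n4, n5, n6, n7, n8⟩ := hne u huW
          have hn : ∀ x, x ≠ v → x ≠ q → x ≠ u → x ∉ S := fun x h1 h2 h3 h5 =>
            h4 x v q u h5 hvS hqS huS h1 h2 h3 k7 n7.symm n8.symm
          have sa := hn a d6 d7 n1.symm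
          have sp := hn p e6 e7 n2.symm
          have sz := hn z f6 f7 n3.symm
          have sr := hn r' g6 g7 n4.symm
          have sb := hn b i6 i7 n5.symm
          have sy := hn y j6 j7 n6.symm
          refine key a ((hmem a).2 ⟨sa, pa⟩) fun K hK hKR st stW o hoS ho => ?_
          have kp := st a hK p ap.symm sp pp
          have ky := st a hK y ay.symm sy py
          have kb := st y ky b by' sb pb
          have kzr : z ∈ K ∧ r' ∈ K := by
            rcases alt with ⟨h1, h2⟩ | ⟨h1, h2⟩
            · have kz := st p kp z h1.symm sz pz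
              exact ⟨kz, st z kz r' zr'.symm sr pr⟩
            · have kr := st p kp r' h1.symm sr pr
              exact ⟨st r' kr z zr' sz pz, kr⟩
          rcases ho with rfl | rfl | rfl | rfl | rfl | rfl | rfl | rfl
          · exact hK
          · exact kp
          · exact kzr.1
          · exact kzr.2
          · exact kb
          · exact ky
          · exact absurd hvS hoS
          · exact absurd hqS hoS
      · -- `v ∈ S`, `q ∉ S`
        refine key q ((hmem q).2 ⟨hqS, pq⟩) fun K hK hKR st stW o hoS ho => ?_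
        have kp : p ∉ S → p ∈ K := fun h => st q hK p qp.symm h pp
        have kb : b ∉ S → b ∈ K := fun h => st q hK b qb.symm h pb
        have kz : z ∉ S → z ∈ K := fun h => st q hK z qz.symm h pz
        have kr : r' ∉ S → r' ∈ K := fun h => st q hK r' qr'.symm h pr
        have kay : (a ∉ S → a ∈ K) ∧ (y ∉ S → y ∈ K) := by
          rcases hW with hW | ⟨u, huW, huS⟩
          · have hWK : ∀ u ∈ W, u ∈ K := by
              by_cases s1 : p ∈ S
              · by_cases s2 : b ∈ S
                · by_cases s3 : z ∈ S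
                  · exact (h4 v p b z hvS s1 s2 s3 (Ne.symm e6) (Ne.symm i6) (Ne.symm f6) e4 e2
                      (Ne.symm f4)).elim
                  · exact stW hW z (kz s3) (Or.inr wz)
                · exact stW hW b (kb s2) (Or.inr wb)
              · exact stW hW p (kp s1) (Or.inr wp)
            obtain ⟨u1, h1, h2⟩ := wa
            obtain ⟨u2, h3, h5⟩ := wy
            exact ⟨fun h => st u1 (hWK u1 h1) a h2 h pa, fun h => st u2 (hWK u2 h3) y h5 h py⟩
          · obtain ⟨n1, n2, n3, n4, n5, n6, n7, n8⟩ := hne u huW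
            constructor
            · intro ha
              by_cases s1 : p ∈ S
              · have s2 : y ∉ S := fun h => h4 v u p y hvS huS s1 h n7.symm (Ne.symm e6)
                  (Ne.symm j6) n2 n6 e5
                have s3 : b ∉ S := fun h => h4 v u p b hvS huS s1 h n7.symm (Ne.symm e6)
                  (Ne.symm i6) n2 n5 e4
                exact st y (st b (kb s3) y by'.symm s2 py) a ay ha pa
              · exact st p (kp s1) a ap ha pa
            · intro hy
              by_cases s1 : b ∈ S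
              · have s2 : a ∉ S := fun h => h4 v u b a hvS huS s1 h n7.symm (Ne.symm i6)
                  (Ne.symm d6) n5 n1 (Ne.symm d4)
                have s3 : p ∉ S := fun h => h4 v u b p hvS huS s1 h n7.symm (Ne.symm i6)
                  (Ne.symm e6) n5 n2 (Ne.symm e4)
                exact st a (st p (kp s3) a ap s2 pa) y ay.symm hy py
              · exact st b (kb s1) y by'.symm hy py
        rcases ho with rfl | rfl | rfl | rfl | rfl | rfl | rfl | rfl
        · exact kay.1 hoS
        · exact kp hoS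
        · exact kz hoS
        · exact kr hoS
        · exact kb hoS
        · exact kay.2 hoS
        · exact absurd hvS hoS
        · exact hK
    · -- `v ∉ S`
      refine key v ((hmem v).2 ⟨hvS, pv⟩) fun K hK hKR st stW o hoS ho => ?_
      have ka : a ∉ S → a ∈ K := fun h => st v hK a va.symm h pa
      have kb : b ∉ S → b ∈ K := fun h => st v hK b vb.symm h pb
      have ky : y ∉ S → y ∈ K := fun h => st v hK y vy.symm h py
      have kp : p ∉ S → p ∈ K := fun h => st v hK p vp.symm h pp
      have kq : q ∉ S → q ∈ K := fun h => st v hK q vq.symm h pq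
      have kzr : (z ∉ S → z ∈ K) ∧ (r' ∉ S → r' ∈ K) := by
        by_cases hqS : q ∈ S
        · rcases hW with hW | ⟨u, huW, huS⟩
          · have hWK : ∀ u ∈ W, u ∈ K := by
              by_cases s1 : p ∈ S
              · by_cases s2 : b ∈ S
                · by_cases s3 : a ∈ S
                  · exact (h4 q p b a hqS s1 s2 s3 (Ne.symm e7) (Ne.symm i7) (Ne.symm d7) e4
                      (Ne.symm d1) (Ne.symm d4)).elim
                  · exact stW hW a (ka s3) (Or.inr wa)
                · exact stW hW b (kb s2) (Or.inr wb)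
              · exact stW hW p (kp s1) (Or.inr wp)
            obtain ⟨u1, h1, h2⟩ := wz
            obtain ⟨u2, h3, h5⟩ := wr
            exact ⟨fun h => st u1 (hWK u1 h1) z h2 h pz, fun h => st u2 (hWK u2 h3) r' h5 h pr⟩
          · obtain ⟨n1, n2, n3, n4, n5, n6, n7, n8⟩ := hne u huW
            -- at most one more element
            have hn : ∀ x w, x ∈ S → w ∈ S → x ≠ q → x ≠ u → w ≠ q → w ≠ u → x = w := by
              intro x w hx hw h1 h2 h3 h5
              by_contra h6
              exact h4 x w q u hx hw hqS huS h6 h1 h2 h3 h5 n8.symm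
            rcases alt with ⟨c1, c2⟩ | ⟨c1, c2⟩
            · constructor
              · intro hz
                by_cases s1 : p ∈ S
                · have s2 : r' ∉ S := fun h => e3 (hn p r' s1 h e7 n2.symm g7 n4.symm)
                  have s3 : b ∉ S := fun h => e4 (hn p b s1 h e7 n2.symm i7 n5.symm)
                  exact st r' (st b (kb s3) r' c2 s2 pr) z zr' hz pz
                · exact st p (kp s1) z c1.symm hz pz
              · intro hr
                by_cases s1 : b ∈ S
                · have s2 : z ∉ S := fun h => f4 (hn z b h s1 f7 n3.symm i7 n5.symm)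
                  have s3 : p ∉ S := fun h => e4 (hn p b h s1 e7 n2.symm i7 n5.symm)
                  exact st z (st p (kp s3) z c1.symm s2 pz) r' zr'.symm hr pr
                · exact st b (kb s1) r' c2 hr pr
            · constructor
              · intro hz
                by_cases s1 : b ∈ S
                · have s2 : r' ∉ S := fun h => g4 (hn r' b h s1 g7 n4.symm i7 n5.symm)
                  have s3 : p ∉ S := fun h => e4 (hn p b h s1 e7 n2.symm i7 n5.symm)
                  exact st r' (st p (kp s3) r' c1.symm s2 pr) z zr' hz pz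
                · exact st b (kb s1) z c2 hz pz
              · intro hr
                by_cases s1 : p ∈ S
                · have s2 : z ∉ S := fun h => e2 (hn p z s1 h e7 n2.symm f7 n3.symm)
                  have s3 : b ∉ S := fun h => e4 (hn p b s1 h e7 n2.symm i7 n5.symm)
                  exact st z (st b (kb s3) z c2 s2 pz) r' zr'.symm hr pr
                · exact st p (kp s1) r' c1.symm hr pr
        · have hq := kq hqS
          exact ⟨fun h => st q hq z qz.symm h pz, fun h => st q hq r' qr'.symm h pr⟩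
      rcases ho with rfl | rfl | rfl | rfl | rfl | rfl | rfl | rfl
      · exact ka hoS
      · exact kp hoS
      · exact kzr.1 hoS
      · exact kzr.2 hoS
      · exact kb hoS
      · exact ky hoS
      · exact hK
      · exact kq hoS

end Pool.Agent.LI7
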