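import Pool.Agent.LR5.App
import Pool.Agent.LR5.Count

/-!
LI7: `Alpha.al_false` from the conclusions of `al_four` and `al_count` (helper95).
-/

set_option autoImplicit false

namespace Pool.Agent.LI7

open Pool.Agent.LG6 Pool.Agent.LR5

variable {V : Type} {G : SimpleGraph V}

theorem al_false_core [Fintype V] [DecidableEq V] (hm : ¬ HasCompleteMinor 6 G)
    {a b v y p q : V} {P₀ : Finset V} (h4 : Four G P₀) (hc : 6 * (P₀ᶜ).card < esS G P₀ᶜ + 12)
    (hvP : v ∉ P₀) (hP : Cn G (↑P₀ : Set V))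
    (hv : ∀ u, u = v ∨ u = a ∨ u = b ∨ u = y ∨ u = p ∨ u = q → ∃ w ∈ P₀, G.Adj w u)
    (nv : ∀ u, G.Adj v u → u ∉ P₀ → u = a ∨ u = b ∨ u = y ∨ u = p ∨ u = q) : False := by
  obtain ⟨w, hw, hwv⟩ := hv v (Or.inl rfl)
  have h := app_core (H := G) hm le_rfl P₀ hP h4 v hvP ⟨w, hw, hwv.symm⟩
    (fun u hu hup => hv u (Or.inr (nv u hu hup)))
  have h3 : 3 ≤ (P₀ᶜ).card := by
    have := h4.1
    rw [Finset.card_compl]
    omega
  have h5 := k5_set (G := G) P₀ᶜ h3 (by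
    rintro ⟨D, hD, hDs⟩
    refine h.1 ⟨D, hD, fun i => ?_⟩
    rw [Set.disjoint_left]
    intro x hx hxP
    have := hDs i hx
    rw [Finset.coe_compl] at this
    exact this hxP)
  omega

end Pool.Agent.LI7
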