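import Pool.Agent.LI7.Combo
import Pool.Agent.LR5.App
import Pool.Agent.LR5.Count
import Pool.Agent.LR5.Concl

/-!
LI7/Alpha: the degree sum inside the complement of `P₀` (proof of `al_count`, with the fields of `Al` as
hypotheses).
-/

set_option autoImplicit false

namespace Pool.Agent.LI7.AlphaS14

open Pool.Agent.LG6 Pool.Agent.LR5 Pool.Agent.LI5 Pool.Agent.LI6

variable {V : Type} {G : SimpleGraph V}

theorem deg_list [DecidableEq V] [DecidableRel G.Adj] {S : Finset V} {u : V} (l : List V)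
    (hl : l.Nodup) (h : ∀ w ∈ l, w ∈ S ∧ G.Adj u w) : l.length ≤ (S.filter (G.Adj u)).card := by
  rw [← List.toFinset_card_of_nodup hl]
  refine Finset.card_le_card fun w hw => ?_
  rw [List.mem_toFinset] at hw
  rw [Finset.mem_filter]
  exact h w hw

theorem deg_all [Fintype V] [DecidableEq V] [DecidableRel G.Adj] (hG : IsKConnected 6 G)
    {S : Finset V} {u : V} (h : ∀ w, G.Adj u w → w ∈ S) : 6 ≤ (S.filter (G.Adj u)).card := by
  refine (dg_ge hG u).trans ?_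
  rw [dg_eq]
  refine Finset.card_le_card fun w hw => ?_
  rw [Finset.mem_filter] at hw ⊢
  exact ⟨h w hw.2, hw.2⟩

theorem deg_but [Fintype V] [DecidableEq V] [DecidableRel G.Adj] (hG : IsKConnected 6 G)
    {S : Finset V} {u w₀ : V} (h : ∀ w, G.Adj u w → w ∉ S → w = w₀) :
    5 ≤ (S.filter (G.Adj u)).card := by
  have h1 := dg_ge hG u
  rw [dg_eq] at h1
  have h2 : (Finset.univ.filter (G.Adj u)) ⊆ insert w₀ (S.filter (G.Adj u)) := by
    intro w hw
    rw [Finset.mem_filter] at hw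
    rw [Finset.mem_insert, Finset.mem_filter]
    by_cases hS : w ∈ S
    · exact Or.inr ⟨hS, hw.2⟩
    · exact Or.inl (h w hw.2 hS)
  have h3 := Finset.card_le_card h2
  have h4 := Finset.card_insert_le w₀ (S.filter (G.Adj u))
  omega

theorem al_count [Fintype V] [DecidableEq V] (hG : IsKConnected 6 G) {a b v y p q z r' : V}
    {P₀ : Finset V} {W : Set V}
    (all : ∀ w, w ∈ P₀ ∨ w ∈ W ∨ w = a ∨ w = p ∨ w = z ∨ w = r' ∨ w = b ∨ w = y ∨ w = v ∨ w = q)
    (PW : ∀ w ∈ W, w ∉ P₀)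
    (nP : a ∉ P₀ ∧ p ∉ P₀ ∧ z ∉ P₀ ∧ r' ∉ P₀ ∧ b ∉ P₀ ∧ y ∉ P₀ ∧ v ∉ P₀ ∧ q ∉ P₀)
    (nW : a ∉ W ∧ p ∉ W ∧ z ∉ W ∧ r' ∉ W ∧ b ∉ W ∧ y ∉ W ∧ v ∉ W ∧ q ∉ W)
    (nd : [a, p, z, r', b, y, v, q].Nodup)
    (va : G.Adj v a) (vb : G.Adj v b) (vy : G.Adj v y) (vp : G.Adj v p) (vq : G.Adj v q)
    (ay : G.Adj a y) (by' : G.Adj b y) (ap : G.Adj a p) (qp : G.Adj q p) (qb : G.Adj q b)
    (qz : G.Adj q z) (qr' : G.Adj q r') (zr' : G.Adj z r')
    (alt : (G.Adj p z ∧ G.Adj r' b) ∨ (G.Adj p r' ∧ G.Adj z b))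
    (wn : ∀ w, w ∉ W → (∃ u ∈ W, G.Adj w u) → w = a ∨ w = p ∨ w = z ∨ w = r' ∨ w = b ∨ w = y)
    (wa : ∃ u ∈ W, G.Adj a u) (wp : ∃ u ∈ W, G.Adj p u) (wz : ∃ u ∈ W, G.Adj z u)
    (wb : ∃ u ∈ W, G.Adj b u)
    (dy : ∃ w₀, ∀ w ∈ P₀, G.Adj y w → w = w₀)
    (dr : ∃ w₀, ∀ w ∈ P₀, G.Adj r' w → w = w₀) :
    6 * (P₀ᶜ).card < esS G P₀ᶜ + 12 := by
  classical
  obtain ⟨nPa, nPp, nPz, nPr, nPb, nPy, nPv, nPq⟩ := nP
  obtain ⟨nWa, nWp, nWz, nWr, nWb, nWy, nWv, nWq⟩ := nW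
  have hW : ∀ w ∈ W, ∀ u, G.Adj w u → u ∈ P₀ᶜ := by
    intro w hw u hwu
    rw [Finset.mem_compl]
    intro hu
    have huW : u ∉ W := fun h => PW u h hu
    rcases wn u huW ⟨w, hw, hwu.symm⟩ with e | e | e | e | e | e
    · exact nPa (e ▸ hu)
    · exact nPp (e ▸ hu)
    · exact nPz (e ▸ hu)
    · exact nPr (e ▸ hu)
    · exact nPb (e ▸ hu)
    · exact nPy (e ▸ hu)
  set O : Finset V := [a, p, z, r', b, y, v, q].toFinset with hO
  set F : Finset V := Finset.univ.filter (fun w => w ∈ W) with hF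
  have hS : P₀ᶜ = F ∪ O := by
    ext w
    rw [Finset.mem_compl, Finset.mem_union, hF, hO, Finset.mem_filter, List.mem_toFinset]
    simp only [Finset.mem_univ, true_and, List.mem_cons, List.not_mem_nil, or_false]
    constructor
    · intro h
      rcases all w with e | e | e
      · exact absurd e h
      · exact Or.inl e
      · exact Or.inr e
    · rintro (h | h | h | h | h | h | h | h | h)
      · exact PW w h
      all_goals (subst h; assumption)
  have hd : Disjoint F O := by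
    rw [Finset.disjoint_left]
    intro w h1 h2
    rw [hF, Finset.mem_filter] at h1
    rw [hO, List.mem_toFinset] at h2
    simp only [List.mem_cons, List.not_mem_nil, or_false] at h2
    rcases h2 with h | h | h | h | h | h | h | h <;> (subst h; exact absurd h1.2 ‹_›)
  have hc : (P₀ᶜ).card = F.card + 8 := by
    rw [hS, Finset.card_union_of_disjoint hd, hO, List.toFinset_card_of_nodup nd]
    rfl
  have hsum : esS G P₀ᶜ = ∑ u ∈ F, ((P₀ᶜ).filter (G.Adj u)).card +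
      ∑ u ∈ O, ((P₀ᶜ).filter (G.Adj u)).card := by
    rw [esS_eq]
    conv_lhs => rw [hS]
    rw [Finset.sum_union hd, ← hS]
  have h1 : 6 * F.card ≤ ∑ u ∈ F, ((P₀ᶜ).filter (G.Adj u)).card := by
    rw [mul_comm, ← smul_eq_mul]
    refine Finset.card_nsmul_le_sum _ _ _ fun u hu => ?_
    rw [hF, Finset.mem_filter] at hu
    exact deg_all hG (hW u hu.2)
  have m : ∀ {w : V}, w ∉ P₀ → w ∈ P₀ᶜ := fun h => Finset.mem_compl.2 h
  simp only [List.nodup_cons, List.mem_cons, List.not_mem_nil, or_false, not_or, not_false_eq_true,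
    List.nodup_nil, and_true] at nd
  obtain ⟨⟨ap1, az1, ar1, ab1, ay1, av1, aq1⟩, ⟨pz1, pr1, pb1, py1, pv1, pq1⟩,
    ⟨zr1, zb1, zy1, zv1, zq1⟩, ⟨rb1, ry1, rv1, rq1⟩, ⟨by1, bv1, bq1⟩, ⟨yv1, yq1⟩, vq1⟩ := nd
  have neW : ∀ {w u : V}, w ∉ W → u ∈ W → w ≠ u := fun h1 h2 e => h1 (e ▸ h2)
  have dy5 : 5 ≤ ((P₀ᶜ).filter (G.Adj y)).card := by
    obtain ⟨w₀, h⟩ := dy
    exact deg_but hG fun w hw hwS => h w (by simpa using hwS) hw
  have dr5 : 5 ≤ ((P₀ᶜ).filter (G.Adj r')).card := by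
    obtain ⟨w₀, h⟩ := dr
    exact deg_but hG fun w hw hwS => h w (by simpa using hwS) hw
  have dv5 : 5 ≤ ((P₀ᶜ).filter (G.Adj v)).card := by
    refine deg_list [a, b, y, p, q] ?_ ?_
    · simp only [List.nodup_cons, List.mem_cons, List.not_mem_nil, or_false, not_or,
        not_false_eq_true, List.nodup_nil, and_true]
      exact ⟨⟨ab1, ay1, ap1, aq1⟩, ⟨by1, Ne.symm pb1, bq1⟩, ⟨Ne.symm py1, yq1⟩, pq1⟩
    · intro w hw
      simp only [List.mem_cons, List.not_mem_nil, or_false] at hw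
      rcases hw with e | e | e | e | e <;> subst e
      exacts [⟨m nPa, va⟩, ⟨m nPb, vb⟩, ⟨m nPy, vy⟩, ⟨m nPp, vp⟩, ⟨m nPq, vq⟩]
  have dq5 : 5 ≤ ((P₀ᶜ).filter (G.Adj q)).card := by
    refine deg_list [v, p, b, z, r'] ?_ ?_
    · simp only [List.nodup_cons, List.mem_cons, List.not_mem_nil, or_false, not_or,
        not_false_eq_true, List.nodup_nil, and_true]
      exact ⟨⟨Ne.symm pv1, Ne.symm bv1, Ne.symm zv1, Ne.symm rv1⟩, ⟨pb1, pz1, pr1⟩,
        ⟨Ne.symm zb1, Ne.symm rb1⟩, zr1⟩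
    · intro w hw
      simp only [List.mem_cons, List.not_mem_nil, or_false] at hw
      rcases hw with e | e | e | e | e <;> subst e
      exacts [⟨m nPv, vq.symm⟩, ⟨m nPp, qp⟩, ⟨m nPb, qb⟩, ⟨m nPz, qz⟩, ⟨m nPr, qr'⟩]
  have da4 : 4 ≤ ((P₀ᶜ).filter (G.Adj a)).card := by
    obtain ⟨u, hu, hau⟩ := wa
    refine deg_list [y, v, p, u] ?_ ?_
    · simp only [List.nodup_cons, List.mem_cons, List.not_mem_nil, or_false, not_or,
        not_false_eq_true, List.nodup_nil, and_true]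
      exact ⟨⟨yv1, Ne.symm py1, neW nWy hu⟩, ⟨Ne.symm pv1, neW nWv hu⟩, neW nWp hu⟩
    · intro w hw
      simp only [List.mem_cons, List.not_mem_nil, or_false] at hw
      rcases hw with e | e | e | e <;> subst e
      exacts [⟨m nPy, ay⟩, ⟨m nPv, va.symm⟩, ⟨m nPp, ap⟩, ⟨m (PW _ hu), hau⟩]
  have db5 : 5 ≤ ((P₀ᶜ).filter (G.Adj b)).card := by
    obtain ⟨u, hu, hbu⟩ := wb
    rcases alt with ⟨h1, h2⟩ | ⟨h1, h2⟩
    · refine deg_list [y, v, q, r', u] ?_ ?_
      · simp only [List.nodup_cons, List.mem_cons, List.not_mem_nil, or_false, not_or,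
          not_false_eq_true, List.nodup_nil, and_true]
        exact ⟨⟨yv1, yq1, Ne.symm ry1, neW nWy hu⟩, ⟨vq1, Ne.symm rv1, neW nWv hu⟩,
          ⟨Ne.symm rq1, neW nWq hu⟩, neW nWr hu⟩
      · intro w hw
        simp only [List.mem_cons, List.not_mem_nil, or_false] at hw
        rcases hw with e | e | e | e | e <;> subst e
        exacts [⟨m nPy, by'⟩, ⟨m nPv, vb.symm⟩, ⟨m nPq, qb.symm⟩, ⟨m nPr, h2.symm⟩,
          ⟨m (PW _ hu), hbu⟩]
    · refine deg_list [y, v, q, z, u] ?_ ?_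
      · simp only [List.nodup_cons, List.mem_cons, List.not_mem_nil, or_false, not_or,
          not_false_eq_true, List.nodup_nil, and_true]
        exact ⟨⟨yv1, yq1, Ne.symm zy1, neW nWy hu⟩, ⟨vq1, Ne.symm zv1, neW nWv hu⟩,
          ⟨Ne.symm zq1, neW nWq hu⟩, neW nWz hu⟩
      · intro w hw
        simp only [List.mem_cons, List.not_mem_nil, or_false] at hw
        rcases hw with e | e | e | e | e <;> subst e
        exacts [⟨m nPy, by'⟩, ⟨m nPv, vb.symm⟩, ⟨m nPq, qb.symm⟩, ⟨m nPz, h2.symm⟩,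
          ⟨m (PW _ hu), hbu⟩]
  have dp5 : 5 ≤ ((P₀ᶜ).filter (G.Adj p)).card := by
    obtain ⟨u, hu, hpu⟩ := wp
    rcases alt with ⟨h1, h2⟩ | ⟨h1, h2⟩
    · refine deg_list [v, q, a, z, u] ?_ ?_
      · simp only [List.nodup_cons, List.mem_cons, List.not_mem_nil, or_false, not_or,
          not_false_eq_true, List.nodup_nil, and_true]
        exact ⟨⟨vq1, Ne.symm av1, Ne.symm zv1, neW nWv hu⟩, ⟨Ne.symm aq1, Ne.symm zq1, neW nWq hu⟩,
          ⟨az1, neW nWa hu⟩, neW nWz hu⟩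
      · intro w hw
        simp only [List.mem_cons, List.not_mem_nil, or_false] at hw
        rcases hw with e | e | e | e | e <;> subst e
        exacts [⟨m nPv, vp.symm⟩, ⟨m nPq, qp.symm⟩, ⟨m nPa, ap.symm⟩, ⟨m nPz, h1⟩,
          ⟨m (PW _ hu), hpu⟩]
    · refine deg_list [v, q, a, r', u] ?_ ?_
      · simp only [List.nodup_cons, List.mem_cons, List.not_mem_nil, or_false, not_or,
          not_false_eq_true, List.nodup_nil, and_true]
        exact ⟨⟨vq1, Ne.symm av1, Ne.symm rv1, neW nWv hu⟩, ⟨Ne.symm aq1, Ne.symm rq1, neW nWq hu⟩,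
          ⟨ar1, neW nWa hu⟩, neW nWr hu⟩
      · intro w hw
        simp only [List.mem_cons, List.not_mem_nil, or_false] at hw
        rcases hw with e | e | e | e | e <;> subst e
        exacts [⟨m nPv, vp.symm⟩, ⟨m nPq, qp.symm⟩, ⟨m nPa, ap.symm⟩, ⟨m nPr, h1⟩,
          ⟨m (PW _ hu), hpu⟩]
  have dz4 : 4 ≤ ((P₀ᶜ).filter (G.Adj z)).card := by
    obtain ⟨u, hu, hzu⟩ := wz
    rcases alt with ⟨h1, h2⟩ | ⟨h1, h2⟩
    · refine deg_list [q, r', p, u] ?_ ?_
      · simp only [List.nodup_cons, List.mem_cons, List.not_mem_nil, or_false, not_or,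
          not_false_eq_true, List.nodup_nil, and_true]
        exact ⟨⟨Ne.symm rq1, Ne.symm pq1, neW nWq hu⟩, ⟨Ne.symm pr1, neW nWr hu⟩, neW nWp hu⟩
      · intro w hw
        simp only [List.mem_cons, List.not_mem_nil, or_false] at hw
        rcases hw with e | e | e | e <;> subst e
        exacts [⟨m nPq, qz.symm⟩, ⟨m nPr, zr'⟩, ⟨m nPp, h1.symm⟩, ⟨m (PW _ hu), hzu⟩]
    · refine deg_list [q, r', b, u] ?_ ?_
      · simp only [List.nodup_cons, List.mem_cons, List.not_mem_nil, or_false, not_or,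
          not_false_eq_true, List.nodup_nil, and_true]
        exact ⟨⟨Ne.symm rq1, Ne.symm bq1, neW nWq hu⟩, ⟨rb1, neW nWr hu⟩, neW nWb hu⟩
      · intro w hw
        simp only [List.mem_cons, List.not_mem_nil, or_false] at hw
        rcases hw with e | e | e | e <;> subst e
        exacts [⟨m nPq, qz.symm⟩, ⟨m nPr, zr'⟩, ⟨m nPb, h2⟩, ⟨m (PW _ hu), hzu⟩]
  have h2 : ∑ u ∈ O, ((P₀ᶜ).filter (G.Adj u)).card =
      ((P₀ᶜ).filter (G.Adj a)).card + (((P₀ᶜ).filter (G.Adj p)).card +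
      (((P₀ᶜ).filter (G.Adj z)).card + (((P₀ᶜ).filter (G.Adj r')).card +
      (((P₀ᶜ).filter (G.Adj b)).card + (((P₀ᶜ).filter (G.Adj y)).card +
      (((P₀ᶜ).filter (G.Adj v)).card + ((P₀ᶜ).filter (G.Adj q)).card)))))) := by
    have e : O = {a, p, z, r', b, y, v, q} := by
      rw [hO]
      ext w
      simp
    rw [e, Finset.sum_insert (by simp [ap1, az1, ar1, ab1, ay1, av1, aq1]),
      Finset.sum_insert (by simp [pz1, pr1, pb1, py1, pv1, pq1]),
      Finset.sum_insert (by simp [zr1, zb1, zy1, zv1, zq1]),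
      Finset.sum_insert (by simp [rb1, ry1, rv1, rq1]),
      Finset.sum_insert (by simp [by1, bv1, bq1]), Finset.sum_insert (by simp [yv1, yq1]),
      Finset.sum_insert (by simp [vq1]), Finset.sum_singleton]
  omega

end Pool.Agent.LI7.AlphaS14
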