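import Pool.Agent.LI7.Combo
import Pool.Agent.LR5.App
import Pool.Agent.LR5.Count
import Pool.Agent.LI7.AlphaFS95
import Pool.Agent.LI7.AlphaS14
import Pool.Agent.LI7.AlFourS88

/-!
LI7: the last case: `U`, `W` with `N(U) = {a, p, z, r, b, x}` and `N(W) = {a, p, z, r', b, y}`.

Setting `Al`: `P₀` is a finite set (in the application `U ∪ {x, r}`), `W` a connected set, and every vertex is
in exactly one of `P₀`, `W` and `{a, p, z, r', b, y, v, q}`.

`al_four`: `G - P₀` is 4-connected.  Proof.  `P₀.card + 4 < card V`: the eight vertices are different and not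
in `P₀`.  Let `S.card ≤ 3`, `R = (S ∪ P₀)ᶜ`.  Let `K` be a component of `R` (`exists_comp`).  `K` meets
`O = {a, p, z, r', b, y, v, q}`: otherwise `K ⊆ W`, and a vertex adjacent to `K` outside `K` is in `S` (not in
`P₀` by `wn`), so at most three vertices are adjacent to `K`: `nbhd6` with `q` (not adjacent to `W`).  So it
is enough that all vertices of `O \ S` are in one component of `R`.  If `v, q ∉ S`: they are adjacent, `a, b, y,
p` are adjacent to `v` and `z, r'` to `q`.  If `v ∈ S`, `q ∉ S`: `p, b, z, r'` are adjacent to `q`; `a ~ p`, `a ~ y`,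
`y ~ b`: if `W ∩ S` is nonempty, `S` contains at most one further vertex of `O`, so `a` and `y` are connected
to `q` (`a ~ p ~ q`, `a ~ y ~ b ~ q`); if `W ∩ S` is empty, `W ⊆ R` is connected and adjacent to all six
vertices `a, p, z, r', b, y`, of which at least two of `p, z, r', b` remain.  `q ∈ S`, `v ∉ S`: `a, b, y, p` are
adjacent to `v`; `z`, `r'`: `alt` gives the path `p z r' b` or `p r' z b`; as before.  `v, q ∈ S`: if `W ∩ S` is
nonempty then `S ∩ O = {v, q}` and `a, p, (z, r' or r', z), b, y` is a cycle; if it is empty, all remaining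
vertices are adjacent to `W`.

`al_count`: the degree sum inside `P₀ᶜ` is at least `6 |W| + 38`: the vertices of `W` have all their
neighbours in `P₀ᶜ`; `y` and `r'` have at most one neighbour in `P₀` (`dy`, `dr`), so at least five in `P₀ᶜ`;
`v`: `a, b, y, p, q`; `q`: `v, p, b, z, r'`; `b`: `y, v, q`, one of `z`, `r'` and a vertex of `W`; `p`: `v, q, a`, one
of `z`, `r'`, and a vertex of `W`; `a`: `y, v, p` and a vertex of `W`; `z`: `q, r'`, one of `p`, `b`, and a vertex of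
`W`.  (`5 + 5 + 5 + 5 + 5 + 5 + 4 + 4 = 38`.)  `|P₀ᶜ| = |W| + 8`.

`alpha`: `app_core` for `P₀` and `v` gives `NoMin G P₀`, so by `k5_set` (`S = P₀ᶜ`)
`esS G P₀ᶜ + 12 ≤ 6 (|W| + 8)`: contradiction.
-/

set_option autoImplicit false

namespace Pool.Agent.LI7

open Pool.Agent.LG6 Pool.Agent.LR5 Pool.Agent.LI5 Pool.Agent.LI6

variable {V : Type} {G : SimpleGraph V}

/-- the setting of the last case -/
structure Al (G : SimpleGraph V) (a b v y p q z r' : V) (P₀ : Finset V) (W : Set V) : Prop where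
  cW : Cn G W
  all : ∀ w, w ∈ P₀ ∨ w ∈ W ∨ w = a ∨ w = p ∨ w = z ∨ w = r' ∨ w = b ∨ w = y ∨ w = v ∨ w = q
  PW : ∀ w ∈ W, w ∉ P₀
  nP : a ∉ P₀ ∧ p ∉ P₀ ∧ z ∉ P₀ ∧ r' ∉ P₀ ∧ b ∉ P₀ ∧ y ∉ P₀ ∧ v ∉ P₀ ∧ q ∉ P₀
  nW : a ∉ W ∧ p ∉ W ∧ z ∉ W ∧ r' ∉ W ∧ b ∉ W ∧ y ∉ W ∧ v ∉ W ∧ q ∉ W
  nd : [a, p, z, r', b, y, v, q].Nodup
  va : G.Adj v a
  vb : G.Adj v b
  vy : G.Adj v y
  vp : G.Adj v p
  vq : G.Adj v q
  ay : G.Adj a y
  by' : G.Adj b y
  ap : G.Adj a p
  qp : G.Adj q p
  qb : G.Adj q b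
  qz : G.Adj q z
  qr' : G.Adj q r'
  zr' : G.Adj z r'
  alt : (G.Adj p z ∧ G.Adj r' b) ∨ (G.Adj p r' ∧ G.Adj z b)
  wn : ∀ w, w ∉ W → (∃ u ∈ W, G.Adj w u) → w = a ∨ w = p ∨ w = z ∨ w = r' ∨ w = b ∨ w = y
  wa : ∃ u ∈ W, G.Adj a u
  wp : ∃ u ∈ W, G.Adj p u
  wz : ∃ u ∈ W, G.Adj z u
  wr : ∃ u ∈ W, G.Adj r' u
  wb : ∃ u ∈ W, G.Adj b u
  wy : ∃ u ∈ W, G.Adj y u
  dy : ∃ w₀, ∀ w ∈ P₀, G.Adj y w → w = w₀
  dr : ∃ w₀, ∀ w ∈ P₀, G.Adj r' w → w = w₀

theorem al_four [Fintype V] [DecidableEq V] (hG : IsKConnected 6 G) {a b v y p q z r' : V}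
    {P₀ : Finset V} {W : Set V} (A : Al G a b v y p q z r' P₀ W) : Four G P₀ :=
  al_four_s88 hG A.cW A.all A.PW A.nP A.nW A.nd A.va A.vb A.vy A.vp A.vq A.ay A.by' A.ap A.qp
    A.qb A.qz A.qr' A.zr' A.alt A.wn A.wa A.wp A.wz A.wr A.wb A.wy

theorem al_count [Fintype V] [DecidableEq V] (hG : IsKConnected 6 G) {a b v y p q z r' : V}
    {P₀ : Finset V} {W : Set V} (A : Al G a b v y p q z r' P₀ W) :
    6 * (P₀ᶜ).card < esS G P₀ᶜ + 12 := by
  exact AlphaS14.al_count hG A.all A.PW A.nP A.nW A.nd A.va A.vb A.vy A.vp A.vq A.ay A.by' A.ap A.qp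
    A.qb A.qz A.qr' A.zr' A.alt A.wn A.wa A.wp A.wz A.wb A.dy A.dr

theorem al_false [Fintype V] [DecidableEq V] (hG : IsKConnected 6 G) (hm : ¬ HasCompleteMinor 6 G)
    {a b v y p q z r' : V} {P₀ : Finset V} {W : Set V} (A : Al G a b v y p q z r' P₀ W)
    (hP : Cn G (↑P₀ : Set V))
    (hv : ∀ u, u = v ∨ u = a ∨ u = b ∨ u = y ∨ u = p ∨ u = q → ∃ w ∈ P₀, G.Adj w u)
    (nv : ∀ u, G.Adj v u → u ∉ P₀ → u = a ∨ u = b ∨ u = y ∨ u = p ∨ u = q) : False :=
  al_false_core hm (al_four hG A) (al_count hG A) A.nP.2.2.2.2.2.2.1 hP hv nv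

/-- `Iso` for `r` (with `x`) and for `r'` (with `y`), `x ≠ y` -/
theorem iso_last [Fintype V] (hG : IsKConnected 6 G) {a b v s t p q z r r' : V}
    (h : Cg6 G a b v s t p q) (k : Rr G a b v s t p q z r r') {x y y₁ x₂ : V} {U W : Set V}
    (hxy : x ≠ y) (h1 : Iso G a b v s t p q z r x y₁ U) (h2 : Iso G a b v s t p q z r' y x₂ W) :
    HasCompleteMinor 6 G := by
  classical
  by_contra hm
  -- normalise
  have ey : y₁ = y := by
    rcases h1.xy with ⟨e1, e2⟩ | ⟨e1, e2⟩ <;> rcases h2.xy with ⟨f1, f2⟩ | ⟨f1, f2⟩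
    · exact absurd (e1.trans f1.symm) hxy
    · exact e2.trans f1.symm
    · exact e2.trans f1.symm
    · exact absurd (e1.trans f1.symm) hxy
  have ex : x₂ = x := by
    rcases h1.xy with ⟨e1, e2⟩ | ⟨e1, e2⟩ <;> rcases h2.xy with ⟨f1, f2⟩ | ⟨f1, f2⟩
    · exact absurd (e1.trans f1.symm) hxy
    · exact f2.trans e1.symm
    · exact f2.trans e1.symm
    · exact absurd (e1.trans f1.symm) hxy
  subst ey
  subst ex
  have hdUW := iso_disj h k h1 h2
  obtain ⟨za, zp, zb, zv, zs, zt⟩ := k.dz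
  obtain ⟨ra, rp, rb, rv, rs, rt⟩ := k.dr
  obtain ⟨ra', rp', rb', rv', rs', rt'⟩ := k.dr'
  -- facts on U and W
  have U1 : ∀ u ∈ U, u ≠ a ∧ u ≠ p ∧ u ≠ z ∧ u ≠ r ∧ u ≠ b ∧ u ≠ v ∧ u ≠ s ∧ u ≠ t := by
    intro u hu
    have := h1.sub hu
    simp only [Set.mem_compl_iff, Set.mem_union, Set.mem_insert_iff, Set.mem_singleton_iff,
      not_or] at this
    obtain ⟨⟨g1, g2, g3, g4, g5⟩, g6, g7, g8⟩ := this
    exact ⟨g1, g2, g3, g4, g5, g6, g7, g8⟩
  have W1 : ∀ u ∈ W, u ≠ a ∧ u ≠ p ∧ u ≠ z ∧ u ≠ r' ∧ u ≠ b ∧ u ≠ v ∧ u ≠ s ∧ u ≠ t := by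
    intro u hu
    have := h2.sub hu
    simp only [Set.mem_compl_iff, Set.mem_union, Set.mem_insert_iff, Set.mem_singleton_iff,
      not_or] at this
    obtain ⟨⟨g1, g2, g3, g4, g5⟩, g6, g7, g8⟩ := this
    exact ⟨g1, g2, g3, g4, g5, g6, g7, g8⟩
  have hqa : q ≠ a := fun e => h.nab (e ▸ h.bq.symm)
  have hpb : p ≠ b := fun e => h.nab (e ▸ h.ap)
  have hqr : ∀ w ∈ ({a, p, z, r, b} : Set V) ∪ {v, s, t}, w ≠ q := by
    intro w hw e
    simp only [Set.mem_union, Set.mem_insert_iff, Set.mem_singleton_iff] at hw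
    rcases hw with (e' | e' | e' | e' | e') | (e' | e' | e')
    · exact hqa (e.symm.trans e')
    · exact h.pq.ne (e'.symm.trans e)
    · exact k.R.qz.ne (e.symm.trans e')
    · exact k.R.qr.ne (e.symm.trans e')
    · exact h.bq.ne (e'.symm.trans e)
    · exact h.vq.ne (e'.symm.trans e)
    · exact h.qs (e.symm.trans e')
    · exact h.qt (e.symm.trans e')
  have hqr' : ∀ w ∈ ({a, p, z, r', b} : Set V) ∪ {v, s, t}, w ≠ q := by
    intro w hw e
    simp only [Set.mem_union, Set.mem_insert_iff, Set.mem_singleton_iff] at hw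
    rcases hw with (e' | e' | e' | e' | e') | (e' | e' | e')
    · exact hqa (e.symm.trans e')
    · exact h.pq.ne (e'.symm.trans e)
    · exact k.R.qz.ne (e.symm.trans e')
    · exact k.R.qr'.ne (e.symm.trans e')
    · exact h.bq.ne (e'.symm.trans e)
    · exact h.vq.ne (e'.symm.trans e)
    · exact h.qs (e.symm.trans e')
    · exact h.qt (e.symm.trans e')
  have rU : r' ∉ U := fun hr => hqr q (h1.cl q h1.hq ⟨r', hr, k.R.qr'⟩) rfl
  have rW : r ∉ W := fun hr => hqr' q (h2.cl q h2.hq ⟨r, hr, k.R.qr⟩) rfl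
  have rU' : ∀ u ∈ U, ¬ G.Adj r' u := by
    intro u hu e
    have := h1.cl r' rU ⟨u, hu, e⟩
    simp only [Set.mem_union, Set.mem_insert_iff, Set.mem_singleton_iff] at this
    rcases this with (e' | e' | e' | e' | e') | (e' | e' | e')
    · exact ra' e'
    · exact rp' e'
    · exact k.zr'.ne e'.symm
    · exact k.R.rr e'.symm
    · exact rb' e'
    · exact rv' e'
    · exact rs' e'
    · exact rt' e'
  have xW : x₂ ∉ W := by
    intro hw
    rcases h1.xy with ⟨e, -⟩ | ⟨e, -⟩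
    · exact (W1 _ hw).2.2.2.2.2.2.1 e
    · exact (W1 _ hw).2.2.2.2.2.2.2 e
  have yU0 : y₁ ∉ U := by
    intro hw
    rcases h1.xy with ⟨-, e⟩ | ⟨-, e⟩
    · exact (U1 _ hw).2.2.2.2.2.2.2 e
    · exact (U1 _ hw).2.2.2.2.2.2.1 e
  have yW0 : y₁ ∉ W := by
    intro hw
    rcases h1.xy with ⟨-, e⟩ | ⟨-, e⟩
    · exact (W1 _ hw).2.2.2.2.2.2.2 e
    · exact (W1 _ hw).2.2.2.2.2.2.1 e
  have xr' : ¬ G.Adj x₂ r' := by
    intro e
    rcases h1.xa r' e with e' | e' | e' | e' | e' | e'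
    · exact ra' e'
    · exact rb' e'
    · exact rv' e'
    · exact rs' e'
    · exact rt' e'
    · exact rU e'
  have yr : ¬ G.Adj y₁ r := by
    intro e
    rcases h2.xa r e with e' | e' | e' | e' | e' | e'
    · exact ra e'
    · exact rb e'
    · exact rv e'
    · exact rs e'
    · exact rt e'
    · exact rW e'
  have hst : (x₂ = s ∧ y₁ = t) ∨ (x₂ = t ∧ y₁ = s) := h1.xy
  have exy : G.Adj x₂ y₁ := by
    rcases hst with ⟨e, f⟩ | ⟨e, f⟩
    · rw [e, f]; exact h.st
    · rw [e, f]; exact h.st.symm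
  have ax : ∀ u, u = s ∨ u = t → G.Adj a u ∧ G.Adj b u ∧ G.Adj v u ∧ u ≠ p ∧ u ≠ q := by
    rintro u (rfl | rfl)
    · exact ⟨h.as, h.bs, h.vs, h.ps.symm, h.qs.symm⟩
    · exact ⟨h.at', h.bt, h.vt, h.pt.symm, h.qt.symm⟩
  have hx : x₂ = s ∨ x₂ = t := by rcases hst with ⟨e, -⟩ | ⟨e, -⟩ <;> simp [e]
  have hy : y₁ = s ∨ y₁ = t := by rcases hst with ⟨-, e⟩ | ⟨-, e⟩ <;> simp [e]
  -- no further vertex
  have hall : ∀ u, u ∈ ({a, b, v, s, t, p, z, r, r', q} : Set V) ∪ (U ∪ W) := by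
    by_contra hcon
    push Not at hcon
    obtain ⟨u₀, hu₀⟩ := hcon
    have hxn : ∀ w, G.Adj x₂ w → w = a ∨ w = b ∨ w = v ∨ w = s ∨ w = t ∨ w ∈ U := h1.xa
    have hyn : ∀ w, G.Adj y₁ w → w = a ∨ w = b ∨ w = v ∨ w = s ∨ w = t ∨ w ∈ W := h2.xa
    have hs' : ∀ w, G.Adj s w → w ∈ ({a, b, v, t, z, r, r'} : Set V) ∪ (U ∪ W) := by
      intro w hw
      have hws : w ≠ s := hw.ne'
      rcases hst with ⟨e, f⟩ | ⟨e, f⟩
      · rcases hxn w (e ▸ hw) with g | g | g | g | g | g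
        · simp [g]
        · simp [g]
        · simp [g]
        · exact absurd g hws
        · simp [g]
        · exact Or.inr (Or.inl g)
      · rcases hyn w (f ▸ hw) with g | g | g | g | g | g
        · simp [g]
        · simp [g]
        · simp [g]
        · exact absurd g hws
        · simp [g]
        · exact Or.inr (Or.inr g)
    have ht' : ∀ w, G.Adj t w → w ∈ ({a, b, v, s, z, r, r'} : Set V) ∪ (U ∪ W) := by
      intro w hw
      have hws : w ≠ t := hw.ne'
      rcases hst with ⟨e, f⟩ | ⟨e, f⟩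
      · rcases hyn w (f ▸ hw) with g | g | g | g | g | g
        · simp [g]
        · simp [g]
        · simp [g]
        · simp [g]
        · exact absurd g hws
        · exact Or.inr (Or.inr g)
      · rcases hxn w (e ▸ hw) with g | g | g | g | g | g
        · simp [g]
        · simp [g]
        · simp [g]
        · simp [g]
        · exact absurd g hws
        · exact Or.inr (Or.inl g)
    have s1 : ∀ u, u = s ∨ u = t → ∃ w ∈ ({z, r, r'} : Set V) ∪ (U ∪ W), G.Adj u w := by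
      intro u hu
      have : u = x₂ ∨ u = y₁ := by
        rcases hst with ⟨e, f⟩ | ⟨e, f⟩ <;> rcases hu with g | g
        · exact Or.inl (g.trans e.symm)
        · exact Or.inr (g.trans f.symm)
        · exact Or.inr (g.trans f.symm)
        · exact Or.inl (g.trans e.symm)
      rcases this with rfl | rfl
      · obtain ⟨w, hw, e⟩ := h1.ax
        exact ⟨w, Or.inr (Or.inl hw), e⟩
      · obtain ⟨w, hw, e⟩ := h2.ax
        exact ⟨w, Or.inr (Or.inr hw), e⟩
    refine hm (extra6 hG h k (U ∪ W) ?_ ?_ hs' ht' (s1 s (Or.inl rfl)) (s1 t (Or.inr rfl)) hu₀)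
    · rintro w (hw | hw)
      · obtain ⟨g1, g2, g3, g4, g5, g6, g7, g8⟩ := U1 w hw
        exact ⟨g1, g5, g6, g7, g8⟩
      · obtain ⟨g1, g2, g3, g4, g5, g6, g7, g8⟩ := W1 w hw
        exact ⟨g1, g5, g6, g7, g8⟩
    · rintro w hw ⟨u, hu, hwu⟩
      rcases hu with hu | hu
      · have := h1.cl w (fun h' => hw (Or.inl h')) ⟨u, hu, hwu⟩
        simp only [Set.mem_union, Set.mem_insert_iff, Set.mem_singleton_iff] at this
        rcases this with (g | g | g | g | g) | (g | g | g) <;> simp [g]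
      · have := h2.cl w (fun h' => hw (Or.inr h')) ⟨u, hu, hwu⟩
        simp only [Set.mem_union, Set.mem_insert_iff, Set.mem_singleton_iff] at this
        rcases this with (g | g | g | g | g) | (g | g | g) <;> simp [g]
  -- the setting `Al`
  have hfin : (U ∪ {x₂, r}).Finite := Set.toFinite _
  obtain ⟨P₀, hP₀⟩ : ∃ P₀ : Finset V, (P₀ : Set V) = U ∪ {x₂, r} :=
    ⟨hfin.toFinset, hfin.coe_toFinset⟩
  have mP : ∀ w, w ∈ P₀ ↔ w ∈ U ∨ w = x₂ ∨ w = r := by
    intro w
    rw [← Finset.mem_coe, hP₀]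
    rfl
  have xne : ∀ u, u = s ∨ u = t → u ≠ a ∧ u ≠ p ∧ u ≠ z ∧ u ≠ r ∧ u ≠ r' ∧ u ≠ b ∧ u ≠ v ∧
      u ≠ q := by
    rintro u (rfl | rfl)
    · exact ⟨h.as.ne', h.ps.symm, zs.symm, rs.symm, rs'.symm, h.bs.ne', h.vs.ne', h.qs.symm⟩
    · exact ⟨h.at'.ne', h.pt.symm, zt.symm, rt.symm, rt'.symm, h.bt.ne', h.vt.ne', h.qt.symm⟩
  obtain ⟨x1, x2, x3, x4, x5, x6, x7, x8⟩ := xne x₂ hx
  obtain ⟨y1, y2, y3, y4, y5, y6, y7, y8⟩ := xne y₁ hy
  have wad := h2.ad
  have A : Al G a b v y₁ p q z r' P₀ W := by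
    refine
      { cW := h2.cU
        all := ?_
        PW := ?_
        nP := ?_
        nW := ?_
        nd := ?_
        va := h.av.symm
        vb := h.bv.symm
        vy := (ax y₁ hy).2.2.1
        vp := h.vp
        vq := h.vq
        ay := (ax y₁ hy).1
        by' := (ax y₁ hy).2.1
        ap := h.ap
        qp := h.pq.symm
        qb := h.bq.symm
        qz := k.R.qz
        qr' := k.R.qr'
        zr' := k.zr'
        alt := ?_
        wn := ?_
        wa := wad a (by simp)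
        wp := wad p (by simp)
        wz := wad z (by simp)
        wr := wad r' (by simp)
        wb := wad b (by simp)
        wy := h2.ax
        dy := ⟨x₂, ?_⟩
        dr := ⟨r, ?_⟩ }
    · intro w
      have := hall w
      simp only [Set.mem_union, Set.mem_insert_iff, Set.mem_singleton_iff] at this
      rw [mP]
      have hsx : w = s ∨ w = t → w = x₂ ∨ w = y₁ := by
        rcases hst with ⟨e, f⟩ | ⟨e, f⟩
        · rw [e, f]; exact id
        · rw [e, f]; exact Or.symm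
      rcases this with (e | e | e | e | e | e | e | e | e | e) | (e | e)
      · simp [e]
      · simp [e]
      · simp [e]
      · rcases hsx (Or.inl e) with g | g <;> simp only [g, true_or, or_true]
      · rcases hsx (Or.inr e) with g | g <;> simp only [g, true_or, or_true]
      · simp [e]
      · simp [e]
      · simp [e]
      · simp [e]
      · simp [e]
      · exact Or.inl (Or.inl e)
      · exact Or.inr (Or.inl e)
    · intro w hw h'
      rcases (mP w).1 h' with h' | h' | h'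
      · exact Set.disjoint_left.1 hdUW h' hw
      · exact xW (h' ▸ hw)
      · exact rW (h' ▸ hw)
    · simp only [mP]
      refine ⟨?_, ?_, ?_, ?_, ?_, ?_, ?_, ?_⟩
      · rintro (h' | h' | h')
        · exact (U1 _ h').1 rfl
        · exact x1 h'.symm
        · exact ra h'.symm
      · rintro (h' | h' | h')
        · exact (U1 _ h').2.1 rfl
        · exact x2 h'.symm
        · exact rp h'.symm
      · rintro (h' | h' | h')
        · exact (U1 _ h').2.2.1 rfl
        · exact x3 h'.symm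
        · exact k.zr.ne h'
      · rintro (h' | h' | h')
        · exact rU h'
        · exact x5 h'.symm
        · exact k.R.rr h'.symm
      · rintro (h' | h' | h')
        · exact (U1 _ h').2.2.2.2.1 rfl
        · exact x6 h'.symm
        · exact rb h'.symm
      · rintro (h' | h' | h')
        · exact yU0 h'
        · exact exy.ne h'.symm
        · exact y4 h'
      · rintro (h' | h' | h')
        · exact (U1 _ h').2.2.2.2.2.1 rfl
        · exact x7 h'.symm
        · exact rv h'.symm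
      · rintro (h' | h' | h')
        · exact h1.hq h'
        · exact x8 h'.symm
        · exact k.R.qr.ne h'
    · refine ⟨fun h' => (W1 _ h').1 rfl, fun h' => (W1 _ h').2.1 rfl,
        fun h' => (W1 _ h').2.2.1 rfl, fun h' => (W1 _ h').2.2.2.1 rfl,
        fun h' => (W1 _ h').2.2.2.2.1 rfl, yW0, fun h' => (W1 _ h').2.2.2.2.2.1 rfl, h2.hq⟩
    · simp only [List.nodup_cons, List.mem_cons, List.not_mem_nil, or_false, not_or,
        not_false_eq_true, List.nodup_nil, and_true]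
      refine ⟨⟨h.ap.ne, za.symm, ra'.symm, h.ab, y1.symm, h.av.ne, hqa.symm⟩,
        ⟨zp.symm, rp'.symm, hpb, y2.symm, h.vp.ne', h.pq.ne⟩,
        ⟨k.zr'.ne, zb, y3.symm, zv, k.R.qz.ne'⟩, ⟨rb', y5.symm, rv', k.R.qr'.ne'⟩,
        ⟨y6.symm, h.bv.ne, h.bq.ne⟩, ⟨y7, y8⟩, h.vq.ne⟩
    · rcases k.alt with ⟨e1, e2, e3, -, -⟩ | ⟨e1, e2, e3, -, -⟩
      · exact Or.inl ⟨e1, e3⟩
      · exact Or.inr ⟨e2, e3⟩
    · rintro w hw ⟨u, hu, hwu⟩
      have hcl := h2.cl w hw ⟨u, hu, hwu⟩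
      simp only [Set.mem_union, Set.mem_insert_iff, Set.mem_singleton_iff] at hcl
      rcases hcl with (e | e | e | e | e) | (e | e | e)
      · simp [e]
      · simp [e]
      · simp [e]
      · simp [e]
      · simp [e]
      · exfalso
        rw [e] at hwu
        obtain ⟨g1, g2, g3, g4, g5, g6, g7, g8⟩ := W1 u hu
        rcases h.nv u hwu with g | g | g | g | g | g
        · exact g7 g
        · exact g8 g
        · exact g1 g
        · exact g5 g
        · exact g2 g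
        · exact h2.hq (g ▸ hu)
      · rcases hst with ⟨f, g⟩ | ⟨f, g⟩
        · exact absurd (by rw [f, ← e]; exact hwu) (h2.yU u hu)
        · simp [e, g]
      · rcases hst with ⟨f, g⟩ | ⟨f, g⟩
        · simp [e, g]
        · exact absurd (by rw [f, ← e]; exact hwu) (h2.yU u hu)
    · intro w hw hyw
      rcases (mP w).1 hw with h' | h' | h'
      · exact absurd hyw (h1.yU w h')
      · exact h'
      · exact absurd (h' ▸ hyw) yr
    · intro w hw hyw
      rcases (mP w).1 hw with h' | h' | h'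
      · exact absurd hyw (rU' w h')
      · exact absurd (h' ▸ hyw).symm xr'
      · exact h'
  refine al_false hG hm A ?_ ?_ ?_
  · have e : (P₀ : Set V) = insert x₂ (insert r U) := by
      rw [hP₀]
      ext w
      simp only [Set.mem_union, Set.mem_insert_iff, Set.mem_singleton_iff]
      constructor
      · rintro (g | g | g)
        · exact Or.inr (Or.inr g)
        · exact Or.inl g
        · exact Or.inr (Or.inl g)
      · rintro (g | g | g)
        · exact Or.inr (Or.inl g)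
        · exact Or.inr (Or.inr g)
        · exact Or.inl g
    rw [e]
    obtain ⟨u, hu, hxu⟩ := h1.ax
    exact Cn.insert (Cn.insert h1.cU (h1.ad r (by simp))) ⟨u, Or.inr hu, hxu⟩
  · have xP : x₂ ∈ P₀ := (mP _).2 (Or.inr (Or.inl rfl))
    have rP : r ∈ P₀ := (mP _).2 (Or.inr (Or.inr rfl))
    rintro u (rfl | rfl | rfl | rfl | rfl | rfl)
    · exact ⟨x₂, xP, (ax x₂ hx).2.2.1.symm⟩
    · exact ⟨x₂, xP, (ax x₂ hx).1.symm⟩
    · exact ⟨x₂, xP, (ax x₂ hx).2.1.symm⟩
    · exact ⟨x₂, xP, exy⟩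
    · obtain ⟨w, hw, e⟩ := h1.ad u (by simp)
      exact ⟨w, (mP _).2 (Or.inl hw), e.symm⟩
    · exact ⟨r, rP, k.R.qr.symm⟩
  · intro u hu huP
    have xP : x₂ ∈ P₀ := (mP _).2 (Or.inr (Or.inl rfl))
    rcases h.nv u hu with e | e | e | e | e | e
    · rcases hst with ⟨f, g⟩ | ⟨f, g⟩
      · exact absurd (by rw [e, ← f]; exact xP) huP
      · simp [e, g]
    · rcases hst with ⟨f, g⟩ | ⟨f, g⟩
      · simp [e, g]
      · exact absurd (by rw [e, ← f]; exact xP) huP
    · simp [e]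
    · simp [e]
    · simp [e]
    · simp [e]

end Pool.Agent.LI7
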