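import Pool.Agent.LI6.Six
import Pool.Agent.LI6.Kill
import Pool.Agent.LI6.StrongK4
import Pool.Agent.LI6.Piece
import Pool.Agent.LI6.Case2

/-!
LI7: the one-sided configuration.  `Rr` collects what is known about `q`: its neighbours are
`v, p, b, z, r, r'`, and there are the two routes `{a, p, z, r, b}`, `{a, p, z, r', b}`.
-/

set_option autoImplicit false

namespace Pool.Agent.LI7

open Pool.Agent.LG6 Pool.Agent.LR5 Pool.Agent.LI5 Pool.Agent.LI6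

variable {V : Type} {G : SimpleGraph V}

/-- The right side: `q` has the neighbours `v, p, b, z, r, r'`; `z, r, r'` are pairwise adjacent; either
`p ~ z` and `r, r' ~ b` (normal), or `p ~ r, r'` and `z ~ b` (abnormal). -/
structure Rr (G : SimpleGraph V) (a b v s t p q z r r' : V) : Prop where
  R : Rt G a b v s t p q z r r'
  nq : ∀ y, G.Adj q y → y = v ∨ y = p ∨ y = b ∨ y = z ∨ y = r ∨ y = r'
  e : G.Adj r r'
  zr : G.Adj z r
  zr' : G.Adj z r'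
  alt : (G.Adj p z ∧ G.Adj r b ∧ G.Adj r' b ∧ ¬ G.Adj p r ∧ ¬ G.Adj p r') ∨
    (G.Adj p r ∧ G.Adj p r' ∧ G.Adj z b ∧ ¬ G.Adj b r ∧ ¬ G.Adj b r')
  /-- `z` is different from `a, p, b, v, s, t` -/
  dz : z ≠ a ∧ z ≠ p ∧ z ≠ b ∧ z ≠ v ∧ z ≠ s ∧ z ≠ t
  dr : r ≠ a ∧ r ≠ p ∧ r ≠ b ∧ r ≠ v ∧ r ≠ s ∧ r ≠ t
  dr' : r' ≠ a ∧ r' ≠ p ∧ r' ≠ b ∧ r' ≠ v ∧ r' ≠ s ∧ r' ≠ t

/-- exchange `r` and `r'` -/
theorem Rr.swap {a b v s t p q z r r' : V} (k : Rr G a b v s t p q z r r') :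
    Rr G a b v s t p q z r' r where
  R := ⟨k.R.qz, k.R.qr', k.R.qr, k.R.rr.symm, k.R.a2, k.R.a1⟩
  nq := fun y hy => by rcases k.nq y hy with h | h | h | h | h | h <;> simp [h]
  e := k.e.symm
  zr := k.zr'
  zr' := k.zr
  alt := by
    rcases k.alt with ⟨h1, h2, h3, h4, h5⟩ | ⟨h1, h2, h3, h4, h5⟩
    · exact Or.inl ⟨h1, h3, h2, h5, h4⟩
    · exact Or.inr ⟨h2, h1, h3, h5, h4⟩
  dz := k.dz
  dr := k.dr'
  dr' := k.dr

/-- exchange `s` and `t` -/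
theorem _root_.Pool.Agent.LI6.Cg6.st_swap {a b v s t p q : V} (h : Cg6 G a b v s t p q) :
    Cg6 G a b v t s p q where
  vs := h.vt
  vt := h.vs
  st := h.st.symm
  av := h.av
  as := h.at'
  at' := h.as
  bv := h.bv
  bs := h.bt
  bt := h.bs
  nab := h.nab
  ab := h.ab
  nv := fun y hy => by rcases h.nv y hy with h | h | h | h | h | h <;> simp [h]
  vp := h.vp
  vq := h.vq
  pq := h.pq
  ap := h.ap
  bq := h.bq
  naq := h.naq
  nbp := h.nbp
  nsp := h.ntp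
  nsq := h.ntq
  ntp := h.nsp
  ntq := h.nsq
  ps := h.pt
  pt := h.ps
  qs := h.qt
  qt := h.qs

/-- `x` is `s` or `t`, adjacent to `z` and `r`, and has no neighbours outside `{a, b, v, s, t, z, r}` -/
def Kill (G : SimpleGraph V) (a b v s t z r x : V) : Prop :=
  (x = s ∨ x = t) ∧ G.Adj x z ∧ G.Adj x r ∧
    ∀ y, G.Adj x y → y = a ∨ y = b ∨ y = v ∨ y = s ∨ y = t ∨ y = z ∨ y = r

/-- `U` is a component of the complement of `{a, p, z, r, b} ∪ {v, s, t}` that does not contain `q`; it is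
not adjacent to `y`, and contains all neighbours of `x` other than `a, b, v, s, t` (`{x, y} = {s, t}`) -/
structure Iso (G : SimpleGraph V) (a b v s t p q z r x y : V) (U : Set V) : Prop where
  xy : (x = s ∧ y = t) ∨ (x = t ∧ y = s)
  cU : Cn G U
  sub : U ⊆ ((({a, p, z, r, b} : Set V) ∪ {v, s, t})ᶜ)
  cl : ∀ w, w ∉ U → (∃ u ∈ U, G.Adj w u) → w ∈ ({a, p, z, r, b} : Set V) ∪ {v, s, t}
  hq : q ∉ U
  yU : ∀ u ∈ U, ¬ G.Adj y u
  xa : ∀ w, G.Adj x w → w = a ∨ w = b ∨ w = v ∨ w = s ∨ w = t ∨ w ∈ U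
  ad : ∀ w ∈ ({a, p, z, r, b} : Set V), ∃ u ∈ U, G.Adj w u
  ax : ∃ u ∈ U, G.Adj x u

/-- one of the two exceptional outcomes for the route `z, r` -/
def Out (G : SimpleGraph V) (a b v s t p q z r : V) : Prop :=
  (∃ x, Kill G a b v s t z r x) ∨ ∃ x y U, Iso G a b v s t p q z r x y U

/-- components of the complement `M` of `{a, p, z, r, b} ∪ {v, s, t}` -/
structure Comp (G : SimpleGraph V) (a b v s t p z r : V) (U : Set V) : Prop where
  cU : Cn G U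
  sub : U ⊆ ((({a, p, z, r, b} : Set V) ∪ {v, s, t})ᶜ)
  cl : ∀ w, w ∉ U → (∃ u ∈ U, G.Adj w u) → w ∈ ({a, p, z, r, b} : Set V) ∪ {v, s, t}

end Pool.Agent.LI7
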