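import Pool.Agent.LI7.Sides
import Pool.Agent.LI7.Defs
import Pool.Agent.LI6.Fin

/-!
LI7, case 3: first facts.
-/

set_option autoImplicit false

namespace Pool.Agent.LI7.Case3S25

open Pool.Agent.LG6 Pool.Agent.LR5 Pool.Agent.LI5 Pool.Agent.LI6 Pool.Agent.LI7

variable {V : Type} {G : SimpleGraph V}

theorem c3_p {a b v s t p q : V} {P C : Set V} (h : Cg6 G a b v s t p q)
    (o : Op6 G a b v s t p q P C) (pP : p ∉ P) (pC : p ∉ C) : ∀ u ∈ C, ¬ G.Adj p u := by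
  intro u hu hpu
  exact pP (o.star P o.pa.adm o.pa.cP p pC h.vp.ne' h.ps h.pt ⟨u, hu, hpu⟩)

theorem route_disj {a b v s t p q z r : V} {P C : Set V}
    (o : Op6 G a b v s t p q P C) (pC : p ∉ C) (hz : z ∉ C) (hr : r ∉ C) :
    Disjoint C ({a, p, z, r, b} : Set V) := by
  have ha : a ∉ C := fun h' => Set.disjoint_left.1 o.pa.cP h' o.pa.adm.2.1
  have hb : b ∉ C := fun h' => Set.disjoint_left.1 o.pa.cP h' o.pa.adm.2.2.1
  rw [Set.disjoint_left]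
  intro y hy hy'
  simp only [Set.mem_insert_iff, Set.mem_singleton_iff] at hy'
  rcases hy' with e | e | e | e | e
  · exact ha (e ▸ hy)
  · exact pC (e ▸ hy)
  · exact hz (e ▸ hy)
  · exact hr (e ▸ hy)
  · exact hb (e ▸ hy)

theorem c3_q [Fintype V] (hG : IsKConnected 6 G) {a b v s t p q z r r' : V} {P C : Set V}
    (h : Cg6 G a b v s t p q) (k : Rr G a b v s t p q z r r') (o : Op6 G a b v s t p q P C)
    (pP : p ∉ P) (pC : p ∉ C) (qP : q ∈ P) :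
    ∃ u ∈ C, G.Adj q u := by
  by_contra hno
  have hcp := c3_p h o pP pC
  have ha : a ∉ C := fun h' => Set.disjoint_left.1 o.pa.cP h' o.pa.adm.2.1
  have hb : b ∉ C := fun h' => Set.disjoint_left.1 o.pa.cP h' o.pa.adm.2.2.1
  have hq : q ∉ C := fun h' => Set.disjoint_left.1 o.pa.cP h' qP
  have hz : z ∉ C := fun h' => hno ⟨z, h', k.R.qz⟩
  have hr : r ∉ C := fun h' => hno ⟨r, h', k.R.qr⟩
  have hr' : r' ∉ C := fun h' => hno ⟨r', h', k.R.qr'⟩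
  have hv : ∀ y ∈ C, ¬ G.Adj v y := by
    intro y hy hvy
    rcases h.nv y hvy with e | e | e | e | e | e
    · exact o.pa.sC (e ▸ hy)
    · exact o.pa.tC (e ▸ hy)
    · exact ha (e ▸ hy)
    · exact hb (e ▸ hy)
    · exact pC (e ▸ hy)
    · exact hq (e ▸ hy)
  have h6 := Pool.Agent.LI4.nbhd6 hG C o.pa.cc.ne v o.pa.vC hv
  refine ncard_five' (x₁ := a) (x₂ := z) (x₃ := b) (x₄ := s) (x₅ := t) h6 ?_
  rintro y ⟨hy, u, hu, hyu⟩
  by_cases e1 : y = s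
  · simp [e1]
  by_cases e2 : y = t
  · simp [e2]
  have e3 : y ≠ v := by
    rintro rfl
    exact hv u hu hyu
  have e4 : y ≠ p := by
    rintro rfl
    exact hcp u hu hyu
  have m1 := o.star _ k.R.a1 (route_disj o pC hz hr) y hy e3 e1 e2 ⟨u, hu, hyu⟩
  have m2 := o.star _ k.R.a2 (route_disj o pC hz hr') y hy e3 e1 e2 ⟨u, hu, hyu⟩
  simp only [Set.mem_insert_iff, Set.mem_singleton_iff] at m1 m2
  rcases m1 with e | e | e | e | e
  · exact Or.inl e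
  · exact absurd e e4
  · exact Or.inr (Or.inl e)
  · rcases m2 with e' | e' | e' | e' | e'
    · exact Or.inl e'
    · exact absurd e' e4
    · exact Or.inr (Or.inl e')
    · exact absurd (e.symm.trans e') k.e.ne
    · exact Or.inr (Or.inr (Or.inl e'))
  · exact Or.inr (Or.inr (Or.inl e))

theorem c3_zr [Fintype V] (hG : IsKConnected 6 G) {a b v s t p q z r r' : V} {P C : Set V}
    (h : Cg6 G a b v s t p q) (k : Rr G a b v s t p q z r r') (o : Op6 G a b v s t p q P C)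
    (pP : p ∉ P) (pC : p ∉ C) (qP : q ∈ P) :
    z ∈ C ∨ r ∈ C := by
  by_contra hno
  push Not at hno
  obtain ⟨hz, hr⟩ := hno
  have hq : q ∉ C := fun h' => Set.disjoint_left.1 o.pa.cP h' qP
  have m := o.star _ k.R.a1 (route_disj o pC hz hr) q hq h.vq.ne' h.qs h.qt
    (c3_q hG h k o pP pC qP)
  simp only [Set.mem_insert_iff, Set.mem_singleton_iff] at m
  rcases m with e | e | e | e | e
  · exact h.nab (e ▸ h.bq.symm)
  · exact h.pq.ne e.symm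
  · exact k.R.qz.ne e
  · exact k.R.qr.ne e
  · exact h.bq.ne e.symm

theorem c3_abn {a b v s t p q z r r' : V} {P C : Set V}
    (h : Cg6 G a b v s t p q) (k : Rr G a b v s t p q z r r') (o : Op6 G a b v s t p q P C)
    (pP : p ∉ P) (pC : p ∉ C) (qP : q ∈ P) (hr : G.Adj p r) (hr' : G.Adj p r')
    {N : Set V} (c : Chain G {u | u ∉ C ∧ u ≠ p ∧ u ≠ v ∧ u ≠ s ∧ u ≠ t} N P a b)
    (hall : ∀ u ∈ ({u | u ∉ C ∧ u ≠ p ∧ u ≠ v ∧ u ≠ s ∧ u ≠ t} : Set V), u ≠ a → u ≠ b → u ∈ N) :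
    False := by
  have hcp := c3_p h o pP pC
  have hb : b ∉ C := fun h' => Set.disjoint_left.1 o.pa.cP h' o.pa.adm.2.2.1
  have hq : q ∉ C := fun h' => Set.disjoint_left.1 o.pa.cP h' qP
  have mr : r ∈ ({u | u ∉ C ∧ u ≠ p ∧ u ≠ v ∧ u ≠ s ∧ u ≠ t} : Set V) :=
    ⟨fun h' => hcp r h' hr, k.dr.2.1, k.dr.2.2.2.1, k.dr.2.2.2.2.1, k.dr.2.2.2.2.2⟩
  have mr' : r' ∈ ({u | u ∉ C ∧ u ≠ p ∧ u ≠ v ∧ u ≠ s ∧ u ≠ t} : Set V) :=
    ⟨fun h' => hcp r' h' hr', k.dr'.2.1, k.dr'.2.2.2.1, k.dr'.2.2.2.2.1, k.dr'.2.2.2.2.2⟩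
  have mb : b ∈ ({u | u ∉ C ∧ u ≠ p ∧ u ≠ v ∧ u ≠ s ∧ u ≠ t} : Set V) :=
    ⟨hb, fun e => h.nab (e ▸ h.ap), h.bv.ne, h.bs.ne, h.bt.ne⟩
  have mq : q ∈ ({u | u ∉ C ∧ u ≠ p ∧ u ≠ v ∧ u ≠ s ∧ u ≠ t} : Set V) :=
    ⟨hq, h.pq.ne', h.vq.ne', h.qs, h.qt⟩
  have cn : ∀ x, G.Adj q x → Cn G ({b, q, x} : Set V) := by
    intro x hx
    have h1 : Cn G ({x} : Set V) := cn_single G x
    have h2 : Cn G (insert q ({x} : Set V)) := Cn.insert h1 ⟨x, rfl, hx⟩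
    exact Cn.insert h2 ⟨q, Or.inl rfl, h.bq⟩
  refine no_two c (hall r mr k.dr.1 k.dr.2.2.1) (hall r' mr' k.dr'.1 k.dr'.2.2.1) k.dr.1 k.dr'.1
    k.e.ne ⟨{b, q, r'}, cn r' k.R.qr', ?_, ?_, by simp, by simp⟩
    ⟨{b, q, r}, cn r k.R.qr, ?_, ?_, by simp, by simp⟩
  · rintro y (rfl | rfl | rfl)
    · exact mb
    · exact mq
    · exact mr'
  · rintro (e | e | e)
    · exact k.dr.2.2.1 e
    · exact k.R.qr.ne e.symm
    · exact k.e.ne e
  · rintro y (rfl | rfl | rfl)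
    · exact mb
    · exact mq
    · exact mr
  · rintro (e | e | e)
    · exact k.dr'.2.2.1 e
    · exact k.R.qr'.ne e.symm
    · exact k.e.ne e.symm

end Pool.Agent.LI7.Case3S25
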