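import Pool.Agent.LI7.Alpha

/-!
LI7: a first pair exists, or there is a `K₆` minor.
-/

set_option autoImplicit false

namespace Pool.Agent.LI7

open Pool.Agent.LG6 Pool.Agent.LR5 Pool.Agent.LI5 Pool.Agent.LI6

variable {V : Type} {G : SimpleGraph V}

/-- exceptional outcomes for both routes give a `K₆` minor -/
theorem combo [Fintype V] (hG : IsKConnected 6 G) {a b v s t p q z r r' : V}
    (h : Cg6 G a b v s t p q) (k : Rr G a b v s t p q z r r')
    (h1 : Out G a b v s t p q z r) (h2 : Out G a b v s t p q z r') : HasCompleteMinor 6 G := by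
  rcases h1 with ⟨x, h1⟩ | ⟨x, y, U, h1⟩ <;> rcases h2 with ⟨x₂, h2⟩ | ⟨x₂, y₂, W, h2⟩
  · exact kill_kill hG h k h1 h2
  · exact kill_iso hG h k.swap h1 h2
  · exact kill_iso hG h k h2 h1
  · by_cases hx : x = x₂
    · subst hx
      exact (iso_iso h k h1 h2).elim
    · exact iso_last hG h k hx h1 h2

/-- if no component of the complement of the route is adjacent to `s` and `t` (except that of `q`) -/
theorem pair_comp {a b v s t p q z r r' : V} (k : Rr G a b v s t p q z r r') {U : Set V}
    (hU : Comp G a b v s t p z r U) (hs : ∃ x ∈ U, G.Adj s x) (ht : ∃ x ∈ U, G.Adj t x) :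
    ∃ P C, Pa6 G a b v s t p q P C := by
  refine ⟨_, U, k.R.a1, hU.cU, ?_, ?_, ?_, ?_, hs, ht⟩
  · rw [Set.disjoint_left]
    exact fun y hy hy' => hU.sub hy (Or.inl hy')
  · exact fun h' => hU.sub h' (Or.inr (by simp))
  · exact fun h' => hU.sub h' (Or.inr (by simp))
  · exact fun h' => hU.sub h' (Or.inr (by simp))

theorem step_a [Fintype V] (hG : IsKConnected 6 G) {a b v s t p q z r r' : V}
    (h : Cg6 G a b v s t p q) (k : Rr G a b v s t p q z r r') :
    HasCompleteMinor 6 G ∨ ∃ P C, Pa6 G a b v s t p q P C := by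
  by_cases hno : ∃ P C, Pa6 G a b v s t p q P C
  · exact Or.inr hno
  left
  have o1 := route_out hG h k fun U hU _ hst => hno (pair_comp k hU hst.1 hst.2)
  have o2 := route_out hG h k.swap fun U hU _ hst => hno (pair_comp k.swap hU hst.1 hst.2)
  rcases o1 with o1 | o1
  · exact o1
  rcases o2 with o2 | o2
  · exact o2
  exact combo hG h k o1 o2

end Pool.Agent.LI7
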