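import Pool.Agent.LI7.Sides
import Pool.Agent.LI7.Case3S25
import Pool.Agent.LI7.StepA
import Pool.Agent.LI6.Fin

/-!
LI7, case 3: the optimal pair `(P, C)` with `q ∈ P`, `p ∉ P`, `p ∉ C`.  `T = {v, s, t}`.

`c3_p`: `p` is not adjacent to `C` (`star` with `P' := P`).
`c3_q`: `q` is adjacent to `C`.  Otherwise `z, r, r' ∉ C`, the routes are disjoint from `C`, a vertex outside
`C ∪ T` adjacent to `C` is in both of them and not `p`, so it is `a`, `z` or `b`; `v` is not adjacent to `C`;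
so at most `a, z, b, s, t` are adjacent to `C`, but `nbhd6` (with `v`) gives six.
`c3_zr`: `z ∈ C` or `r ∈ C`: otherwise the first route is disjoint from `C`, so `q` is in it (`star`).
`c3_cut`: a connected set `Q` without `p`, disjoint from `C` and `T`, containing `a` and `b`, is admissible.
`c3_chain`: `Chain` for `H := {u | u ∉ C ∧ u ≠ p ∧ u ∉ T}` and `N := {u ∈ H | u is adjacent to C}`.
`c3_all`: every `u ∈ H`, `u ≠ a, b` is in `N`.  Otherwise let `K` be the component of `u` in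
`H \ (N ∪ {a, b})`.  A vertex `w ∉ K` adjacent to `K` is in `N ∪ {a, b}` or one of `p, s, t` (not in `C`, since
then a vertex of `K` is in `N`; not `v`: `K` contains none of `a, b, s, t, p`, and `q ∈ N`).  By `nbhd6` (with
`v`) there are at least six, so three different ones in `N ∪ {a, b}`: `no_three`.
-/

set_option autoImplicit false

namespace Pool.Agent.LI7

open Pool.Agent.LG6 Pool.Agent.LR5 Pool.Agent.LI5 Pool.Agent.LI6

variable {V : Type} {G : SimpleGraph V}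

/-- the vertices outside `C`, the triangle and `p` -/
def H3 (v s t p : V) (C : Set V) : Set V := {u | u ∉ C ∧ u ≠ p ∧ u ≠ v ∧ u ≠ s ∧ u ≠ t}

/-- those adjacent to `C` -/
def N3 (G : SimpleGraph V) (v s t p : V) (C : Set V) : Set V :=
  {u | u ∈ H3 v s t p C ∧ ∃ w ∈ C, G.Adj u w}

/-- case 3 -/
structure C3 (G : SimpleGraph V) (a b v s t p q : V) (P C : Set V) : Prop where
  o : Op6 G a b v s t p q P C
  pP : p ∉ P
  pC : p ∉ C
  qP : q ∈ P

theorem c3_p {a b v s t p q : V} {P C : Set V} (h : Cg6 G a b v s t p q)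
    (c : C3 G a b v s t p q P C) : ∀ u ∈ C, ¬ G.Adj p u := by
  exact Case3S25.c3_p h c.o c.pP c.pC

theorem c3_q [Fintype V] (hG : IsKConnected 6 G) {a b v s t p q z r r' : V} {P C : Set V}
    (h : Cg6 G a b v s t p q) (k : Rr G a b v s t p q z r r') (c : C3 G a b v s t p q P C) :
    ∃ u ∈ C, G.Adj q u := by
  exact Case3S25.c3_q hG h k c.o c.pP c.pC c.qP

theorem c3_zr [Fintype V] (hG : IsKConnected 6 G) {a b v s t p q z r r' : V} {P C : Set V}
    (h : Cg6 G a b v s t p q) (k : Rr G a b v s t p q z r r') (c : C3 G a b v s t p q P C) :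
    z ∈ C ∨ r ∈ C := by
  exact Case3S25.c3_zr hG h k c.o c.pP c.pC c.qP

theorem c3_chain {a b v s t p q : V} {P C : Set V}
    (h : Cg6 G a b v s t p q) (c : C3 G a b v s t p q P C) :
    Chain G (H3 v s t p C) (N3 G v s t p C) P a b := by
  obtain ⟨hPc, haP, hbP, hvP, hsP, htP, -⟩ := c.o.pa.adm
  refine ⟨hPc, haP, hbP, ?_, ?_⟩
  · intro u hu
    refine ⟨fun h' => Set.disjoint_left.1 c.o.pa.cP h' hu, ?_, ?_, ?_, ?_⟩
    · rintro rfl
      exact c.pP hu
    · rintro rfl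
      exact hvP hu
    · rintro rfl
      exact hsP hu
    · rintro rfl
      exact htP hu
  · intro Q hQ hQH haQ hbQ y hy
    obtain ⟨⟨hyC, hyp, hyv, hys, hyt⟩, hyn⟩ := hy
    refine c.o.star Q ⟨hQ, haQ, hbQ, fun h' => (hQH h').2.2.1 rfl, fun h' => (hQH h').2.2.2.1 rfl,
      fun h' => (hQH h').2.2.2.2 rfl, fun h' => (hQH h'.1).2.1 rfl⟩ ?_ y hyC hyv hys hyt hyn
    rw [Set.disjoint_left]
    exact fun x hx hx' => (hQH hx').1 hx

theorem c3_all [Fintype V] (hG : IsKConnected 6 G) {a b v s t p q z r r' : V} {P C : Set V}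
    (h : Cg6 G a b v s t p q) (k : Rr G a b v s t p q z r r') (c : C3 G a b v s t p q P C) :
    ∀ u ∈ H3 v s t p C, u ≠ a → u ≠ b → u ∈ N3 G v s t p C := by
  classical
  intro u huH hua hub
  by_contra huN
  obtain ⟨-, haP, hbP, hvP, hsP, htP, -⟩ := c.o.pa.adm
  have hqN : q ∈ N3 G v s t p C :=
    ⟨⟨fun h' => Set.disjoint_left.1 c.o.pa.cP h' c.qP, h.pq.ne', h.vq.ne', h.qs, h.qt⟩,
      c3_q hG h k c⟩
  obtain ⟨K, hKM, huK, hKc, hKcl⟩ := exists_comp G
    {y | y ∈ H3 v s t p C ∧ y ∉ N3 G v s t p C ∧ y ≠ a ∧ y ≠ b} u ⟨huH, huN, hua, hub⟩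
  have hvK : ∀ y ∈ K, ¬ G.Adj v y := by
    intro y hy hvy
    have hy' := hKM hy
    rcases h.nv y hvy with e | e | e | e | e | e
    · exact hy'.1.2.2.2.1 e
    · exact hy'.1.2.2.2.2 e
    · exact hy'.2.2.1 e
    · exact hy'.2.2.2 e
    · exact hy'.1.2.1 e
    · exact hy'.2.1 (e ▸ hqN)
  have hvK' : v ∉ K := fun h' => (hKM h').1.2.2.1 rfl
  have h6 := Pool.Agent.LI4.nbhd6 hG K ⟨u, huK⟩ v hvK' hvK
  have hnb : ∀ w ∈ ({y | y ∉ K ∧ ∃ u ∈ K, G.Adj y u} : Set V) \ {p, s, t},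
      w ∈ N3 G v s t p C ∪ {a, b} ∧ ∃ u ∈ K, G.Adj w u := by
    rintro w ⟨⟨hw, x, hx, hwx⟩, hw'⟩
    simp only [Set.mem_insert_iff, Set.mem_singleton_iff, not_or] at hw'
    refine ⟨?_, x, hx, hwx⟩
    by_contra hno
    simp only [Set.mem_union, Set.mem_insert_iff, Set.mem_singleton_iff, not_or] at hno
    refine hKcl w hw ⟨x, hx, hwx⟩ ⟨⟨?_, hw'.1, ?_, hw'.2.1, hw'.2.2⟩, hno.1, hno.2.1, hno.2.2⟩
    · intro hwC
      exact (hKM hx).2.1 ⟨(hKM hx).1, w, hwC, hwx.symm⟩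
    · rintro rfl
      exact hvK x hx hwx
  have h3 : (({p, s, t} : Set V)).ncard ≤ 3 := by
    have h4 : ({p, s, t} : Set V) = (({p, s, t} : Finset V) : Set V) := by simp
    rw [h4, Set.ncard_coe_finset]
    exact Finset.card_le_three
  have h4 := Set.ncard_le_ncard_sdiff_add_ncard
    ({y | y ∉ K ∧ ∃ u ∈ K, G.Adj y u} : Set V) {p, s, t}
  have h5 : 2 < (({y | y ∉ K ∧ ∃ u ∈ K, G.Adj y u} : Set V) \ {p, s, t}).ncard := by omega
  obtain ⟨y₁, y₂, y₃, m1, m2, m3, h12, h13, h23⟩ := (Set.two_lt_ncard_iff (Set.toFinite _)).1 h5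
  exact no_three (c3_chain h c) h.ab hKc (fun y hy => (hKM hy).1) (fun y hy => (hKM hy).2)
    h12 h13 h23 (hnb _ m1).1 (hnb _ m2).1 (hnb _ m3).1 (hnb _ m1).2 (hnb _ m2).2 (hnb _ m3).2

end Pool.Agent.LI7
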