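import Pool.Agent.LI7.CompOut

/-!
LI7: the outcome for one route, from the statements of `kill7` and `whole6`.
-/

set_option autoImplicit false

namespace Pool.Agent.LI7.S51

open Pool.Agent.LG6 Pool.Agent.LR5 Pool.Agent.LI5 Pool.Agent.LI6

variable {V : Type} {G : SimpleGraph V}

theorem q_mem {a b v s t p q z r r' : V} (h : Cg6 G a b v s t p q)
    (k : Rr G a b v s t p q z r r') : q ∈ ((({a, p, z, r, b} : Set V) ∪ {v, s, t})ᶜ) := by
  intro hq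
  simp only [Set.mem_union, Set.mem_insert_iff, Set.mem_singleton_iff] at hq
  rcases hq with (hq | hq | hq | hq | hq) | hq | hq | hq
  · exact h.nab (hq ▸ h.bq).symm
  · exact h.pq.ne hq.symm
  · exact k.R.qz.ne hq
  · exact k.R.qr.ne hq
  · exact h.bq.ne hq.symm
  · exact h.vq.ne hq.symm
  · exact h.qs hq
  · exact h.qt hq

theorem route_out [Fintype V] (hG : IsKConnected 6 G) {a b v s t p q z r r' : V}
    (h : Cg6 G a b v s t p q) (k : Rr G a b v s t p q z r r')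
    (hkill : ¬ ((∃ x ∈ ((({a, p, z, r, b} : Set V) ∪ {v, s, t})ᶜ), G.Adj s x) ∧
      ∃ x ∈ ((({a, p, z, r, b} : Set V) ∪ {v, s, t})ᶜ), G.Adj t x) →
      ∃ x, Kill G a b v s t z r x)
    (hwhole : Cn G ((({a, p, z, r, b} : Set V) ∪ {v, s, t})ᶜ) →
      (∃ x ∈ ((({a, p, z, r, b} : Set V) ∪ {v, s, t})ᶜ), G.Adj s x) →
      (∃ x ∈ ((({a, p, z, r, b} : Set V) ∪ {v, s, t})ᶜ), G.Adj t x) → HasCompleteMinor 6 G)
    (hn : ∀ U, Comp G a b v s t p z r U → q ∉ U →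
      ¬ ((∃ x ∈ U, G.Adj s x) ∧ ∃ x ∈ U, G.Adj t x)) :
    HasCompleteMinor 6 G ∨ Out G a b v s t p q z r := by
  obtain ⟨K, hKM, hqK, hKc, hKcl⟩ :=
    exists_comp G ((({a, p, z, r, b} : Set V) ∪ {v, s, t})ᶜ) q (q_mem h k)
  by_cases hKeq : ((({a, p, z, r, b} : Set V) ∪ {v, s, t})ᶜ) ⊆ K
  · have hKe : K = ((({a, p, z, r, b} : Set V) ∪ {v, s, t})ᶜ) := Set.Subset.antisymm hKM hKeq
    rw [hKe] at hKc
    by_cases hst : (∃ x ∈ ((({a, p, z, r, b} : Set V) ∪ {v, s, t})ᶜ), G.Adj s x) ∧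
        ∃ x ∈ ((({a, p, z, r, b} : Set V) ∪ {v, s, t})ᶜ), G.Adj t x
    · exact Or.inl (hwhole hKc hst.1 hst.2)
    · exact Or.inr (Or.inl (hkill hst))
  · obtain ⟨u, huM, huK⟩ := Set.not_subset.1 hKeq
    obtain ⟨U, hUM, huU, hUc, hUcl⟩ :=
      exists_comp G ((({a, p, z, r, b} : Set V) ∪ {v, s, t})ᶜ) u huM
    have hqU : q ∉ U := by
      intro hq
      obtain ⟨g, y, -, hyU, hgy, hgK, hyK⟩ := hUc.exit (P := K) ⟨q, hq, hqK⟩ ⟨u, huU, huK⟩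
      exact hKcl y hyK ⟨g, hgK, hgy.symm⟩ (hUM hyU)
    have hcomp : Comp G a b v s t p z r U :=
      ⟨hUc, hUM, fun w hw hwu => not_not.1 (hUcl w hw hwu)⟩
    rcases comp_out hG h k hcomp hqU (hn U hcomp hqU) with h1 | ⟨x, y, hI⟩
    · exact Or.inl h1
    · exact Or.inr (Or.inr ⟨x, y, U, hI⟩)

end Pool.Agent.LI7.S51
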