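import Pool.Agent.LI7.CompOut

/-!
LI7: the outcome for one route, proofs.
-/

set_option autoImplicit false

namespace Pool.Agent.LI7.RouteS78

open Pool.Agent.LG6 Pool.Agent.LR5 Pool.Agent.LI5 Pool.Agent.LI6 Pool.Agent.LI7

variable {V : Type} {G : SimpleGraph V}

theorem kill7 [Fintype V] (hG : IsKConnected 6 G) {a b v s t p q z r : V}
    (h : Cg6 G a b v s t p q)
    (hn : ¬ ((∃ x ∈ ((({a, p, z, r, b} : Set V) ∪ {v, s, t})ᶜ), G.Adj s x) ∧
      ∃ x ∈ ((({a, p, z, r, b} : Set V) ∪ {v, s, t})ᶜ), G.Adj t x)) :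
    ∃ x, Kill G a b v s t z r x := by
  have main : ∀ x x', ((x = s ∧ x' = t) ∨ (x = t ∧ x' = s)) →
      (¬ ∃ y ∈ ((({a, p, z, r, b} : Set V) ∪ {v, s, t})ᶜ), G.Adj x y) →
      G.Adj x z ∧ G.Adj x r ∧
      ∀ y, G.Adj x y → y = a ∨ y = b ∨ y = v ∨ y = s ∨ y = t ∨ y = z ∨ y = r := by
    intro x x' hx hno
    have hnp : ¬ G.Adj x p := by
      rcases hx with ⟨rfl, -⟩ | ⟨rfl, -⟩
      · exact h.nsp
      · exact h.ntp
    have hall : ∀ y, G.Adj x y → y = a ∨ y = b ∨ y = v ∨ y = x' ∨ y = z ∨ y = r := by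
      intro y hy
      by_contra hcon
      push Not at hcon
      refine hno ⟨y, ?_, hy⟩
      rintro ((e | e | e | e | e) | (e | e | e))
      · exact hcon.1 e
      · exact hnp (e ▸ hy)
      · exact hcon.2.2.2.2.1 e
      · exact hcon.2.2.2.2.2 e
      · exact hcon.2.1 e
      · exact hcon.2.2.1 e
      · rcases hx with ⟨hx, -⟩ | ⟨-, hx⟩
        · exact hy.ne (hx.trans e.symm)
        · exact hcon.2.2.2.1 (e.trans hx.symm)
      · have e' : y = t := e
        rcases hx with ⟨-, hx⟩ | ⟨hx, -⟩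
        · exact hcon.2.2.2.1 (e'.trans hx.symm)
        · exact hy.ne (hx.trans e'.symm)
    have hdeg : 6 ≤ ({y | G.Adj x y} : Set V).ncard := dg_ge hG x
    refine ⟨?_, ?_, ?_⟩
    · by_contra hc'
      refine ncard_five' (x₁ := a) (x₂ := b) (x₃ := v) (x₄ := x') (x₅ := r) hdeg ?_
      intro y hy
      rcases hall y hy with e | e | e | e | e | e
      · simp [e]
      · simp [e]
      · simp [e]
      · simp [e]
      · exact absurd (e ▸ hy) hc'
      · simp [e]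
    · by_contra hc'
      refine ncard_five' (x₁ := a) (x₂ := b) (x₃ := v) (x₄ := x') (x₅ := z) hdeg ?_
      intro y hy
      rcases hall y hy with e | e | e | e | e | e
      · simp [e]
      · simp [e]
      · simp [e]
      · simp [e]
      · simp [e]
      · exact absurd (e ▸ hy) hc'
    · intro y hy
      rcases hall y hy with e | e | e | e | e | e
      · simp [e]
      · simp [e]
      · simp [e]
      · rcases hx with ⟨-, hx⟩ | ⟨-, hx⟩
        · simp [e, hx]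
        · simp [e, hx]
      · simp [e]
      · simp [e]
  by_cases h1 : ∃ y ∈ ((({a, p, z, r, b} : Set V) ∪ {v, s, t})ᶜ), G.Adj s y
  · by_cases h2 : ∃ y ∈ ((({a, p, z, r, b} : Set V) ∪ {v, s, t})ᶜ), G.Adj t y
    · exact absurd ⟨h1, h2⟩ hn
    · exact ⟨t, Or.inr rfl, main t s (Or.inr ⟨rfl, rfl⟩) h2⟩
  · exact ⟨s, Or.inl rfl, main s t (Or.inl ⟨rfl, rfl⟩) h1⟩

theorem q_mem {a b v s t p q z r r' : V}
    (h : Cg6 G a b v s t p q) (k : Rr G a b v s t p q z r r') :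
    q ∈ ((({a, p, z, r, b} : Set V) ∪ {v, s, t})ᶜ) := by
  rintro ((e | e | e | e | e) | (e | e | e))
  · exact h.nab (e ▸ h.bq).symm
  · exact h.pq.ne e.symm
  · exact k.R.qz.ne e
  · exact k.R.qr.ne e
  · exact h.bq.ne e.symm
  · exact h.vq.ne e.symm
  · exact h.qs e
  · exact h.qt e

theorem whole6 {a b v s t p q z r r' : V}
    (h : Cg6 G a b v s t p q) (k : Rr G a b v s t p q z r r')
    (hc : Cn G ((({a, p, z, r, b} : Set V) ∪ {v, s, t})ᶜ))
    (hs : ∃ x ∈ ((({a, p, z, r, b} : Set V) ∪ {v, s, t})ᶜ), G.Adj s x)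
    (ht : ∃ x ∈ ((({a, p, z, r, b} : Set V) ∪ {v, s, t})ᶜ), G.Adj t x) :
    HasCompleteMinor 6 G := by
  have hpb : b ≠ p := by
    rintro rfl
    exact h.nab h.ap
  have hX : Cn G (insert a (insert p (insert z ({r} : Set V)))) := by
    rcases k.alt with ⟨h1, -, -, -, -⟩ | ⟨h1, -, -, -, -⟩
    · refine Cn.insert (Cn.insert (Cn.insert (cn_single G r) ⟨r, rfl, k.zr⟩) ⟨z, ?_, h1⟩)
        ⟨p, ?_, h.ap⟩
      · exact Or.inl rfl
      · exact Or.inl rfl
    · refine Cn.insert (Cn.insert (Cn.insert (cn_single G r) ⟨r, rfl, k.zr⟩) ⟨r, ?_, h1⟩)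
        ⟨p, ?_, h.ap⟩
      · exact Or.inr rfl
      · exact Or.inl rfl
  have hbX : ∃ x ∈ insert a (insert p (insert z ({r} : Set V))), G.Adj b x := by
    rcases k.alt with ⟨-, h1, -, -, -⟩ | ⟨-, -, h1, -, -⟩
    · exact ⟨r, Or.inr (Or.inr (Or.inr rfl)), h1.symm⟩
    · exact ⟨z, Or.inr (Or.inr (Or.inl rfl)), h1.symm⟩
  refine six_q h hX (Or.inl rfl) hbX ⟨?_, ?_, ?_, ?_⟩ hc (q_mem h k) ⟨?_, ?_, ?_, ?_⟩ ?_ hs ht
    ⟨p, Or.inr (Or.inl rfl), q, q_mem h k, h.pq⟩
  · rintro (e | e | e | e)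
    · exact h.ab e.symm
    · exact hpb e
    · exact k.dz.2.2.1 e.symm
    · exact k.dr.2.2.1 e.symm
  · rintro (e | e | e | e)
    · exact h.av.ne e.symm
    · exact h.vp.ne e
    · exact k.dz.2.2.2.1 e.symm
    · exact k.dr.2.2.2.1 e.symm
  · rintro (e | e | e | e)
    · exact h.as.ne e.symm
    · exact h.ps e.symm
    · exact k.dz.2.2.2.2.1 e.symm
    · exact k.dr.2.2.2.2.1 e.symm
  · rintro (e | e | e | e)
    · exact h.at'.ne e.symm
    · exact h.pt e.symm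
    · exact k.dz.2.2.2.2.2 e.symm
    · exact k.dr.2.2.2.2.2 e.symm
  · exact fun h' => h' (Or.inl (by simp))
  · exact fun h' => h' (Or.inr (by simp))
  · exact fun h' => h' (Or.inr (by simp))
  · exact fun h' => h' (Or.inr (by simp))
  · rw [Set.disjoint_left]
    rintro y (e | e | e | e) hy
    · exact hy (Or.inl (Or.inl e))
    · exact hy (Or.inl (Or.inr (Or.inl e)))
    · exact hy (Or.inl (Or.inr (Or.inr (Or.inl e))))
    · exact hy (Or.inl (Or.inr (Or.inr (Or.inr (Or.inl e)))))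

end Pool.Agent.LI7.RouteS78
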