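import Pool.Agent.LI7.CompOut
import Pool.Agent.LI7.RouteS51
import Pool.Agent.LI7.RouteS78

/-!
LI7: the outcome for one route.

`kill7`: as `LI6.kill6`: one of `s`, `t` has no neighbour in the complement `M` of the route; it is not
adjacent to `p`, so it has at most the neighbours `a, b, v, z, r` and the other one, and at least six.
`whole6`: `M` is connected and adjacent to `s` and `t`: `six_q` with `X = {a, p, z, r}` (connected: normal
`a ~ p ~ z ~ r`, abnormal `a ~ p ~ r ~ z`; `b ~ r` or `b ~ z`), `C = M` (`q ∈ M`, `q ~ p`).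
`route_out`: let `K` be the component of `q` in `M`.  If `K = M`: `whole6` or `kill7`.  Otherwise `comp_out`
for the component of a vertex of `M \ K`.
-/

set_option autoImplicit false

namespace Pool.Agent.LI7

open Pool.Agent.LG6 Pool.Agent.LR5 Pool.Agent.LI5 Pool.Agent.LI6

variable {V : Type} {G : SimpleGraph V}

theorem kill7 [Fintype V] (hG : IsKConnected 6 G) {a b v s t p q z r : V}
    (h : Cg6 G a b v s t p q)
    (hn : ¬ ((∃ x ∈ ((({a, p, z, r, b} : Set V) ∪ {v, s, t})ᶜ), G.Adj s x) ∧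
      ∃ x ∈ ((({a, p, z, r, b} : Set V) ∪ {v, s, t})ᶜ), G.Adj t x)) :
    ∃ x, Kill G a b v s t z r x :=
  RouteS78.kill7 hG h hn

theorem whole6 {a b v s t p q z r r' : V}
    (h : Cg6 G a b v s t p q) (k : Rr G a b v s t p q z r r')
    (hc : Cn G ((({a, p, z, r, b} : Set V) ∪ {v, s, t})ᶜ))
    (hs : ∃ x ∈ ((({a, p, z, r, b} : Set V) ∪ {v, s, t})ᶜ), G.Adj s x)
    (ht : ∃ x ∈ ((({a, p, z, r, b} : Set V) ∪ {v, s, t})ᶜ), G.Adj t x) :
    HasCompleteMinor 6 G :=
  RouteS78.whole6 h k hc hs ht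

theorem route_out [Fintype V] (hG : IsKConnected 6 G) {a b v s t p q z r r' : V}
    (h : Cg6 G a b v s t p q) (k : Rr G a b v s t p q z r r')
    (hn : ∀ U, Comp G a b v s t p z r U → q ∉ U →
      ¬ ((∃ x ∈ U, G.Adj s x) ∧ ∃ x ∈ U, G.Adj t x)) :
    HasCompleteMinor 6 G ∨ Out G a b v s t p q z r :=
  S51.route_out hG h k (kill7 hG h) (whole6 h k) hn

end Pool.Agent.LI7
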