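import Pool.Agent.LI7.Extra
import Pool.Agent.LI7.Route

/-!
LI7: `kill_iso` (proof in the header of Combo.lean).
-/

set_option autoImplicit false

namespace Pool.Agent.LI7

open Pool.Agent.LG6 Pool.Agent.LR5 Pool.Agent.LI5 Pool.Agent.LI6

variable {V : Type} {G : SimpleGraph V}

theorem combo46_kill_iso [Fintype V] (hG : IsKConnected 6 G) {a b v s t p q z r r' : V}
    (h : Cg6 G a b v s t p q) (k : Rr G a b v s t p q z r r') {x x₂ y₂ : V} {U : Set V}
    (h1 : Kill G a b v s t z r' x) (h2 : Iso G a b v s t p q z r x₂ y₂ U) :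
    HasCompleteMinor 6 G := by
  classical
  obtain ⟨hx, hxz, hxr, hxn⟩ := h1
  obtain ⟨dza, dzp, dzb, dzv, dzs, dzt⟩ := k.dz
  obtain ⟨dra, drp, drb, drv, drs, drt⟩ := k.dr
  obtain ⟨dra', drp', drb', drv', drs', drt'⟩ := k.dr'
  -- elements of `U`
  have hU : ∀ w ∈ U, w ≠ a ∧ w ≠ p ∧ w ≠ z ∧ w ≠ r ∧ w ≠ b ∧ w ≠ v ∧ w ≠ s ∧ w ≠ t := by
    intro w hw
    have hn := h2.sub hw
    refine ⟨?_, ?_, ?_, ?_, ?_, ?_, ?_, ?_⟩
    · intro e; exact hn (Or.inl (Or.inl e))
    · intro e; exact hn (Or.inl (Or.inr (Or.inl e)))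
    · intro e; exact hn (Or.inl (Or.inr (Or.inr (Or.inl e))))
    · intro e; exact hn (Or.inl (Or.inr (Or.inr (Or.inr (Or.inl e)))))
    · intro e; exact hn (Or.inl (Or.inr (Or.inr (Or.inr (Or.inr e)))))
    · intro e; exact hn (Or.inr (Or.inl e))
    · intro e; exact hn (Or.inr (Or.inr (Or.inl e)))
    · intro e; exact hn (Or.inr (Or.inr (Or.inr e)))
  have hzU : z ∉ U := fun h' => (hU z h').2.2.1 rfl
  have hpU : p ∉ U := fun h' => (hU p h').2.1 rfl
  have hrU : r ∉ U := fun h' => (hU r h').2.2.2.1 rfl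
  have haU : a ∉ U := fun h' => (hU a h').1 rfl
  have hbU : b ∉ U := fun h' => (hU b h').2.2.2.2.1 rfl
  have hvU : v ∉ U := fun h' => (hU v h').2.2.2.2.2.1 rfl
  have hsU : s ∉ U := fun h' => (hU s h').2.2.2.2.2.2.1 rfl
  have htU : t ∉ U := fun h' => (hU t h').2.2.2.2.2.2.2 rfl
  have hqa : q ≠ a := by
    rintro rfl
    exact h.nab h.bq.symm
  have hqp : q ≠ p := h.pq.ne'
  have hqz : q ≠ z := k.R.qz.ne
  have hqr : q ≠ r := k.R.qr.ne
  have hqr' : q ≠ r' := k.R.qr'.ne
  have hqb : q ≠ b := h.bq.ne'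
  have hqv : q ≠ v := h.vq.ne'
  have hpa : p ≠ a := h.ap.ne'
  have hpb : p ≠ b := by
    rintro rfl
    exact h.nab h.ap
  have hpv : p ≠ v := h.vp.ne'
  -- `x` is not `x₂`
  have hxx : x ≠ x₂ := by
    rintro rfl
    rcases h2.xa z hxz with e | e | e | e | e | e
    · exact dza e
    · exact dzb e
    · exact dzv e
    · exact dzs e
    · exact dzt e
    · exact hzU e
  have hst : (x₂ = s ∧ x = t) ∨ (x₂ = t ∧ x = s) := by
    rcases hx with hx | hx <;> rcases h2.xy with ⟨e1, -⟩ | ⟨e1, -⟩
    · exact absurd (hx.trans e1.symm) hxx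
    · exact Or.inr ⟨e1, hx⟩
    · exact Or.inl ⟨e1, hx⟩
    · exact absurd (hx.trans e1.symm) hxx
  have s1 : ∃ w ∈ ({z} : Set V) ∪ U, G.Adj s w := by
    rcases hst with ⟨e1, e2⟩ | ⟨e1, e2⟩
    · obtain ⟨u, hu, hxu⟩ := h2.ax
      exact ⟨u, Or.inr hu, e1 ▸ hxu⟩
    · exact ⟨z, Or.inl rfl, e2 ▸ hxz⟩
  have t1 : ∃ w ∈ ({z} : Set V) ∪ U, G.Adj t w := by
    rcases hst with ⟨e1, e2⟩ | ⟨e1, e2⟩
    · exact ⟨z, Or.inl rfl, e2 ▸ hxz⟩
    · obtain ⟨u, hu, hxu⟩ := h2.ax
      exact ⟨u, Or.inr hu, e1 ▸ hxu⟩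
  by_cases hex : ∃ u₀, u₀ ∉ ({a, b, v, s, t, p, z, r, r', q} : Set V) ∪ U
  · obtain ⟨u₀, hu₀⟩ := hex
    refine extra6 hG h k U ?_ ?_ ?_ ?_ ?_ ?_ hu₀
    · intro w hw
      have := hU w hw
      exact ⟨this.1, this.2.2.2.2.1, this.2.2.2.2.2.1, this.2.2.2.2.2.2.1, this.2.2.2.2.2.2.2⟩
    · intro w hw hwu
      rcases h2.cl w hw hwu with (e | e | e | e | e) | (e | e | e)
      · exact Or.inl (Or.inl e)
      · exact Or.inl (Or.inr (Or.inr (Or.inl e)))
      · exact Or.inl (Or.inr (Or.inr (Or.inr (Or.inl e))))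
      · exact Or.inl (Or.inr (Or.inr (Or.inr (Or.inr (Or.inl e)))))
      · exact Or.inl (Or.inr (Or.inl e))
      · exact Or.inr (Or.inl e)
      · exact Or.inr (Or.inr (Or.inl e))
      · exact Or.inr (Or.inr (Or.inr e))
    · intro w hw
      rcases hst with ⟨e1, e2⟩ | ⟨e1, e2⟩
      · rcases h2.xa w (e1.symm ▸ hw) with e | e | e | e | e | e
        · exact Or.inl (Or.inl e)
        · exact Or.inl (Or.inr (Or.inl e))
        · exact Or.inl (Or.inr (Or.inr (Or.inl e)))
        · exact absurd e.symm hw.ne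
        · exact Or.inl (Or.inr (Or.inr (Or.inr (Or.inl e))))
        · exact Or.inr e
      · rcases hxn w (e2.symm ▸ hw) with e | e | e | e | e | e | e
        · exact Or.inl (Or.inl e)
        · exact Or.inl (Or.inr (Or.inl e))
        · exact Or.inl (Or.inr (Or.inr (Or.inl e)))
        · exact absurd e.symm hw.ne
        · exact Or.inl (Or.inr (Or.inr (Or.inr (Or.inl e))))
        · exact Or.inl (Or.inr (Or.inr (Or.inr (Or.inr (Or.inl e)))))
        · exact Or.inl (Or.inr (Or.inr (Or.inr (Or.inr (Or.inr (Or.inr e))))))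
    · intro w hw
      rcases hst with ⟨e1, e2⟩ | ⟨e1, e2⟩
      · rcases hxn w (e2.symm ▸ hw) with e | e | e | e | e | e | e
        · exact Or.inl (Or.inl e)
        · exact Or.inl (Or.inr (Or.inl e))
        · exact Or.inl (Or.inr (Or.inr (Or.inl e)))
        · exact Or.inl (Or.inr (Or.inr (Or.inr (Or.inl e))))
        · exact absurd e.symm hw.ne
        · exact Or.inl (Or.inr (Or.inr (Or.inr (Or.inr (Or.inl e)))))
        · exact Or.inl (Or.inr (Or.inr (Or.inr (Or.inr (Or.inr (Or.inr e))))))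
      · rcases h2.xa w (e1.symm ▸ hw) with e | e | e | e | e | e
        · exact Or.inl (Or.inl e)
        · exact Or.inl (Or.inr (Or.inl e))
        · exact Or.inl (Or.inr (Or.inr (Or.inl e)))
        · exact Or.inl (Or.inr (Or.inr (Or.inr (Or.inl e))))
        · exact absurd e.symm hw.ne
        · exact Or.inr e
    · obtain ⟨w, hw | hw, hsw⟩ := s1
      · exact ⟨w, Or.inl (Or.inl hw), hsw⟩
      · exact ⟨w, Or.inr hw, hsw⟩
    · obtain ⟨w, hw | hw, hsw⟩ := t1
      · exact ⟨w, Or.inl (Or.inl hw), hsw⟩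
      · exact ⟨w, Or.inr hw, hsw⟩
  · have hall : ∀ w, w = a ∨ w = b ∨ w = v ∨ w = s ∨ w = t ∨ w = p ∨ w = z ∨ w = r ∨ w = r' ∨ w = q ∨
        w ∈ U := by
      intro w
      by_contra hc
      push Not at hc
      obtain ⟨c1, c2, c3, c4, c5, c6, c7, c8, c9, c10, c11⟩ := hc
      refine hex ⟨w, ?_⟩
      rintro ((e | e | e | e | e | e | e | e | e | e) | e)
      · exact c1 e
      · exact c2 e
      · exact c3 e
      · exact c4 e
      · exact c5 e
      · exact c6 e
      · exact c7 e
      · exact c8 e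
      · exact c9 e
      · exact c10 e
      · exact c11 e
    have hrU' : r' ∉ U := by
      intro hr'
      rcases h2.cl q h2.hq ⟨r', hr', k.R.qr'⟩ with (e | e | e | e | e) | (e | e | e)
      · exact hqa e
      · exact hqp e
      · exact hqz e
      · exact hqr e
      · exact hqb e
      · exact hqv e
      · exact h.qs e
      · exact h.qt e
    have hrnU : ∀ u ∈ U, ¬ G.Adj r' u := by
      intro u hu hru
      rcases h2.cl r' hrU' ⟨u, hu, hru⟩ with (e | e | e | e | e) | (e | e | e)
      · exact dra' e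
      · exact drp' e
      · exact k.zr'.ne e.symm
      · exact k.e.ne e.symm
      · exact drb' e
      · exact drv' e
      · exact drs' e
      · exact drt' e
    have hrx₂ : ¬ G.Adj r' x₂ := by
      intro hrx
      rcases h2.xa r' hrx.symm with e | e | e | e | e | e
      · exact dra' e
      · exact drb' e
      · exact drv' e
      · exact drs' e
      · exact drt' e
      · exact hrU' e
    have hrv : ¬ G.Adj r' v := by
      intro hrv
      rcases h.nv r' hrv.symm with e | e | e | e | e | e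
      · exact drs' e
      · exact drt' e
      · exact dra' e
      · exact drb' e
      · exact drp' e
      · exact hqr' e.symm
    have hdeg : 6 ≤ ({y | G.Adj r' y} : Set V).ncard := dg_ge hG r'
    have har : G.Adj a r' := by
      by_contra hna
      have key : ∀ y, G.Adj r' y → y = b ∨ y = x ∨ y = p ∨ y = z ∨ y = r ∨ y = q := by
        intro y hy
        have hs' : y = s ∨ y = t → y = x := by
          intro hyst
          rcases hst with ⟨e1, e2⟩ | ⟨e1, e2⟩
          · rcases hyst with e | e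
            · exact absurd (by rw [e1, ← e]; exact hy) hrx₂
            · exact e.trans e2.symm
          · rcases hyst with e | e
            · exact e.trans e2.symm
            · exact absurd (by rw [e1, ← e]; exact hy) hrx₂
        rcases hall y with e | e | e | e | e | e | e | e | e | e | e
        · exact absurd (e ▸ hy).symm hna
        · exact Or.inl e
        · exact absurd (e ▸ hy) hrv
        · exact Or.inr (Or.inl (hs' (Or.inl e)))
        · exact Or.inr (Or.inl (hs' (Or.inr e)))
        · exact Or.inr (Or.inr (Or.inl e))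
        · exact Or.inr (Or.inr (Or.inr (Or.inl e)))
        · exact Or.inr (Or.inr (Or.inr (Or.inr (Or.inl e))))
        · exact absurd e.symm hy.ne
        · exact Or.inr (Or.inr (Or.inr (Or.inr (Or.inr e))))
        · exact absurd hy (hrnU y e)
      rcases k.alt with ⟨-, -, -, -, h5⟩ | ⟨-, -, -, -, h5⟩
      · refine ncard_five' (x₁ := b) (x₂ := x) (x₃ := z) (x₄ := r) (x₅ := q) hdeg ?_
        intro y hy
        have hy' : G.Adj r' y := hy
        rcases key y hy' with e | e | e | e | e | e
        · simp [e]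
        · simp [e]
        · exact absurd (e ▸ hy').symm h5
        · simp [e]
        · simp [e]
        · simp [e]
      · refine ncard_five' (x₁ := x) (x₂ := p) (x₃ := z) (x₄ := r) (x₅ := q) hdeg ?_
        intro y hy
        have hy' : G.Adj r' y := hy
        rcases key y hy' with e | e | e | e | e | e
        · exact absurd (e ▸ hy').symm h5
        · simp [e]
        · simp [e]
        · simp [e]
        · simp [e]
        · simp [e]
    -- the model
    have hX : Cn G (insert r' (insert q {b})) := by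
      refine Cn.insert (Cn.insert (cn_single G b) ⟨b, rfl, h.bq.symm⟩) ⟨q, Or.inl rfl, k.R.qr'.symm⟩
    have hC : Cn G (insert p (insert z (insert r U))) := by
      obtain ⟨u1, hu1, e1⟩ := h2.ad p (Or.inr (Or.inl rfl))
      obtain ⟨u2, hu2, e2⟩ := h2.ad z (Or.inr (Or.inr (Or.inl rfl)))
      obtain ⟨u3, hu3, e3⟩ := h2.ad r (Or.inr (Or.inr (Or.inr (Or.inl rfl))))
      exact Cn.insert (Cn.insert (Cn.insert h2.cU ⟨u3, hu3, e3⟩) ⟨u2, Or.inr hu2, e2⟩)
        ⟨u1, Or.inr (Or.inr hu1), e1⟩
    refine six_p h hX (Or.inr (Or.inr rfl)) ⟨r', Or.inl rfl, har⟩ ?_ hC (Or.inl rfl) ?_ ?_ ?_ ?_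
      ⟨r', Or.inl rfl, z, Or.inr (Or.inl rfl), k.zr'.symm⟩
    · refine ⟨?_, ?_, ?_, ?_⟩
      · rintro (e | e | e)
        · exact dra' e.symm
        · exact hqa e.symm
        · exact h.ab e
      · rintro (e | e | e)
        · exact drv' e.symm
        · exact hqv e.symm
        · exact h.bv.ne e.symm
      · rintro (e | e | e)
        · exact drs' e.symm
        · exact h.qs e.symm
        · exact h.bs.ne e.symm
      · rintro (e | e | e)
        · exact drt' e.symm
        · exact h.qt e.symm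
        · exact h.bt.ne e.symm
    · refine ⟨?_, ?_, ?_, ?_⟩
      · rintro (e | e | e | e)
        · exact hpa e.symm
        · exact dza e.symm
        · exact dra e.symm
        · exact haU e
      · rintro (e | e | e | e)
        · exact hpv e.symm
        · exact dzv e.symm
        · exact drv e.symm
        · exact hvU e
      · rintro (e | e | e | e)
        · exact h.ps e.symm
        · exact dzs e.symm
        · exact drs e.symm
        · exact hsU e
      · rintro (e | e | e | e)
        · exact h.pt e.symm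
        · exact dzt e.symm
        · exact drt e.symm
        · exact htU e
    · rw [Set.disjoint_left]
      rintro y (e | e | e) (f | f | f | f)
      · exact drp' (e.symm.trans f)
      · exact k.zr'.ne (f.symm.trans e)
      · exact k.e.ne (f.symm.trans e)
      · exact hrU' (e ▸ f)
      · exact hqp (e.symm.trans f)
      · exact hqz (e.symm.trans f)
      · exact hqr (e.symm.trans f)
      · exact h2.hq (e ▸ f)
      · exact hpb (f.symm.trans e)
      · exact dzb (f.symm.trans e)
      · exact drb (f.symm.trans e)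
      · exact hbU (e ▸ f)
    · obtain ⟨w, hw | hw, hsw⟩ := s1
      · exact ⟨w, Or.inr (Or.inl hw), hsw⟩
      · exact ⟨w, Or.inr (Or.inr (Or.inr hw)), hsw⟩
    · obtain ⟨w, hw | hw, hsw⟩ := t1
      · exact ⟨w, Or.inr (Or.inl hw), hsw⟩
      · exact ⟨w, Or.inr (Or.inr (Or.inr hw)), hsw⟩

end Pool.Agent.LI7
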