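import Pool.Agent.LI7.Defs

set_option autoImplicit false

namespace Pool.Agent.LI7.S68

open Pool.Agent.LG6 Pool.Agent.LR5 Pool.Agent.LI5 Pool.Agent.LI6 Pool.Agent.LI7

variable {V : Type} {G : SimpleGraph V}

theorem strong_st [Fintype V] {a b v s t p q z : V} (h : Cg6 G a b v s t p q)
    (dz : z ≠ a ∧ z ≠ p ∧ z ≠ b ∧ z ≠ v ∧ z ≠ s ∧ z ≠ t) (sz : G.Adj s z) (tz : G.Adj t z) :
    Strong G s t := by
  classical
  refine ⟨h.st, Or.inl ⟨{v, a, b, z}, ?_, ?_⟩⟩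
  · have h1 : v ≠ a := h.av.ne.symm
    have h2 : v ≠ b := h.bv.ne.symm
    have h3 : v ≠ z := dz.2.2.2.1.symm
    have h4 : a ≠ b := h.ab
    have h5 : a ≠ z := dz.1.symm
    have h6 : b ≠ z := dz.2.2.1.symm
    rw [Finset.card_insert_of_notMem (by simp [h1, h2, h3]),
      Finset.card_insert_of_notMem (by simp [h4, h5]),
      Finset.card_insert_of_notMem (by simp [h6]), Finset.card_singleton]
  · intro x hx
    simp only [Finset.mem_insert, Finset.mem_singleton] at hx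
    rcases hx with e | e | e | e
    · subst e
      exact ⟨h.vs.symm, h.vt.symm⟩
    · subst e
      exact ⟨h.as.symm, h.at'.symm⟩
    · subst e
      exact ⟨h.bs.symm, h.bt.symm⟩
    · subst e
      exact ⟨sz, tz⟩

theorem kill_kill [Fintype V] (hG : IsKConnected 6 G) {a b v s t p q z r r' : V}
    (h : Cg6 G a b v s t p q) (k : Rr G a b v s t p q z r r') {x y : V}
    (h1 : Kill G a b v s t z r x) (h2 : Kill G a b v s t z r' y) : HasCompleteMinor 6 G := by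
  by_contra hm
  have nxy : x ≠ y := by
    intro e
    subst e
    rcases h2.2.2.2 r h1.2.2.1 with f | f | f | f | f | f | f
    · exact k.dr.1 f
    · exact k.dr.2.2.1 f
    · exact k.dr.2.2.2.1 f
    · exact k.dr.2.2.2.2.1 f
    · exact k.dr.2.2.2.2.2 f
    · exact k.zr.ne f.symm
    · exact k.e.ne f
  have hz : G.Adj s z ∧ G.Adj t z := by
    rcases h1.1 with e | e <;> rcases h2.1 with f | f
    · exact absurd (e.trans f.symm) nxy
    · exact ⟨e ▸ h1.2.1, f ▸ h2.2.1⟩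
    · exact ⟨f ▸ h2.2.1, e ▸ h1.2.1⟩
    · exact absurd (e.trans f.symm) nxy
  exact strong_k4 hG hm (strong_st h k.dz hz.1 hz.2) (w₁ := q) (w₂ := r) (w₃ := r') (w₄ := z)
    k.R.qr k.R.qr' k.R.qz k.e k.zr.symm k.zr'.symm ⟨h.qs, h.qt⟩
    ⟨k.dr.2.2.2.2.1, k.dr.2.2.2.2.2⟩ ⟨k.dr'.2.2.2.2.1, k.dr'.2.2.2.2.2⟩
    ⟨k.dz.2.2.2.2.1, k.dz.2.2.2.2.2⟩

theorem q_out {a b v s t p q z r : V} (h : Cg6 G a b v s t p q) (qz : G.Adj q z)
    (qr : G.Adj q r) : q ∉ ({a, p, z, r, b} : Set V) ∪ {v, s, t} := by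
  intro hq
  simp only [Set.mem_union, Set.mem_insert_iff, Set.mem_singleton_iff] at hq
  rcases hq with (e | e | e | e | e) | (e | e | e)
  · exact h.nab (by rw [← e]; exact h.bq.symm)
  · exact h.pq.ne e.symm
  · exact qz.ne e
  · exact qr.ne e
  · exact h.bq.ne e.symm
  · exact h.vq.ne e.symm
  · exact h.qs e
  · exact h.qt e

theorem iso_disj {a b v s t p q z r r' : V}
    (h : Cg6 G a b v s t p q) (k : Rr G a b v s t p q z r r') {x y x₂ y₂ : V} {U W : Set V}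
    (h1 : Iso G a b v s t p q z r x y U) (h2 : Iso G a b v s t p q z r' x₂ y₂ W) :
    Disjoint U W := by
  rw [Set.disjoint_left]
  intro u hu hw
  have hrW : r ∉ W := fun hr =>
    q_out h k.R.qz k.R.qr' (h2.cl q h2.hq ⟨r, hr, k.R.qr⟩)
  have hrU : r' ∉ U := fun hr =>
    q_out h k.R.qz k.R.qr (h1.cl q h1.hq ⟨r', hr, k.R.qr'⟩)
  have hUW : U ⊆ W := by
    intro c hc
    by_contra hcW
    obtain ⟨g, g', hg, hg', hgg, hgW, hg'W⟩ := h1.cU.exit (P := W) ⟨u, hu, hw⟩ ⟨c, hc, hcW⟩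
    have h3 := h2.cl g' hg'W ⟨g, hgW, hgg.symm⟩
    have h4 := h1.sub hg'
    simp only [Set.mem_compl_iff, Set.mem_union, Set.mem_insert_iff, Set.mem_singleton_iff,
      not_or] at h3 h4
    rcases h3 with (e | e | e | e | e) | (e | e | e)
    · exact h4.1.1 e
    · exact h4.1.2.1 e
    · exact h4.1.2.2.1 e
    · exact hrU (e ▸ hg')
    · exact h4.1.2.2.2.2 e
    · exact h4.2.1 e
    · exact h4.2.2.1 e
    · exact h4.2.2.2 e
  obtain ⟨u', hu', hru'⟩ := h1.ad r (by simp)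
  have h5 := h2.cl r hrW ⟨u', hUW hu', hru'⟩
  simp only [Set.mem_union, Set.mem_insert_iff, Set.mem_singleton_iff] at h5
  rcases h5 with (e | e | e | e | e) | (e | e | e)
  · exact k.dr.1 e
  · exact k.dr.2.1 e
  · exact k.zr.ne e.symm
  · exact k.e.ne e
  · exact k.dr.2.2.1 e
  · exact k.dr.2.2.2.1 e
  · exact k.dr.2.2.2.2.1 e
  · exact k.dr.2.2.2.2.2 e

theorem iso_iso {a b v s t p q z r r' : V}
    (h : Cg6 G a b v s t p q) (k : Rr G a b v s t p q z r r') {x y y₂ : V} {U W : Set V}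
    (h1 : Iso G a b v s t p q z r x y U) (h2 : Iso G a b v s t p q z r' x y₂ W) : False := by
  obtain ⟨u, hu, hxu⟩ := h1.ax
  have h4 := h1.sub hu
  simp only [Set.mem_compl_iff, Set.mem_union, Set.mem_insert_iff, Set.mem_singleton_iff,
    not_or] at h4
  rcases h2.xa u hxu with e | e | e | e | e | e
  · exact h4.1.1 e
  · exact h4.1.2.2.2.2 e
  · exact h4.2.1 e
  · exact h4.2.2.1 e
  · exact h4.2.2.2 e
  · exact Set.disjoint_left.1 (iso_disj h k h1 h2) hu e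

end Pool.Agent.LI7.S68
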