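import Pool.Agent.LI7.Extra
import Pool.Agent.LI7.Route
import Pool.Agent.LI7.ComboS46
import Pool.Agent.LI7.ComboS68

/-!
LI7: two exceptional outcomes for the two routes (the cases without the last one).

`kill_kill`: `Kill` for `r` and for `r'`.  The vertices `x`, `y` are different: `x ~ r`, and `r` is none of
`a, b, v, s, t, z, r'`.  So `z ~ s, t`, the edge `s t` is strong (`Q = {v, a, b, z}`; `v ≠ a, b, z`, `a ≠ b, z`,
`b ≠ z`), and the 4-clique `q, r, r', z` avoids it: `strong_k4`.

`kill_iso`: `Kill` for `r'` with the vertex `x`, `Iso` for `r` with `x₂, y₂, U`.  `x ~ z` and `z` is none of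
`a, b, v, s, t` and not in `U`, so `x ≠ x₂`, `x = y₂`.  If some vertex is outside
`{a, b, v, s, t, p, z, r, r', q} ∪ U`: `extra6` with `A = U` (`s1`, `t1`: `x ~ z`, and `x₂` is adjacent to `U`).
Otherwise `r' ∉ U` (`q ∉ U` is adjacent to `r'` and in the complement), `r'` is not adjacent to `U` (`cl`), to
`x₂` (`xa`), to `v` (`h.nv`) and to one of `p`, `b` (`k.alt`); so it has at most the neighbours
`x, a, z, r, q` and one of `p`, `b`; by `dg_ge` it is adjacent to `a`.  `six_p` with `X = {r', q, b}`,
`C = {p, z, r} ∪ U` (`Cn.insert`, `Iso.ad`).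

`iso_eq`: if `U ∩ W` is nonempty then `U = W`: `r ∉ W` (adjacent to `q`), so `W` is inside the complement of
the first route, and `U` is closed there; same for `r' ∉ U`.  But `r` is adjacent to `U`, so by `cl` for `W`
it is in `{a, p, z, r', b} ∪ {v, s, t}`: contradiction.

`iso_iso`: `Iso` for `r` and `r'` with the same `x`: a neighbour of `x` in `U` is in `W`; `iso_disj`.
-/

set_option autoImplicit false

namespace Pool.Agent.LI7

open Pool.Agent.LG6 Pool.Agent.LR5 Pool.Agent.LI5 Pool.Agent.LI6

variable {V : Type} {G : SimpleGraph V}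

theorem kill_kill [Fintype V] (hG : IsKConnected 6 G) {a b v s t p q z r r' : V}
    (h : Cg6 G a b v s t p q) (k : Rr G a b v s t p q z r r') {x y : V}
    (h1 : Kill G a b v s t z r x) (h2 : Kill G a b v s t z r' y) : HasCompleteMinor 6 G :=
  S68.kill_kill hG h k h1 h2

theorem kill_iso [Fintype V] (hG : IsKConnected 6 G) {a b v s t p q z r r' : V}
    (h : Cg6 G a b v s t p q) (k : Rr G a b v s t p q z r r') {x x₂ y₂ : V} {U : Set V}
    (h1 : Kill G a b v s t z r' x) (h2 : Iso G a b v s t p q z r x₂ y₂ U) :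
    HasCompleteMinor 6 G :=
  combo46_kill_iso hG h k h1 h2

theorem iso_disj {a b v s t p q z r r' : V}
    (h : Cg6 G a b v s t p q) (k : Rr G a b v s t p q z r r') {x y x₂ y₂ : V} {U W : Set V}
    (h1 : Iso G a b v s t p q z r x y U) (h2 : Iso G a b v s t p q z r' x₂ y₂ W) :
    Disjoint U W :=
  S68.iso_disj h k h1 h2

theorem iso_iso {a b v s t p q z r r' : V}
    (h : Cg6 G a b v s t p q) (k : Rr G a b v s t p q z r r') {x y y₂ : V} {U W : Set V}
    (h1 : Iso G a b v s t p q z r x y U) (h2 : Iso G a b v s t p q z r' x y₂ W) : False :=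
  S68.iso_iso h k h1 h2

end Pool.Agent.LI7
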