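import Pool.Agent.LI7.ConnRest

/-!
LI7: a component `U` of the complement of a route that does not contain `q` and is not adjacent to both `s`
and `t`.

Proof.  `r' ∉ U` (otherwise `q ∈ U`, since `q` is in the complement and adjacent to `r'`).  `LI6.piece_adj`:
`a, p, z, r, b` are adjacent to `U`.  `LI4.nbhd6` (with `v`): at least six vertices are adjacent to `U`; they
are among `a, p, z, r, b, s, t`, so one of `s`, `t`, say `x`, is adjacent to `U`; let `y` be the other one: it is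
not adjacent to `U`.  The complement `C` of `U ∪ {a, b, v, s, t}` is connected (`conn_rest`: the vertices of
`C` adjacent to `U` are among `p, z, r`).  `y` has at least six neighbours (`dg_ge`), so one in `C`.  If `x` has
a neighbour in `C` too, `rest6` gives a `K₆` model.  Otherwise `Iso`.
-/

set_option autoImplicit false

namespace Pool.Agent.LI7

open Pool.Agent.LG6 Pool.Agent.LR5 Pool.Agent.LI5 Pool.Agent.LI6

variable {V : Type} {G : SimpleGraph V}

theorem comp_out_aux [Fintype V] (hG : IsKConnected 6 G) {a b v s t p q z r r' : V}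
    (h : Cg6 G a b v s t p q) (k : Rr G a b v s t p q z r r') {U : Set V}
    (hU : Comp G a b v s t p z r U) (hq : q ∉ U)
    (had : ∀ y ∈ ({a, p, z, r, b} : Set V), ∃ u ∈ U, G.Adj y u) {x y : V}
    (hxy : (x = s ∧ y = t) ∨ (x = t ∧ y = s)) (hx : ∃ u ∈ U, G.Adj x u)
    (hy : ∀ u ∈ U, ¬ G.Adj y u) :
    HasCompleteMinor 6 G ∨ ∃ x y, Iso G a b v s t p q z r x y U := by
  have hd : ∀ u ∈ U, u ≠ a ∧ u ≠ p ∧ u ≠ z ∧ u ≠ r ∧ u ≠ b ∧ u ≠ v ∧ u ≠ s ∧ u ≠ t := by
    intro u hu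
    have h1 := hU.sub hu
    simp only [Set.mem_compl_iff, Set.mem_union, Set.mem_insert_iff, Set.mem_singleton_iff,
      not_or] at h1
    exact ⟨h1.1.1, h1.1.2.1, h1.1.2.2.1, h1.1.2.2.2.1, h1.1.2.2.2.2, h1.2.1, h1.2.2.1, h1.2.2.2⟩
  have hC : Cn G ((U ∪ {a, b, v, s, t})ᶜ) := by
    refine conn_rest hG h k hq ?_
    intro w hw hwU
    have h1 := hU.cl w (fun h' => hw (Or.inl h')) hwU
    simp only [Set.mem_union, Set.mem_insert_iff, Set.mem_singleton_iff, not_or] at h1 hw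
    rcases h1 with (h1 | h1 | h1 | h1 | h1) | (h1 | h1 | h1)
    · exact absurd h1 hw.2.1
    · exact Or.inl h1
    · exact Or.inr (Or.inl h1)
    · exact Or.inr (Or.inr (Or.inl h1))
    · exact absurd h1 hw.2.2.1
    · exact absurd h1 hw.2.2.2.1
    · exact absurd h1 hw.2.2.2.2.1
    · exact absurd h1 hw.2.2.2.2.2
  have hyC : ∃ w, w ∉ U ∪ {a, b, v, s, t} ∧ G.Adj y w := by
    by_contra hc
    have hdeg : 6 ≤ ({w | G.Adj y w} : Set V).ncard := dg_ge hG y
    refine ncard_five' (x₁ := a) (x₂ := b) (x₃ := v) (x₄ := s) (x₅ := t) hdeg ?_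
    intro w hw
    have hw' : G.Adj y w := hw
    have h1 : w ∈ U ∪ {a, b, v, s, t} := by
      by_contra h2
      exact hc ⟨w, h2, hw'⟩
    rcases h1 with h1 | h1
    · exact absurd hw' (hy w h1)
    · simpa only [Set.mem_insert_iff, Set.mem_singleton_iff] using h1
  by_cases hxC : ∃ w, w ∉ U ∪ {a, b, v, s, t} ∧ G.Adj x w
  · left
    refine rest6 h hU.cU ⟨fun h' => (hd _ h').1 rfl, fun h' => (hd _ h').2.2.2.2.1 rfl,
      fun h' => (hd _ h').2.2.2.2.2.1 rfl, fun h' => (hd _ h').2.2.2.2.2.2.1 rfl,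
      fun h' => (hd _ h').2.2.2.2.2.2.2 rfl, fun h' => (hd _ h').2.1 rfl, hq⟩
      (had a (by simp)) (had b (by simp)) hC ?_ ?_
    · obtain ⟨w, hw1, hw2⟩ := hxC
      obtain ⟨w', hw1', hw2'⟩ := hyC
      rcases hxy with ⟨h1, h2⟩ | ⟨h1, h2⟩
      · exact ⟨w, hw1, h1 ▸ hw2⟩
      · exact ⟨w', hw1', h2 ▸ hw2'⟩
    · obtain ⟨w, hw1, hw2⟩ := hxC
      obtain ⟨w', hw1', hw2'⟩ := hyC
      rcases hxy with ⟨h1, h2⟩ | ⟨h1, h2⟩
      · exact ⟨w', hw1', h2 ▸ hw2'⟩
      · exact ⟨w, hw1, h1 ▸ hw2⟩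
  · right
    refine ⟨x, y, hxy, hU.cU, hU.sub, hU.cl, hq, hy, ?_, had, hx⟩
    intro w hw
    have h1 : w ∈ U ∪ {a, b, v, s, t} := by
      by_contra h2
      exact hxC ⟨w, h2, hw⟩
    rcases h1 with h1 | h1
    · exact Or.inr (Or.inr (Or.inr (Or.inr (Or.inr h1))))
    · simp only [Set.mem_insert_iff, Set.mem_singleton_iff] at h1
      rcases h1 with h1 | h1 | h1 | h1 | h1
      · exact Or.inl h1
      · exact Or.inr (Or.inl h1)
      · exact Or.inr (Or.inr (Or.inl h1))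
      · exact Or.inr (Or.inr (Or.inr (Or.inl h1)))
      · exact Or.inr (Or.inr (Or.inr (Or.inr (Or.inl h1))))

theorem comp_out [Fintype V] (hG : IsKConnected 6 G) {a b v s t p q z r r' : V}
    (h : Cg6 G a b v s t p q) (k : Rr G a b v s t p q z r r') {U : Set V}
    (hU : Comp G a b v s t p z r U) (hq : q ∉ U)
    (hn : ¬ ((∃ x ∈ U, G.Adj s x) ∧ ∃ x ∈ U, G.Adj t x)) :
    HasCompleteMinor 6 G ∨ ∃ x y, Iso G a b v s t p q z r x y U := by
  have hd : ∀ u ∈ U, u ≠ a ∧ u ≠ p ∧ u ≠ z ∧ u ≠ r ∧ u ≠ b ∧ u ≠ v ∧ u ≠ s ∧ u ≠ t := by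
    intro u hu
    have h1 := hU.sub hu
    simp only [Set.mem_compl_iff, Set.mem_union, Set.mem_insert_iff, Set.mem_singleton_iff,
      not_or] at h1
    exact ⟨h1.1.1, h1.1.2.1, h1.1.2.2.1, h1.1.2.2.2.1, h1.1.2.2.2.2, h1.2.1, h1.2.2.1, h1.2.2.2⟩
  have hv : v ∉ U := fun h' => (hd _ h').2.2.2.2.2.1 rfl
  have hs : s ∉ U := fun h' => (hd _ h').2.2.2.2.2.2.1 rfl
  have ht : t ∉ U := fun h' => (hd _ h').2.2.2.2.2.2.2 rfl
  have had : ∀ y ∈ ({a, p, z, r, b} : Set V), ∃ u ∈ U, G.Adj y u := by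
    refine piece_adj hG h U hU.cU ?_ hv hs ht ?_ hq hn
    · rw [Set.disjoint_left]
      intro u hu h1
      simp only [Set.mem_insert_iff, Set.mem_singleton_iff] at h1
      have h2 := hd u hu
      rcases h1 with h1 | h1 | h1 | h1 | h1
      · exact h2.1 h1
      · exact h2.2.1 h1
      · exact h2.2.2.1 h1
      · exact h2.2.2.2.1 h1
      · exact h2.2.2.2.2.1 h1
    · intro y hy1 hy2
      rcases hU.cl y hy1 hy2 with h1 | h1
      · exact Or.inl h1
      · simp only [Set.mem_insert_iff, Set.mem_singleton_iff] at h1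
        exact Or.inr h1
  have hvU : ∀ u ∈ U, ¬ G.Adj v u := by
    intro u hu hvu
    have h2 := hd u hu
    rcases h.nv u hvu with h1 | h1 | h1 | h1 | h1 | h1
    · exact h2.2.2.2.2.2.2.1 h1
    · exact h2.2.2.2.2.2.2.2 h1
    · exact h2.1 h1
    · exact h2.2.2.2.2.1 h1
    · exact h2.2.1 h1
    · exact hq (h1 ▸ hu)
  have hne : U.Nonempty := by
    obtain ⟨x⟩ := hU.cU.nonempty
    exact ⟨x.1, x.2⟩
  have h6 := LI4.nbhd6 hG U hne v hv hvU
  have hst : (∃ u ∈ U, G.Adj s u) ∨ ∃ u ∈ U, G.Adj t u := by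
    by_contra hc
    rw [not_or] at hc
    refine ncard_five' (x₁ := a) (x₂ := p) (x₃ := z) (x₄ := r) (x₅ := b) h6 ?_
    rintro y ⟨hy1, hy2⟩
    rcases hU.cl y hy1 hy2 with h1 | h1
    · simpa only [Set.mem_insert_iff, Set.mem_singleton_iff] using h1
    · simp only [Set.mem_insert_iff, Set.mem_singleton_iff] at h1
      rcases h1 with h1 | h1 | h1
      · obtain ⟨u, hu, hyu⟩ := hy2
        rw [h1] at hyu
        exact absurd hyu (hvU u hu)
      · rw [h1] at hy2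
        exact absurd hy2 hc.1
      · rw [h1] at hy2
        exact absurd hy2 hc.2
  rcases hst with h1 | h1
  · exact comp_out_aux hG h k hU hq had (Or.inl ⟨rfl, rfl⟩) h1
      (fun u hu hu' => hn ⟨h1, u, hu, hu'⟩)
  · exact comp_out_aux hG h k hU hq had (Or.inr ⟨rfl, rfl⟩) h1
      (fun u hu hu' => hn ⟨⟨u, hu, hu'⟩, h1⟩)

end Pool.Agent.LI7
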