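import Pool.Agent.LI7.Defs

/-!
LI7: the complement of `Z ∪ {a, b, v, s, t}` is connected (proof of `conn_rest`).
-/

set_option autoImplicit false

namespace Pool.Agent.LI7

open Pool.Agent.LG6 Pool.Agent.LR5 Pool.Agent.LI5 Pool.Agent.LI6

variable {V : Type} {G : SimpleGraph V}

theorem conn_restS55 [Fintype V] (hG : IsKConnected 6 G) {a b v s t p q z r r' : V}
    (h : Cg6 G a b v s t p q) (k : Rr G a b v s t p q z r r') {Z : Set V} (hqZ : q ∉ Z)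
    (hB : ∀ w, w ∉ Z ∪ {a, b, v, s, t} → (∃ u ∈ Z, G.Adj w u) →
      w = p ∨ w = z ∨ w = r ∨ w = r') : Cn G ((Z ∪ {a, b, v, s, t})ᶜ) := by
  classical
  obtain ⟨C, hC⟩ : ∃ C : Set V, C = (Z ∪ {a, b, v, s, t})ᶜ := ⟨_, rfl⟩
  have memC : ∀ w, w ∈ C ↔ (w ∉ Z ∧ w ≠ a ∧ w ≠ b ∧ w ≠ v ∧ w ≠ s ∧ w ≠ t) := by
    intro w
    rw [hC]
    simp only [Set.mem_compl_iff, Set.mem_union, Set.mem_insert_iff, Set.mem_singleton_iff, not_or,
      ne_eq]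
  have hqa : q ≠ a := by
    rintro rfl
    exact h.nab h.bq.symm
  have hqC : q ∈ C := (memC q).2 ⟨hqZ, hqa, h.bq.ne', h.vq.ne', h.qs, h.qt⟩
  obtain ⟨K, hKM, hqK, hKc, hKcl⟩ := exists_comp G C q hqC
  have hnq : ∀ w, G.Adj q w → w ∈ C → w ∈ K := by
    intro w hw hwC
    by_contra hwK
    exact hKcl w hwK ⟨q, hqK, hw.symm⟩ hwC
  have hKC : K = C := by
    refine Set.Subset.antisymm hKM ?_
    intro u hu
    by_contra huK
    obtain ⟨K₂, hK2M, huK2, hK2c, hK2cl⟩ := exists_comp G C u hu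
    have hdis : ∀ w ∈ K₂, w ∉ K := by
      intro w hw hwK
      obtain ⟨g, g', hg, hg', hgg, hgK, hgK'⟩ := hK2c.exit (P := K) ⟨w, hw, hwK⟩ ⟨u, huK2, huK⟩
      exact hKcl g' hgK' ⟨g, hgK, hgg.symm⟩ (hK2M hg')
    have hq2 : ∀ w ∈ K₂, ¬ G.Adj q w := fun w hw hqw => hdis w hw (hnq w hqw (hK2M hw))
    have hZ2 : ∀ w ∈ K₂, ∀ y ∈ Z, ¬ G.Adj w y := by
      intro w hw y hy hwy
      have hwC := hK2M hw
      rw [hC] at hwC
      rcases hB w hwC ⟨y, hy, hwy⟩ with e | e | e | e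
      · exact hq2 w hw (e ▸ h.pq.symm)
      · exact hq2 w hw (e ▸ k.R.qz)
      · exact hq2 w hw (e ▸ k.R.qr)
      · exact hq2 w hw (e ▸ k.R.qr')
    have hvK2 : v ∉ K₂ := fun hv => ((memC v).1 (hK2M hv)).2.2.2.1 rfl
    have hv2 : ∀ y ∈ K₂, ¬ G.Adj v y := by
      intro y hy hvy
      have hyC := (memC y).1 (hK2M hy)
      rcases h.nv y hvy with e | e | e | e | e | e
      · exact hyC.2.2.2.2.1 e
      · exact hyC.2.2.2.2.2 e
      · exact hyC.2.1 e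
      · exact hyC.2.2.1 e
      · exact hq2 y hy (e ▸ h.pq.symm)
      · exact hdis y hy (e ▸ hqK)
    have h6 := Pool.Agent.LI4.nbhd6 hG K₂ ⟨u, huK2⟩ v hvK2 hv2
    have h5 : ({y | y ∉ K₂ ∧ ∃ u ∈ K₂, G.Adj y u} : Set V).ncard ≤ 5 := by
      refine ncard_five (x₁ := a) (x₂ := b) (x₃ := s) (x₄ := t) (x₅ := t) ?_
      rintro y ⟨hy, x, hx, hyx⟩
      have hyC := hK2cl y hy ⟨x, hx, hyx⟩
      by_contra hno
      push Not at hno
      refine hyC ((memC y).2 ⟨fun hyZ => hZ2 x hx y hyZ hyx.symm, hno.1, hno.2.1, ?_, hno.2.2.1,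
        hno.2.2.2.1⟩)
      rintro rfl
      exact hv2 x hx hyx
    omega
  rw [← hC, ← hKC]
  exact hKc

end Pool.Agent.LI7
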