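import Pool.Agent.LI7.SixP
import Pool.Agent.LI7.ConnRestS55

/-!
LI7: the complement `C` of `Z ∪ {a, b, v, s, t}` is connected if the only vertices of `C` adjacent to `Z` are
among `p, z, r, r'`.

Proof.  Let `K` be the component of `q` in `C` (`LI5.exists_comp`); `p, z, r, r' ∈ K` if they are in `C`
(adjacent to `q`).  If `K ≠ C` let `K₂` be the component of a vertex `u ∈ C \ K`; it is disjoint from `K`
(`Cn.exit`), so it contains none of `q, p, z, r, r'`.  A vertex `w ∉ K₂` adjacent to `K₂` is not in `C`; if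
`w ∈ Z`, a vertex of `K₂` is adjacent to `Z`, contradiction to `hB`; so `w ∈ {a, b, v, s, t}`, and `w ≠ v`
(`h.nv`).  So at most four vertices are adjacent to `K₂`, but `LI4.nbhd6` (with the vertex `v`) gives six.
-/

set_option autoImplicit false

namespace Pool.Agent.LI7

open Pool.Agent.LG6 Pool.Agent.LR5 Pool.Agent.LI5 Pool.Agent.LI6

variable {V : Type} {G : SimpleGraph V}

theorem conn_rest [Fintype V] (hG : IsKConnected 6 G) {a b v s t p q z r r' : V}
    (h : Cg6 G a b v s t p q) (k : Rr G a b v s t p q z r r') {Z : Set V} (hqZ : q ∉ Z)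
    (hB : ∀ w, w ∉ Z ∪ {a, b, v, s, t} → (∃ u ∈ Z, G.Adj w u) →
      w = p ∨ w = z ∨ w = r ∨ w = r') : Cn G ((Z ∪ {a, b, v, s, t})ᶜ) :=
  conn_restS55 hG h k hqZ hB

end Pool.Agent.LI7
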