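import Pool.Agent.LI7.Struct

/-!
LI7/DSideS86: `dside` (helper86).
-/

set_option autoImplicit false

namespace Pool.Agent.LI7

open Pool.Agent.LG6 Pool.Agent.LR5 Pool.Agent.LI5 Pool.Agent.LI6

variable {V : Type} {G : SimpleGraph V}

/-- a connected subset of `M` that meets the component `K` is in `K` -/
theorem sub_comp86 {M K S : Set V} (hKcl : ∀ y, y ∉ K → (∃ u ∈ K, G.Adj y u) → y ∉ M)
    (hS : Cn G S) (hSM : S ⊆ M) {w : V} (hw : w ∈ S) (hwK : w ∈ K) : S ⊆ K := by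
  by_contra hne
  rw [Set.not_subset] at hne
  obtain ⟨y, hy, hyK⟩ := hne
  obtain ⟨g, g', hg, hg', hgg, hgK, hgK'⟩ := hS.exit (P := K) ⟨w, hw, hwK⟩ ⟨y, hy, hyK⟩
  exact hKcl g' hgK' ⟨g, hgK, hgg.symm⟩ (hSM hg')

theorem dside86 [Fintype V] (hG : IsKConnected 6 G) {a b v s t p q z r r' : V} {C X : Set V}
    (h : Cg6 G a b v s t p q) (k : Rr G a b v s t p q z r r') (hrb : G.Adj r' b)
    (x : Xs G a b v s t p q z r r' C X) {D : Set V} (hD : D ⊆ C \ {r}) (cD : Cn G D)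
    (rD : r' ∈ D) (XD : ∃ y ∈ X, ∃ u ∈ D, G.Adj y u) :
    HasCompleteMinor 6 G ∨ ∃ y, Kill G a b v s t z r y := by
  obtain ⟨aC, bC, vC, sC, tC, pC, qC, zC⟩ := x.nC
  obtain ⟨aX, bX, vX, sX, tX, pX, qX, zX⟩ := x.nX
  have hqa : q ≠ a := by
    rintro rfl
    exact h.nab h.bq.symm
  have hqv : q ≠ v := h.vq.ne'
  have rX : r ∉ X := fun h' => Set.disjoint_left.1 x.dj x.rC h'
  obtain ⟨M, hM⟩ : ∃ M : Set V, M = (({a, p, z, r, b} : Set V) ∪ {v, s, t})ᶜ := ⟨_, rfl⟩
  have memM : ∀ y, y ∈ M ↔ (y ≠ a ∧ y ≠ p ∧ y ≠ z ∧ y ≠ r ∧ y ≠ b) ∧ y ≠ v ∧ y ≠ s ∧ y ≠ t := by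
    intro y
    rw [hM]
    simp only [Set.mem_compl_iff, Set.mem_union, Set.mem_insert_iff, Set.mem_singleton_iff, not_or]
  have qM : q ∈ M := (memM q).2
    ⟨⟨hqa, h.pq.ne', k.R.qz.ne, k.R.qr.ne, h.bq.ne'⟩, hqv, h.qs, h.qt⟩
  have rM : r' ∈ M := (memM r').2
    ⟨⟨k.dr'.1, k.dr'.2.1, k.zr'.ne', k.R.rr.symm, k.dr'.2.2.1⟩, k.dr'.2.2.2⟩
  have CM : ∀ y ∈ C, y ≠ r → y ∈ M := by
    intro y hy hyr
    refine (memM y).2 ⟨⟨?_, ?_, ?_, hyr, ?_⟩, ?_, ?_, ?_⟩
    · rintro rfl; exact aC hy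
    · rintro rfl; exact pC hy
    · rintro rfl; exact zC hy
    · rintro rfl; exact bC hy
    · rintro rfl; exact vC hy
    · rintro rfl; exact sC hy
    · rintro rfl; exact tC hy
  have XM : X ⊆ M := by
    intro y hy
    refine (memM y).2 ⟨⟨?_, ?_, ?_, ?_, ?_⟩, ?_, ?_, ?_⟩
    · rintro rfl; exact aX hy
    · rintro rfl; exact pX hy
    · rintro rfl; exact zX hy
    · rintro rfl; exact rX hy
    · rintro rfl; exact bX hy
    · rintro rfl; exact vX hy
    · rintro rfl; exact sX hy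
    · rintro rfl; exact tX hy
  obtain ⟨K, hKM, hqK, hKc, hKcl⟩ := exists_comp G M q qM
  have rK : r' ∈ K := by
    by_contra hrK
    exact hKcl r' hrK ⟨q, hqK, k.R.qr'.symm⟩ rM
  have DM : D ⊆ M := fun y hy => CM y (hD hy).1 (hD hy).2
  have DK : D ⊆ K := sub_comp86 hKcl cD DM rD rK
  have XK : X ⊆ K := by
    obtain ⟨y, hy, u, hu, hyu⟩ := XD
    refine sub_comp86 hKcl x.cX XM hy ?_
    by_contra hyK
    exact hKcl y hyK ⟨u, DK hu, hyu⟩ (XM hy)
  by_cases hall : M ⊆ K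
  · -- the complement of the route is connected
    have hMK : K = M := Set.Subset.antisymm hKM hall
    rw [hMK, hM] at hKc
    by_cases hst : (∃ x ∈ ((({a, p, z, r, b} : Set V) ∪ {v, s, t})ᶜ), G.Adj s x) ∧
        ∃ x ∈ ((({a, p, z, r, b} : Set V) ∪ {v, s, t})ᶜ), G.Adj t x
    · exact Or.inl (whole6 h k hKc hst.1 hst.2)
    · exact Or.inr (kill7 hG h hst)
  · left
    rw [Set.not_subset] at hall
    obtain ⟨u, huM, huK⟩ := hall
    obtain ⟨U, hUM, huU, hUc, hUcl⟩ := exists_comp G M u huM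
    have UK : ∀ w ∈ U, w ∉ K := fun w hw hwK => huK (sub_comp86 hKcl hUc hUM hw hwK huU)
    have UC : ∀ w ∈ U, w ∈ C := by
      intro w hw
      obtain ⟨⟨h1, h2, h3, h4, h5⟩, h6, h7, h8⟩ := (memM w).1 (hUM hw)
      rcases x.all w with e | e | e | e | e | e | e | e | e | e
      · exact e
      · exact absurd (XK e) (UK w hw)
      · exact absurd e h1
      · exact absurd e h5
      · exact absurd e h6
      · exact absurd e h7
      · exact absurd e h8
      · exact absurd e h2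
      · exact absurd hqK (e ▸ UK w hw)
      · exact absurd e h3
    have aU : a ∉ U := fun h' => ((memM _).1 (hUM h')).1.1 rfl
    have rU : r ∉ U := fun h' => ((memM _).1 (hUM h')).1.2.2.2.1 rfl
    have bU : b ∉ U := fun h' => ((memM _).1 (hUM h')).1.2.2.2.2 rfl
    have vU : v ∉ U := fun h' => ((memM _).1 (hUM h')).2.1 rfl
    have sU : s ∉ U := fun h' => ((memM _).1 (hUM h')).2.2.1 rfl
    have tU : t ∉ U := fun h' => ((memM _).1 (hUM h')).2.2.2 rfl
    have hvU : ∀ y ∈ U, ¬ G.Adj v y := by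
      intro y hy hvy
      rcases h.nv y hvy with rfl | rfl | rfl | rfl | rfl | rfl
      · exact sU hy
      · exact tU hy
      · exact aU hy
      · exact bU hy
      · exact pC (UC _ hy)
      · exact qC (UC _ hy)
    have hnb : ∀ y, y ∉ U → (∃ w ∈ U, G.Adj y w) →
        y = a ∨ y = z ∨ y = r ∨ y = b ∨ y = s ∨ y = t := by
      intro y hy hw
      by_contra hno
      push Not at hno
      refine hUcl y hy hw ((memM y).2 ⟨⟨hno.1, ?_, hno.2.1, hno.2.2.1, hno.2.2.2.1⟩, ?_,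
        hno.2.2.2.2.1, hno.2.2.2.2.2⟩)
      · rintro rfl
        obtain ⟨w, hw, hyw⟩ := hw
        exact x.pC w (UC w hw) hyw
      · rintro rfl
        obtain ⟨w, hw, hyw⟩ := hw
        exact hvU w hw hyw
    have h6 := Pool.Agent.LI4.nbhd6 hG U ⟨u, huU⟩ v vU hvU
    have hUa : ∃ w ∈ U, G.Adj a w := by
      by_contra hc
      refine ncard_five' (x₁ := z) (x₂ := r) (x₃ := b) (x₄ := s) (x₅ := t) h6 ?_
      rintro y ⟨hy, w, hw, hyw⟩
      rcases hnb y hy ⟨w, hw, hyw⟩ with e | e | e | e | e | e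
      · exact absurd ⟨w, hw, e ▸ hyw⟩ hc
      all_goals simp [e]
    have hUr : ∃ w ∈ U, G.Adj r w := by
      by_contra hc
      refine ncard_five' (x₁ := a) (x₂ := z) (x₃ := b) (x₄ := s) (x₅ := t) h6 ?_
      rintro y ⟨hy, w, hw, hyw⟩
      rcases hnb y hy ⟨w, hw, hyw⟩ with e | e | e | e | e | e
      · simp [e]
      · simp [e]
      · exact absurd ⟨w, hw, e ▸ hyw⟩ hc
      all_goals simp [e]
    have hUs : ∃ w ∈ U, G.Adj s w := by
      by_contra hc
      refine ncard_five' (x₁ := a) (x₂ := z) (x₃ := r) (x₄ := b) (x₅ := t) h6 ?_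
      rintro y ⟨hy, w, hw, hyw⟩
      rcases hnb y hy ⟨w, hw, hyw⟩ with e | e | e | e | e | e
      · simp [e]
      · simp [e]
      · simp [e]
      · simp [e]
      · exact absurd ⟨w, hw, e ▸ hyw⟩ hc
      · simp [e]
    have hUt : ∃ w ∈ U, G.Adj t w := by
      by_contra hc
      refine ncard_five' (x₁ := a) (x₂ := z) (x₃ := r) (x₄ := b) (x₅ := s) h6 ?_
      rintro y ⟨hy, w, hw, hyw⟩
      rcases hnb y hy ⟨w, hw, hyw⟩ with e | e | e | e | e | e
      · simp [e]
      · simp [e]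
      · simp [e]
      · simp [e]
      · simp [e]
      · exact absurd ⟨w, hw, e ▸ hyw⟩ hc
    have cXD : Cn G (X ∪ D) := by
      obtain ⟨y, hy, w, hw, hyw⟩ := XD
      exact x.cX.union cD ⟨y, hy, w, hw, hyw⟩
    have cA : Cn G (insert a (X ∪ D)) := by
      obtain ⟨y, hy, hay⟩ := x.aX
      exact Cn.insert cXD ⟨y, Or.inl hy, hay⟩
    have cB : Cn G (insert q (insert r U)) :=
      Cn.insert (Cn.insert hUc hUr) ⟨r, Or.inl rfl, k.R.qr⟩
    refine six_q h (X := insert a (X ∪ D)) (C := insert q (insert r U)) cA (Or.inl rfl)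
      ⟨r', Or.inr (Or.inr rD), hrb.symm⟩ ?_ cB (Or.inl rfl) ?_ ?_ ?_ ?_ ?_
    · refine ⟨?_, ?_, ?_, ?_⟩
      · rintro (e | e | e)
        · exact h.ab e.symm
        · exact bX e
        · exact bC (hD e).1
      · rintro (e | e | e)
        · exact h.av.ne e.symm
        · exact vX e
        · exact vC (hD e).1
      · rintro (e | e | e)
        · exact h.as.ne e.symm
        · exact sX e
        · exact sC (hD e).1
      · rintro (e | e | e)
        · exact h.at'.ne e.symm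
        · exact tX e
        · exact tC (hD e).1
    · refine ⟨?_, ?_, ?_, ?_⟩
      · rintro (e | e | e)
        · exact h.bq.ne e
        · exact k.dr.2.2.1 e.symm
        · exact bU e
      · rintro (e | e | e)
        · exact hqv e.symm
        · exact k.dr.2.2.2.1 e.symm
        · exact vU e
      · rintro (e | e | e)
        · exact h.qs e.symm
        · exact k.dr.2.2.2.2.1 e.symm
        · exact sU e
      · rintro (e | e | e)
        · exact h.qt e.symm
        · exact k.dr.2.2.2.2.2 e.symm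
        · exact tU e
    · rw [Set.disjoint_left]
      rintro y (e | e | e) (f | f | f)
      · exact hqa (f.symm.trans e)
      · exact k.dr.1 (f.symm.trans e)
      · exact aU (e ▸ f)
      · exact qX (f ▸ e)
      · exact rX (f ▸ e)
      · exact UK y f (XK e)
      · exact qC (f ▸ (hD e).1)
      · exact (hD e).2 f
      · exact UK y f (DK e)
    · obtain ⟨w, hw, hsw⟩ := hUs
      exact ⟨w, Or.inr (Or.inr hw), hsw⟩
    · obtain ⟨w, hw, htw⟩ := hUt
      exact ⟨w, Or.inr (Or.inr hw), htw⟩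
    · obtain ⟨w, hw, haw⟩ := hUa
      exact ⟨a, Or.inl rfl, w, Or.inr (Or.inr hw), haw⟩

end Pool.Agent.LI7
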