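import Pool.Agent.LI7.Struct

/-!
LI7: the proof of `xs_end` from `dside` (helper98).
-/

set_option autoImplicit false

namespace Pool.Agent.LI7

open Pool.Agent.LG6 Pool.Agent.LR5 Pool.Agent.LI5 Pool.Agent.LI6

variable {V : Type} {G : SimpleGraph V}

theorem xs_kill98 [Fintype V] (hG : IsKConnected 6 G) {a b v s t p q z r r' : V}
    (h : Cg6 G a b v s t p q) (k : Rr G a b v s t p q z r r') {y : V}
    (hy : Kill G a b v s t z r y) : HasCompleteMinor 6 G := by
  have hn : ∀ U, Comp G a b v s t p z r' U → q ∉ U →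
      ¬ ((∃ x ∈ U, G.Adj s x) ∧ ∃ x ∈ U, G.Adj t x) := by
    rintro U hU hq ⟨hs, ht⟩
    obtain ⟨hst, _, _, hy4⟩ := hy
    have hw : ∃ w ∈ U, G.Adj y w := by
      rcases hst with e | e
      · rw [e]; exact hs
      · rw [e]; exact ht
    obtain ⟨w, hwU, hyw⟩ := hw
    have hwn := hU.sub hwU
    have hwr : w = r := by
      rcases hy4 w hyw with e | e | e | e | e | e | e
      · exact absurd (Or.inl (by simp [e])) hwn
      · exact absurd (Or.inl (by simp [e])) hwn
      · exact absurd (Or.inr (by simp [e])) hwn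
      · exact absurd (Or.inr (by simp [e])) hwn
      · exact absurd (Or.inr (by simp [e])) hwn
      · exact absurd (Or.inl (by simp [e])) hwn
      · exact e
    have hqc := hU.cl q hq ⟨w, hwU, hwr ▸ k.R.qr⟩
    have hqa : q ≠ a := fun e => h.nab (e ▸ h.bq).symm
    rcases hqc with hc | hc
    · simp only [Set.mem_insert_iff, Set.mem_singleton_iff] at hc
      rcases hc with e | e | e | e | e
      · exact hqa e
      · exact h.pq.ne e.symm
      · exact k.R.qz.ne e
      · exact k.R.qr'.ne e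
      · exact h.bq.ne e.symm
    · simp only [Set.mem_insert_iff, Set.mem_singleton_iff] at hc
      rcases hc with e | e | e
      · exact h.vq.ne e.symm
      · exact h.qs e
      · exact h.qt e
  rcases route_out hG h k.swap hn with ho | ho
  · exact ho
  · exact combo hG h k (Or.inl ⟨y, hy⟩) ho

/-- `dside` for one side gives `xs_end` -/
theorem xs_end98 [Fintype V] (hG : IsKConnected 6 G) {a b v s t p q z : V}
    (h : Cg6 G a b v s t p q)
    (hds : ∀ (r r' : V) (C X D : Set V), Rr G a b v s t p q z r r' → G.Adj r' b →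
      Xs G a b v s t p q z r r' C X → D ⊆ C \ {r} → Cn G D → r' ∈ D →
      (∀ y, y ∉ D → (∃ u ∈ D, G.Adj y u) → y ∉ C \ {r}) →
      (∃ y ∈ X, ∃ u ∈ D, G.Adj y u) →
      HasCompleteMinor 6 G ∨ ∃ y, Kill G a b v s t z r y)
    {r r' : V} {C X : Set V} (k : Rr G a b v s t p q z r r') (hrb : G.Adj r b)
    (hrb' : G.Adj r' b) (x : Xs G a b v s t p q z r r' C X) : HasCompleteMinor 6 G := by
  -- one side
  have one : ∀ (r r' : V) (D : Set V), Rr G a b v s t p q z r r' → G.Adj r' b →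
      Xs G a b v s t p q z r r' C X → D ⊆ C \ {r} → Cn G D → r' ∈ D →
      (∀ g ∈ D, ∀ h ∈ C \ {r}, G.Adj g h → h ∈ D) → (∃ y ∈ X, ∃ u ∈ D, G.Adj y u) →
      HasCompleteMinor 6 G := by
    intro r r' D k hrb x hD cD rD clD XD
    rcases hds r r' C X D k hrb x hD cD rD
      (fun y hy hu hyC => by
        obtain ⟨u, hu, hyu⟩ := hu
        exact hy (clD u hu y hyC hyu.symm)) XD with h1 | ⟨y, hy⟩
    · exact h1
    · exact xs_kill98 hG h k hy
  have hr' : r' ∈ C \ {r} := ⟨x.rC', fun e => k.R.rr (Set.mem_singleton_iff.1 e).symm⟩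
  have hr : r ∈ C \ {r'} := ⟨x.rC, fun e => k.R.rr (Set.mem_singleton_iff.1 e)⟩
  obtain ⟨D, hD, rD, cD, clD⟩ := LG6.comp G (C \ {r}) r' hr'
  obtain ⟨D', hD', rD', cD', clD'⟩ := LG6.comp G (C \ {r'}) r hr
  have hall : ∀ y ∈ C, y ∈ D ∪ D' := by
    intro y hy
    by_contra hyD
    obtain ⟨g, w, hgC, hwC, hgw, hgP, hwP⟩ := Cn.exit x.cC (P := D ∪ D')
      ⟨r, x.rC, Or.inr rD'⟩ ⟨y, hy, hyD⟩
    rcases hgP with hg | hg
    · refine hwP (Or.inl (clD g hg w ⟨hwC, fun e => hwP (Or.inr ?_)⟩ hgw))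
      rw [Set.mem_singleton_iff.1 e]
      exact rD'
    · refine hwP (Or.inr (clD' g hg w ⟨hwC, fun e => hwP (Or.inl ?_)⟩ hgw))
      rw [Set.mem_singleton_iff.1 e]
      exact rD
  obtain ⟨y, hy, w, hw, hyw⟩ := x.XC
  have xs : Xs G a b v s t p q z r' r C X :=
    ⟨x.cC, x.cX, x.nC, x.nX, x.dj, x.rC', x.rC, x.aX, x.XC, x.pC, x.all⟩
  rcases hall w hw with hwD | hwD
  · exact one r r' D k hrb' x hD cD rD clD ⟨y, hy, w, hwD, hyw⟩
  · exact one r' r D' k.swap hrb xs hD' cD' rD' clD' ⟨y, hy, w, hwD, hyw⟩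

end Pool.Agent.LI7
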