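import Pool.Agent.LI7.Struct
import Pool.Agent.LI7.XsEnd98
import Pool.Agent.LI7.DSideS86

/-!
LI7, case 3, normal: the end.

`dside`: `D` is the component of `r'` in `C \ {r}`, adjacent to `X`.  Let `M` be the complement of
`{a, p, z, r, b} ∪ {v, s, t}` and `K` the component of `q` in `M`; `r' ∈ K`, `D ⊆ K`, `X ⊆ K`.  If there is
`u ∈ M \ K`, let `U` be its component: `U ⊆ C \ {r}` (by `all`), disjoint from `D`.  A vertex `w ∉ U` adjacent to
`U` is in `{a, p, z, r, b} ∪ {v, s, t}`; `w ≠ p` (`pC`), `w ≠ v` (`h.nv`); so by `nbhd6` (with `q`, which is adjacent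
to none of `C` except `r, r'`; or with `v`) all of `a, z, r, b, s, t` are adjacent to `U`.  `six_q` with the sets
`{a} ∪ X ∪ D` (`b ~ r' ∈ D`) and `U ∪ {r, q}` (`q ~ r ~ U`; `a ~ U`).  If `K = M`: `whole6` or `kill7`.

`xs_end`: `C` is the union of `D` (component of `r'` in `C \ {r}`) and `D'` (component of `r` in `C \ {r'}`):
otherwise by `Cn.exit` for `C` there is an edge from `D ∪ D'` to a vertex `y ∈ C` outside, `y ≠ r, r'`, so `y`
is in `D` or `D'`.  So `X` is adjacent to `D` or to `D'`.  By symmetry (`k.swap`) let it be adjacent to `D`.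
`dside`: `K₆` or `Kill` for `r` with some `x`.  No component of the complement of the second route without
`q` is adjacent to `x` (`x` has only the neighbours `a, b, v, s, t, z, r`, and `r` is in the component of `q`),
so `route_out hG h k.swap` and `combo`.  (The case that `X` is adjacent to both needs no extra treatment.)
-/

set_option autoImplicit false

namespace Pool.Agent.LI7

open Pool.Agent.LG6 Pool.Agent.LR5 Pool.Agent.LI5 Pool.Agent.LI6

variable {V : Type} {G : SimpleGraph V}

theorem Xs.swap {a b v s t p q z r r' : V} {C X : Set V} (x : Xs G a b v s t p q z r r' C X) :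
    Xs G a b v s t p q z r' r C X :=
  ⟨x.cC, x.cX, x.nC, x.nX, x.dj, x.rC', x.rC, x.aX, x.XC, x.pC, x.all⟩

theorem dside [Fintype V] (hG : IsKConnected 6 G) {a b v s t p q z r r' : V} {C X : Set V}
    (h : Cg6 G a b v s t p q) (k : Rr G a b v s t p q z r r') (hrb : G.Adj r' b)
    (x : Xs G a b v s t p q z r r' C X) {D : Set V} (hD : D ⊆ C \ {r}) (cD : Cn G D)
    (rD : r' ∈ D) (clD : ∀ y, y ∉ D → (∃ u ∈ D, G.Adj y u) → y ∉ C \ {r})
    (XD : ∃ y ∈ X, ∃ u ∈ D, G.Adj y u) :
    HasCompleteMinor 6 G ∨ ∃ y, Kill G a b v s t z r y :=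
  dside86 hG h k hrb x hD cD rD XD

theorem xs_end [Fintype V] (hG : IsKConnected 6 G) {a b v s t p q z r r' : V} {C X : Set V}
    (h : Cg6 G a b v s t p q) (k : Rr G a b v s t p q z r r') (hrb : G.Adj r b)
    (hrb' : G.Adj r' b) (x : Xs G a b v s t p q z r r' C X) : HasCompleteMinor 6 G :=
  xs_end98 hG h (fun _ _ _ _ _ k hrb x hD cD rD clD XD =>
    dside hG h k hrb x hD cD rD clD XD) k hrb hrb' x

end Pool.Agent.LI7
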