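import Pool.Agent.LI7.ConnRest

/-!
LI7/ExtraS84: proof of `extra6`.
-/

set_option autoImplicit false

namespace Pool.Agent.LI7

open Pool.Agent.LG6 Pool.Agent.LR5 Pool.Agent.LI5 Pool.Agent.LI6

variable {V : Type} {G : SimpleGraph V}

theorem extra6S84 [Fintype V] (hG : IsKConnected 6 G) {a b v s t p q z r r' : V}
    (h : Cg6 G a b v s t p q) (k : Rr G a b v s t p q z r r') (A : Set V)
    (hA0 : ∀ w ∈ A, w ≠ a ∧ w ≠ b ∧ w ≠ v ∧ w ≠ s ∧ w ≠ t)
    (hA : ∀ w, w ∉ A → (∃ u ∈ A, G.Adj w u) →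
      w ∈ ({a, b, p, z, r, r'} : Set V) ∪ {v, s, t})
    (hs : ∀ w, G.Adj s w → w ∈ ({a, b, v, t, z, r, r'} : Set V) ∪ A)
    (ht : ∀ w, G.Adj t w → w ∈ ({a, b, v, s, z, r, r'} : Set V) ∪ A)
    (s1 : ∃ w ∈ ({z, r, r'} : Set V) ∪ A, G.Adj s w)
    (t1 : ∃ w ∈ ({z, r, r'} : Set V) ∪ A, G.Adj t w) {u₀ : V}
    (hu : u₀ ∉ ({a, b, v, s, t, p, z, r, r', q} : Set V) ∪ A) : HasCompleteMinor 6 G := by
  classical
  obtain ⟨Z, hZM, huZ, hZc, hZcl⟩ :=
    exists_comp G ((({a, b, v, s, t, p, z, r, r', q} : Set V) ∪ A)ᶜ) u₀ hu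
  have hn : ∀ x ∈ Z, x ∉ ({a, b, v, s, t, p, z, r, r', q} : Set V) := fun x hx hx' =>
    hZM hx (Or.inl hx')
  have hnA : ∀ x ∈ Z, x ∉ A := fun x hx hx' => hZM hx (Or.inr hx')
  have hw : ∀ w, w ∉ Z → (∃ x ∈ Z, G.Adj w x) → w ∈ ({a, b, p, z, r, r'} : Set V) := by
    rintro w hwZ ⟨x, hx, hwx⟩
    have h1 : w ∈ ({a, b, v, s, t, p, z, r, r', q} : Set V) ∪ A := by
      by_contra hc
      exact hZcl w hwZ ⟨x, hx, hwx⟩ hc
    have hxn := hn x hx
    have hxA := hnA x hx
    simp only [Set.mem_insert_iff, Set.mem_singleton_iff, not_or] at hxn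
    obtain ⟨xa, xb, xv, xs, xt, xp, xz, xr, xr', xq⟩ := hxn
    rcases h1 with (e | e | e | e | e | e | e | e | e | e) | e
    · simp [e]
    · simp [e]
    · subst e
      rcases h.nv x hwx with e | e | e | e | e | e
      · exact absurd e xs
      · exact absurd e xt
      · exact absurd e xa
      · exact absurd e xb
      · exact absurd e xp
      · exact absurd e xq
    · subst e
      rcases hs x hwx with (e | e | e | e | e | e | e) | e
      · exact absurd e xa
      · exact absurd e xb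
      · exact absurd e xv
      · exact absurd e xt
      · exact absurd e xz
      · exact absurd e xr
      · exact absurd e xr'
      · exact absurd e hxA
    · subst e
      rcases ht x hwx with (e | e | e | e | e | e | e) | e
      · exact absurd e xa
      · exact absurd e xb
      · exact absurd e xv
      · exact absurd e xs
      · exact absurd e xz
      · exact absurd e xr
      · exact absurd e xr'
      · exact absurd e hxA
    · simp [e]
    · simp [e]
    · simp [e]
    · simp [e]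
    · replace e : w = q := e
      subst e
      rcases k.nq x hwx with e | e | e | e | e | e
      · exact absurd e xv
      · exact absurd e xp
      · exact absurd e xb
      · exact absurd e xz
      · exact absurd e xr
      · exact absurd e xr'
    · rcases hA x hxA ⟨w, e, hwx.symm⟩ with (e | e | e | e | e | e) | (e | e | e)
      · exact absurd e xa
      · exact absurd e xb
      · exact absurd e xp
      · exact absurd e xz
      · exact absurd e xr
      · exact absurd e xr'
      · exact absurd e xv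
      · exact absurd e xs
      · exact absurd e xt
  have hqZ : q ∉ Z := fun hc => hn q hc (by simp)
  have hqa : ∀ y ∈ Z, ¬ G.Adj q y := by
    intro y hy hqy
    have hyn := hn y hy
    simp only [Set.mem_insert_iff, Set.mem_singleton_iff, not_or] at hyn
    obtain ⟨xa, xb, xv, xs, xt, xp, xz, xr, xr', xq⟩ := hyn
    rcases k.nq y hqy with e | e | e | e | e | e
    · exact absurd e xv
    · exact absurd e xp
    · exact absurd e xb
    · exact absurd e xz
    · exact absurd e xr
    · exact absurd e xr'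
  have h6 := LI4.nbhd6 hG Z ⟨u₀, huZ⟩ q hqZ hqa
  have hsub : ({y | y ∉ Z ∧ ∃ u ∈ Z, G.Adj y u} : Set V) ⊆ ({a, b, p, z, r, r'} : Set V) :=
    fun y hy => hw y hy.1 hy.2
  have hcard : ({a, b, p, z, r, r'} : Set V).ncard ≤ 6 := by
    have e1 := Set.ncard_insert_le a ({b, p, z, r, r'} : Set V)
    have e2 := Set.ncard_insert_le b ({p, z, r, r'} : Set V)
    have e3 := Set.ncard_insert_le p ({z, r, r'} : Set V)
    have e4 := Set.ncard_insert_le z ({r, r'} : Set V)
    have e5 := Set.ncard_insert_le r ({r'} : Set V)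
    rw [Set.ncard_singleton] at e5
    omega
  have heq := Set.eq_of_subset_of_ncard_le hsub (hcard.trans h6) (Set.toFinite _)
  have ha : a ∈ ({y | y ∉ Z ∧ ∃ u ∈ Z, G.Adj y u} : Set V) := by
    rw [heq]
    simp
  have hb : b ∈ ({y | y ∉ Z ∧ ∃ u ∈ Z, G.Adj y u} : Set V) := by
    rw [heq]
    simp
  have hB : ∀ w, w ∉ Z ∪ {a, b, v, s, t} → (∃ u ∈ Z, G.Adj w u) →
      w = p ∨ w = z ∨ w = r ∨ w = r' := by
    intro w hwn hwu
    have h1 := hw w (fun hc => hwn (Or.inl hc)) hwu
    rcases h1 with e | e | e | e | e | e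
    · exact absurd (Or.inr (by simp [e])) hwn
    · exact absurd (Or.inr (by simp [e])) hwn
    · exact Or.inl e
    · exact Or.inr (Or.inl e)
    · exact Or.inr (Or.inr (Or.inl e))
    · exact Or.inr (Or.inr (Or.inr e))
  have hout : ∀ w ∈ ({z, r, r'} : Set V) ∪ A, w ∉ Z ∪ {a, b, v, s, t} := by
    rintro w hwm (hwZ | hw5)
    · rcases hwm with (e | e | e) | e
      · exact hn w hwZ (by simp [e])
      · exact hn w hwZ (by simp [e])
      · replace e : w = r' := e
        exact hn w hwZ (by simp [e])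
      · exact hnA w hwZ e
    · have key : w ≠ a ∧ w ≠ b ∧ w ≠ v ∧ w ≠ s ∧ w ≠ t := by
        rcases hwm with (e | e | e) | e
        · subst e
          exact ⟨k.dz.1, k.dz.2.2.1, k.dz.2.2.2.1, k.dz.2.2.2.2.1, k.dz.2.2.2.2.2⟩
        · subst e
          exact ⟨k.dr.1, k.dr.2.2.1, k.dr.2.2.2.1, k.dr.2.2.2.2.1, k.dr.2.2.2.2.2⟩
        · replace e : w = r' := e
          subst e
          exact ⟨k.dr'.1, k.dr'.2.2.1, k.dr'.2.2.2.1, k.dr'.2.2.2.2.1, k.dr'.2.2.2.2.2⟩
        · exact hA0 w e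
      rcases hw5 with e | e | e | e | e
      · exact key.1 e
      · exact key.2.1 e
      · exact key.2.2.1 e
      · exact key.2.2.2.1 e
      · exact key.2.2.2.2 e
  obtain ⟨ws, hws, hsw⟩ := s1
  obtain ⟨wt, hwt, htw⟩ := t1
  exact rest6 h hZc ⟨fun hc => hn a hc (by simp), fun hc => hn b hc (by simp),
    fun hc => hn v hc (by simp), fun hc => hn s hc (by simp), fun hc => hn t hc (by simp),
    fun hc => hn p hc (by simp), hqZ⟩ ha.2 hb.2 (conn_rest hG h k hqZ hB)
    ⟨ws, hout ws hws, hsw⟩ ⟨wt, hout wt hwt, htw⟩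

end Pool.Agent.LI7
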