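import Pool.Agent.LI7.ConnRest
import Pool.Agent.LI7.ExtraS84

/-!
LI7: a vertex `u₀` outside `{a, b, v, s, t, p, z, r, r', q} ∪ A` gives a `K₆` model.

Proof.  Let `Z` be the component of `u₀` in the complement of `{a, b, v, s, t, p, z, r, r', q} ∪ A`.  A vertex
`w ∉ Z` adjacent to `Z` is in `{a, b, v, s, t, p, z, r, r', q} ∪ A`; not in `A` (`hA`), not `q` (`k.nq`), not `v`
(`h.nv`), not `s`, `t` (`hs`, `ht`).  So it is one of `a, b, p, z, r, r'`, and by `LI4.nbhd6` (with `q`) all six are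
adjacent to `Z`.  `conn_rest` and `rest6` (`sC`, `tC` from `s1`, `t1`: these vertices are not in `Z`, and not
in `{a, b, v, s, t}`).
-/

set_option autoImplicit false

namespace Pool.Agent.LI7

open Pool.Agent.LG6 Pool.Agent.LR5 Pool.Agent.LI5 Pool.Agent.LI6

variable {V : Type} {G : SimpleGraph V}

theorem extra6 [Fintype V] (hG : IsKConnected 6 G) {a b v s t p q z r r' : V}
    (h : Cg6 G a b v s t p q) (k : Rr G a b v s t p q z r r') (A : Set V)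
    (hA0 : ∀ w ∈ A, w ≠ a ∧ w ≠ b ∧ w ≠ v ∧ w ≠ s ∧ w ≠ t)
    (hA : ∀ w, w ∉ A → (∃ u ∈ A, G.Adj w u) →
      w ∈ ({a, b, p, z, r, r'} : Set V) ∪ {v, s, t})
    (hs : ∀ w, G.Adj s w → w ∈ ({a, b, v, t, z, r, r'} : Set V) ∪ A)
    (ht : ∀ w, G.Adj t w → w ∈ ({a, b, v, s, z, r, r'} : Set V) ∪ A)
    (s1 : ∃ w ∈ ({z, r, r'} : Set V) ∪ A, G.Adj s w)
    (t1 : ∃ w ∈ ({z, r, r'} : Set V) ∪ A, G.Adj t w) {u₀ : V}
    (hu : u₀ ∉ ({a, b, v, s, t, p, z, r, r', q} : Set V) ∪ A) : HasCompleteMinor 6 G :=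
  extra6S84 hG h k A hA0 hA hs ht s1 t1 hu

end Pool.Agent.LI7
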