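import Pool.Agent.LI7.Main

/-!
LI7: a vertex that is the centre of no claw has at most two neighbours that are centres of no claws.
-/

set_option autoImplicit false

namespace Pool.Agent.LI7

open Pool.Agent.LG6 Pool.Agent.LR5 Pool.Agent.LD6 Pool.Agent.LI4 Pool.Agent.LI5 Pool.Agent.LI6

variable {V : Type} {G : SimpleGraph V}

theorem rr_nm {v s t a b a' b' c m m' : V} (Ab' : At G b') (h : T2 G v s t a b a' b')
    (l : T2 G b' m m' b c v a') : Rr G a b v s t a' b' c m m' := by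
  have cs : c ≠ s := fun e => h.nsb (e ▸ l.vb.symm)
  have ct : c ≠ t := fun e => h.ntb (e ▸ l.vb.symm)
  have ca : c ≠ a := fun e => h.nab' (e ▸ l.vb.symm)
  have key : ∀ {m m'}, T2 G b' m m' b c v a' →
      (m ≠ a ∧ m ≠ a' ∧ m ≠ b ∧ m ≠ v ∧ m ≠ s ∧ m ≠ t) := by
    intro m m' l
    exact ⟨fun e => h.nab' (e ▸ l.vs.symm), l.ne.2.1, l.sa.ne, l.ne.1,
      fun e => h.nsb (e ▸ l.vs.symm), fun e => h.ntb (e ▸ l.vs.symm)⟩
  have adm : ∀ {m m'}, T2 G b' m m' b c v a' → Ad5 G a b v s t a' b' {a, a', c, m, b} := by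
    intro m m' l
    obtain ⟨m1, m2, m3, m4, m5, m6⟩ := key l
    exact ad5_of (path_zr h.aa' l.bb'.symm l.sb.symm l.sa)
      ⟨h.va.ne', h.sa.ne', h.ta.ne', h.ne.2.2.2.2.2.1⟩
      ⟨h.va'.ne', h.ne.1.symm, h.ne.2.2.1.symm, h.ab'.ne⟩
      ⟨l.ne.2.2.2.2.2.2, cs, ct, l.vb.ne'⟩ ⟨m4, m5, m6, l.vs.ne'⟩
      ⟨h.vb.ne', h.sb.ne', h.tb.ne', h.bb'.ne⟩
  exact
    { R := ⟨l.vb, l.vs, l.vt, l.st.ne, adm l, adm l.swap⟩
      nq := fun y hy => by
        rcases t2_all Ab' l y hy with e | e | e | e | e | e <;> simp [e]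
      e := l.st
      zr := l.sb.symm
      zr' := l.tb.symm
      alt := Or.inl ⟨l.bb'.symm, l.sa, l.ta, fun e => l.nsb e.symm, fun e => l.ntb e.symm⟩
      dz := ⟨ca, l.bb'.ne, l.ne.2.2.2.2.1.symm, l.ne.2.2.2.2.2.2, cs, ct⟩
      dr := key l
      dr' := key l.swap }

theorem rr_ab {v s t a b a' b' d n n' : V} (Ab' : At G b') (h : T2 G v s t a b a' b')
    (l : T2 G b' n n' a' d v b) : Rr G a b v s t a' b' d n n' := by
  have cs : d ≠ s := fun e => h.nsb (e ▸ l.vb.symm)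
  have ct : d ≠ t := fun e => h.ntb (e ▸ l.vb.symm)
  have ca : d ≠ a := fun e => h.nab' (e ▸ l.vb.symm)
  have key : ∀ {m m'}, T2 G b' m m' a' d v b →
      (m ≠ a ∧ m ≠ a' ∧ m ≠ b ∧ m ≠ v ∧ m ≠ s ∧ m ≠ t) := by
    intro m m' l
    exact ⟨fun e => h.nab' (e ▸ l.vs.symm), l.sa.ne, l.ne.2.1, l.ne.1,
      fun e => h.nsb (e ▸ l.vs.symm), fun e => h.ntb (e ▸ l.vs.symm)⟩
  have adm : ∀ {m m'}, T2 G b' m m' a' d v b → Ad5 G a b v s t a' b' {a, a', d, m, b} := by
    intro m m' l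
    obtain ⟨m1, m2, m3, m4, m5, m6⟩ := key l
    exact ad5_of (path_rz h.aa' l.sa.symm l.sb l.bb')
      ⟨h.va.ne', h.sa.ne', h.ta.ne', h.ne.2.2.2.2.2.1⟩
      ⟨h.va'.ne', h.ne.1.symm, h.ne.2.2.1.symm, h.ab'.ne⟩
      ⟨l.ne.2.2.2.2.2.2, cs, ct, l.vb.ne'⟩ ⟨m4, m5, m6, l.vs.ne'⟩
      ⟨h.vb.ne', h.sb.ne', h.tb.ne', h.bb'.ne⟩
  exact
    { R := ⟨l.vb, l.vs, l.vt, l.st.ne, adm l, adm l.swap⟩
      nq := fun y hy => by
        rcases t2_all Ab' l y hy with e | e | e | e | e | e <;> simp [e]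
      e := l.st
      zr := l.sb.symm
      zr' := l.tb.symm
      alt := Or.inr ⟨l.sa.symm, l.ta.symm, l.bb', fun e => l.nsb e.symm, fun e => l.ntb e.symm⟩
      dz := ⟨ca, l.ne.2.2.2.2.1.symm, l.bb'.ne, l.ne.2.2.2.2.2.2, cs, ct⟩
      dr := key l
      dr' := key l.swap }

/-- `b'` is the centre of a claw -/
theorem b_claw [Fintype V] (hG : IsKConnected 6 G) (hm : ¬ HasCompleteMinor 6 G)
    (hA : ¬ ∃ p, NoMin G {p}) {v s t a b a' b' : V} (hv : NC G v) (h : T2 G v s t a b a' b') :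
    ¬ NC G b' := by
  classical
  intro nb'
  have Av := At.mk' hG hm hv
  have Ab' := At.mk' hG hm nb'
  have cb : ∀ y, G.Adj v y → G.Adj b' y → y = b ∨ y = a' := by
    intro y hy hy'
    rcases t2_all Av h y hy with e | e | e | e | e | e
    · exact absurd (e ▸ hy'.symm) h.nsb
    · exact absurd (e ▸ hy'.symm) h.ntb
    · exact absurd (e ▸ hy'.symm) h.nab'
    · exact Or.inl e
    · exact Or.inr e
    · exact absurd e hy'.ne'
  have t2 : ∃ s t a b x y, T2 G b' s t a b x y := by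
    refine ty_two hG hm hA nb' h.vb'.symm ?_
    intro y z h1 h2 h3 h4 hyz
    rcases cb y h3 h1 with rfl | rfl <;> rcases cb z h4 h2 with rfl | rfl
    · exact hyz.ne rfl
    · exact h.nba' hyz
    · exact h.nba' hyz.symm
    · exact hyz.ne rfl
  obtain ⟨_, _, _, _, _, _, h2⟩ := t2
  have g := cg6_of Av h
  rcases role_p Av Ab' h.rev h2 with ⟨m, m', c, l⟩ | ⟨n, n', d, l⟩
  · exact hm (rr_six hG g (rr_nm Ab' h l))
  · exact hm (rr_six hG g (rr_ab Ab' h l))

theorem strong_deg [Fintype V] (hG : IsKConnected 6 G) (hm : ¬ HasCompleteMinor 6 G) {x y : V}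
    (h : Strong G x y) : 14 ≤ dg G x + dg G y := by
  classical
  have h7 : 7 ≤ Fintype.card V := hG.1
  have c1 := count2 h7 x y h.1 (strong_no hG hm h)
  have c3 := es_ge hG {x, y}
  rw [Finset.sum_insert (by simp [h.1.ne]), Finset.sum_singleton,
    Finset.card_insert_of_notMem (by simp [h.1.ne]), Finset.card_singleton] at c3
  omega

theorem nc_deg [Fintype V] (hG : IsKConnected 6 G) (hm : ¬ HasCompleteMinor 6 G) {x : V}
    (h : NC G x) : dg G x = 6 := by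
  classical
  obtain ⟨N, hN, hN'⟩ := (At.mk' hG hm h).nbr
  have e : G.neighborSet x = (N : Set V) := by
    ext y
    rw [SimpleGraph.mem_neighborSet, Finset.mem_coe, hN' y]
  unfold dg
  rw [e, Set.ncard_coe_finset, hN]

/-- three of the neighbours of `v` are centres of no claws -/
def Three (G : SimpleGraph V) (v : V) : Prop :=
  ∃ x y z, G.Adj v x ∧ G.Adj v y ∧ G.Adj v z ∧ x ≠ y ∧ x ≠ z ∧ y ≠ z ∧ NC G x ∧ NC G y ∧ NC G z

theorem qv_three [Fintype V] (hG : IsKConnected 6 G) (hm : ¬ HasCompleteMinor 6 G) {v : V}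
    {A B : Finset V} (q : QV G v A B) (h3 : Three G v) : False := by
  classical
  -- every `NC` neighbour has a cross edge to a vertex that is not `NC`
  have strong : ∀ {A B : Finset V}, QV G v A B → ∀ a ∈ A, ∀ b ∈ B, G.Adj a b → NC G a →
      ¬ NC G b := by
    intro A B q a ha b hb hab na nb
    have hs : Strong G a b := by
      refine ⟨hab, Or.inr ⟨v, (q.nbr a).2 (Or.inl ha), (q.nbr b).2 (Or.inr hb),
        fun u hu hua hub => ?_⟩⟩
      rcases (q.nbr u).1 hu with h | h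
      · exact Or.inl (q.cA a ha u h hua.symm)
      · exact Or.inr (q.cB b hb u h hub.symm)
    have := strong_deg hG hm hs
    rw [nc_deg hG hm na, nc_deg hG hm nb] at this
    omega
  have hx : ∀ x, G.Adj v x → NC G x → (∃ w, x ∈ A ∧ w ∈ B ∧ G.Adj x w ∧ ¬ NC G w) ∨
      ∃ w, x ∈ B ∧ w ∈ A ∧ G.Adj x w ∧ ¬ NC G w := by
    intro x hvx nx
    rcases (q.nbr x).1 hvx with hx | hx
    · obtain ⟨w, hw, hxw⟩ := qv_nc hG hm q hx nx
      exact Or.inl ⟨w, hx, hw, hxw, strong q x hx w hw hxw nx⟩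
    · obtain ⟨w, hw, hxw⟩ := qv_nc hG hm q.swap hx nx
      exact Or.inr ⟨w, hx, hw, hxw, strong q.swap x hx w hw hxw nx⟩
  -- all on one side, with the same `w`
  have side : ∀ {A B : Finset V}, QV G v A B → ∀ x y w w', x ∈ A → w ∈ B → G.Adj x w → y ∈ A →
      w' ∈ B → G.Adj y w' → x ≠ y → w = w' := by
    intro A B q x y w w' hx hw e hy hw' e' hxy
    by_contra hne
    exact qv_disj hG hm q hx hy hw hw' hxy hne e e'
  have opp : ∀ {A B : Finset V}, QV G v A B → ∀ x y w w', x ∈ A → w ∈ B → G.Adj x w → y ∈ B →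
      w' ∈ A → G.Adj y w' → NC G x → NC G y → ¬ NC G w → ¬ NC G w' → False := by
    intro A B q x y w w' hx hw e hy hw' e' nx ny nw nw'
    refine qv_disj hG hm q hx hw' hw hy ?_ ?_ e e'.symm
    · rintro rfl
      exact nw' nx
    · rintro rfl
      exact nw ny
  have fin : ∀ {A B : Finset V}, QV G v A B → ∀ x y z w w' w'', x ∈ A → y ∈ A → z ∈ A → w ∈ B →
      w' ∈ B → w'' ∈ B → G.Adj x w → G.Adj y w' → G.Adj z w'' → x ≠ y → x ≠ z → y ≠ z →
      False := by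
    intro A B q x y z w w' w'' hx hy hz hw hw' hw'' e e' e'' hxy hxz hyz
    have h1 := side q x y w w' hx hw e hy hw' e' hxy
    have h2 := side q x z w w'' hx hw e hz hw'' e'' hxz
    exact five hG hm ((q.nbr _).2 (Or.inr hw)) ((q.nbr _).2 (Or.inl hx))
      ((q.nbr _).2 (Or.inl hy)) ((q.nbr _).2 (Or.inl hz)) e.symm (h1 ▸ e'.symm) (h2 ▸ e''.symm)
      (q.cA _ hx _ hy hxy) (q.cA _ hx _ hz hxz) (q.cA _ hy _ hz hyz)
  obtain ⟨x, y, z, vx, vy, vz, hxy, hxz, hyz, nx, ny, nz⟩ := h3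
  rcases hx x vx nx with ⟨w, x1, w1, e1, n1⟩ | ⟨w, x1, w1, e1, n1⟩ <;>
    rcases hx y vy ny with ⟨w', x2, w2, e2, n2⟩ | ⟨w', x2, w2, e2, n2⟩ <;>
    rcases hx z vz nz with ⟨w'', x3, w3, e3, n3⟩ | ⟨w'', x3, w3, e3, n3⟩
  · exact fin q x y z w w' w'' x1 x2 x3 w1 w2 w3 e1 e2 e3 hxy hxz hyz
  · exact opp q x z w w'' x1 w1 e1 x3 w3 e3 nx nz n1 n3
  · exact opp q x y w w' x1 w1 e1 x2 w2 e2 nx ny n1 n2
  · exact opp q x y w w' x1 w1 e1 x2 w2 e2 nx ny n1 n2
  · exact opp q.swap x y w w' x1 w1 e1 x2 w2 e2 nx ny n1 n2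
  · exact opp q.swap x y w w' x1 w1 e1 x2 w2 e2 nx ny n1 n2
  · exact opp q.swap x z w w'' x1 w1 e1 x3 w3 e3 nx nz n1 n3
  · exact fin q.swap x y z w w' w'' x1 x2 x3 w1 w2 w3 e1 e2 e3 hxy hxz hyz

/-- `t`, `a`, `b` cannot all be `NC` unless `s` is -/
theorem hub_nc' [Fintype V] (hG : IsKConnected 6 G) (hm : ¬ HasCompleteMinor 6 G)
    (hA : ¬ ∃ p, NoMin G {p}) {v s t a b a' b' : V} (nv : NC G v) (h : T2 G v s t a b a' b')
    (nt : NC G t) (na : NC G a) (nb : NC G b) : False := by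
  by_cases ns : NC G s
  · exact a_not_nc hG hm hA nv h ns nt na
  have Av := At.mk' hG hm nv
  have key : ∀ A B : Finset V, QV G t A B → v ∈ A → False := by
    intro A B q hv
    have h1 := qv_hub hG hm Av h q hv na
    have h2 := qv_hub hG hm Av h.rev q hv nb
    exact q.disj a h2.2.1 h1.2.2
  have h2t := (ty_cases hG hm hA nt).resolve_right fun ⟨A, B, q⟩ => by
    rcases (q.nbr v).1 h.vt.symm with hv | hv
    · exact key A B q hv
    · exact key B A q.swap hv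
  have h2a := (ty_cases hG hm hA na).resolve_right fun ⟨A, B, q⟩ => by
    rcases (q.nbr v).1 h.va.symm with hv | hv
    · exact qv_a hG hm Av h q hv nt
    · exact qv_a hG hm Av h q.swap hv nt
  exact t2_core hG hm nv nt na h.swap h2t h2a

theorem t2_three [Fintype V] (hG : IsKConnected 6 G) (hm : ¬ HasCompleteMinor 6 G)
    (hA : ¬ ∃ p, NoMin G {p}) {v s t a b a' b' : V} (nv : NC G v) (h : T2 G v s t a b a' b')
    (h3 : Three G v) : False := by
  have Av := At.mk' hG hm nv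
  have nb' := b_claw hG hm hA nv h
  have na' := b_claw hG hm hA nv h.rev
  have hx : ∀ x, G.Adj v x → NC G x → x = s ∨ x = t ∨ x = a ∨ x = b := by
    intro x vx nx
    rcases t2_all Av h x vx with e | e | e | e | e | e
    · simp [e]
    · simp [e]
    · simp [e]
    · simp [e]
    · exact absurd (e ▸ nx) na'
    · exact absurd (e ▸ nx) nb'
  have k1 : ¬ (NC G s ∧ NC G t ∧ NC G a) := fun n => a_not_nc hG hm hA nv h n.1 n.2.1 n.2.2
  have k2 : ¬ (NC G s ∧ NC G t ∧ NC G b) := fun n => a_not_nc hG hm hA nv h.rev n.1 n.2.1 n.2.2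
  have k3 : ¬ (NC G t ∧ NC G a ∧ NC G b) := fun n =>
    hub_nc' hG hm hA nv h n.1 n.2.1 n.2.2
  have k4 : ¬ (NC G s ∧ NC G a ∧ NC G b) := fun n =>
    hub_nc' hG hm hA nv h.swap n.1 n.2.1 n.2.2
  obtain ⟨x, y, z, vx, vy, vz, hxy, hxz, hyz, nx, ny, nz⟩ := h3
  rcases hx x vx nx with rfl | rfl | rfl | rfl <;> rcases hx y vy ny with rfl | rfl | rfl | rfl <;>
    rcases hx z vz nz with rfl | rfl | rfl | rfl <;>
    first
      | exact absurd rfl hxy
      | exact absurd rfl hxz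
      | exact absurd rfl hyz
      | exact k1 ⟨by assumption, by assumption, by assumption⟩
      | exact k2 ⟨by assumption, by assumption, by assumption⟩
      | exact k3 ⟨by assumption, by assumption, by assumption⟩
      | exact k4 ⟨by assumption, by assumption, by assumption⟩

/-- If `v` is the centre of no claw and three of its neighbours are centres of no claws, then `G` is
apex. -/
theorem main3 [Fintype V] (hG : IsKConnected 6 G) (hm : ¬ HasCompleteMinor 6 G) {v : V}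
    (hv : NC G v) (h3 : Three G v) : ∃ p, NoMin G {p} := by
  classical
  by_contra hA
  rcases ty_cases hG hm hA hv with ⟨s, t, a, b, a', b', h⟩ | ⟨A, B, q⟩
  · exact t2_three hG hm hA hv h h3
  · exact qv_three hG hm q h3

end Pool.Agent.LI7
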