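import Pool.Agent.LI7.DSide
import Pool.Agent.LI6.Opt
import Pool.Agent.LI7.Case1
import Pool.Agent.LI6.Main

/-!
LI7: in `T2 G v s t a b a' b'` the vertices `a'` and `b'` are centres of claws; a vertex that is the centre of
no claw has at most two neighbours that are centres of no claws.
-/

set_option autoImplicit false

namespace Pool.Agent.LI7

open Pool.Agent.LG6 Pool.Agent.LR5 Pool.Agent.LD6 Pool.Agent.LI4 Pool.Agent.LI5 Pool.Agent.LI6

variable {V : Type} {G : SimpleGraph V}

theorem rr_six [Fintype V] (hG : IsKConnected 6 G) {a b v s t p q z r r' : V}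
    (h : Cg6 G a b v s t p q) (k : Rr G a b v s t p q z r r') : HasCompleteMinor 6 G := by
  rcases step_a hG h k with h0 | ⟨P, C, hPC⟩
  · exact h0
  obtain ⟨P, C, o⟩ := exists_op6 hPC
  by_cases h1 : p ∈ C
  · exact fin6 h o h1
  by_cases h2 : q ∈ C
  · exact fin6 h.swap o.swap h2
  by_cases h3 : p ∈ P
  · exact case2 hG h k.R o h1 h2 h3
  by_cases h4 : q ∈ P
  · have c : C3 G a b v s t p q P C := ⟨o, h3, h1, h4⟩
    rcases k.alt with ⟨e1, e2, e3, -, -⟩ | ⟨e1, e2, -, -, -⟩
    · obtain ⟨X, x⟩ := c3_set hG h k c e1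
      exact xs_end hG h k e2 e3 x
    · exact (c3_abn hG h k c e1 e2).elim
  · exact (case1 hG h k.R o h1 h2 h3 h4).elim

end Pool.Agent.LI7
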