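import Pool.Agent.LI7.SidesS30
import Pool.Agent.LI5.Piece

/-!
LI7: cut vertices between `a` and `b`.

`Chain`: `P` is a connected subset of `H` containing `a` and `b`, and every connected subset of `H` containing
`a` and `b` contains `N`.

For `y ∈ N`, `y ≠ a, b`, let `A` be the component of `a` in `P \ {y}` (`exists_comp`).  `A ∪ {y}` is connected
(`Cn.exit` for `P` and `A`: the edge leaving `A` ends in `y`).

`no_two`: let `S₁` (for `y`) and `S₂` (for `y'`) be the two sets.  `A ∩ S₁ = ∅`: otherwise `A ∪ S₁` is a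
connected subset of `H` containing `a`, `b` and not `y`.  So `y' ∉ A`, and `A ∪ {y} ∪ S₂` is connected (`y ∈ S₂`),
contains `a` and `b` but not `y'`: contradiction to `cut`.
`no_two'`: the same with `a` and `b` exchanged (`Chain.symm`).

`no_three`: `K` is adjacent to `y₁, y₂, y₃`.  For `y = y₁ ∉ {a, b}` let `A`, `B` be the components of `a` and `b` in
`P \ {y}`.  `A ∪ {y} ∪ B` is connected, so it contains `N ∪ {a, b}` (`cut`), so `y₂` and `y₃` are in `A ∪ B`, and not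
one in `A` and the other in `B` (otherwise `A ∪ K ∪ B` is connected and does not contain `y`).  So for each
`y i ∉ {a, b}` the two others are on the same side, and this side contains `a` (or `b`) if `a` (or `b`) is one
of the two others.  At most one of the `y i` is `a` or `b` (if `y₁ = a`, `y₂ = b` then `y₃` has them on
different sides).  Two of the `y i` which are not `a`, `b` have the same side (if `a` is one of the three, the
side is that of `a` for both; if none is `a` or `b`, by pigeonhole), say both the side of `b`: `no_two` with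
`S₁`, `S₂` the components of `b`.  The side of `a`: `no_two'`.
-/

set_option autoImplicit false

namespace Pool.Agent.LI7

open Pool.Agent.LG6 Pool.Agent.LR5 Pool.Agent.LI5

variable {V : Type} {G : SimpleGraph V}

structure Chain (G : SimpleGraph V) (H N P : Set V) (a b : V) : Prop where
  cP : Cn G P
  aP : a ∈ P
  bP : b ∈ P
  PH : P ⊆ H
  cut : ∀ Q, Cn G Q → Q ⊆ H → a ∈ Q → b ∈ Q → N ⊆ Q

theorem Chain.symm {H N P : Set V} {a b : V} (c : Chain G H N P a b) : Chain G H N P b a :=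
  ⟨c.cP, c.bP, c.aP, c.PH, fun Q h1 h2 h3 h4 => c.cut Q h1 h2 h4 h3⟩

theorem no_two {H N P : Set V} {a b : V} (c : Chain G H N P a b) {y y' : V} (hy : y ∈ N)
    (hy' : y' ∈ N) (ya : y ≠ a) (ya' : y' ≠ a) (hne : y ≠ y')
    (h1 : ∃ S, Cn G S ∧ S ⊆ H ∧ y ∉ S ∧ b ∈ S ∧ y' ∈ S)
    (h2 : ∃ S, Cn G S ∧ S ⊆ H ∧ y' ∉ S ∧ b ∈ S ∧ y ∈ S) : False :=
  no_twoS30 c.cP c.aP c.bP c.PH c.cut hy hy' ya hne h1 h2

/-- the component of `a` in `P` without `y` -/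
theorem Chain.half {H N P : Set V} {a b : V} (c : Chain G H N P a b) {y : V} (hy : y ∈ N)
    (ya : y ≠ a) : ∃ A : Set V, Cn G A ∧ A ⊆ P ∧ y ∉ A ∧ a ∈ A ∧ Cn G (insert y A) := by
  have hyP : y ∈ P := c.cut P c.cP c.PH c.aP c.bP hy
  obtain ⟨A, hA, haA, cA, hout⟩ := exists_comp G (P \ {y}) a ⟨c.aP, fun h => ya h.symm⟩
  have hyA : y ∉ A := fun h => (hA h).2 rfl
  refine ⟨A, cA, fun v hv => (hA hv).1, hyA, haA, ?_⟩
  obtain ⟨g, h, hg, hh, hgh, hgA, hhA⟩ := c.cP.exit (P := A) ⟨a, c.aP, haA⟩ ⟨y, hyP, hyA⟩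
  have h1 := hout h hhA ⟨g, hgA, hgh.symm⟩
  have h2 : h = y := by
    by_contra hne
    exact h1 ⟨hh, hne⟩
  subst h2
  exact cA.insert ⟨g, hgA, hgh.symm⟩

theorem Chain.side {H N P : Set V} {a b : V} (c : Chain G H N P a b) {K : Set V}
    (cK : Cn G K) (KH : K ⊆ H) (KN : ∀ y ∈ K, y ∉ N ∧ y ≠ a ∧ y ≠ b) {y z w : V}
    (hyz : y ≠ z) (hyw : y ≠ w) (my : y ∈ N) (ya : y ≠ a) (yb : y ≠ b)
    (mz : z ∈ N ∪ {a, b}) (mw : w ∈ N ∪ {a, b})
    (e2 : ∃ u ∈ K, G.Adj z u) (e3 : ∃ u ∈ K, G.Adj w u) :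
    (∃ S, Cn G S ∧ S ⊆ H ∧ y ∉ S ∧ a ∈ S ∧ z ∈ S ∧ w ∈ S) ∨
      (∃ S, Cn G S ∧ S ⊆ H ∧ y ∉ S ∧ b ∈ S ∧ z ∈ S ∧ w ∈ S) := by
  obtain ⟨A, cA, AP, yA, aA, cyA⟩ := c.half my ya
  obtain ⟨B, cB, BP, yB, bB, cyB⟩ := c.symm.half my yb
  have hyP : y ∈ P := c.cut P c.cP c.PH c.aP c.bP my
  have hyK : y ∉ K := fun h => (KN y h).1 my
  have cu : Cn G (insert y A ∪ insert y B) :=
    cyA.inter cyB (Set.mem_insert y A) (Set.mem_insert y B)
  have hN : N ⊆ insert y A ∪ insert y B := by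
    refine c.cut _ cu ?_ (Or.inl (Or.inr aA)) (Or.inr (Or.inr bB))
    rintro v ((rfl | hv) | (rfl | hv))
    · exact c.PH hyP
    · exact c.PH (AP hv)
    · exact c.PH hyP
    · exact c.PH (BP hv)
  have key : ∀ v, y ≠ v → v ∈ N ∪ {a, b} → v ∈ A ∨ v ∈ B := by
    intro v hv hm
    rcases hm with hm | hm
    · rcases hN hm with (h | h) | (h | h)
      · exact absurd h.symm hv
      · exact Or.inl h
      · exact absurd h.symm hv
      · exact Or.inr h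
    · rcases hm with rfl | hm
      · exact Or.inl aA
      · rw [Set.mem_singleton_iff] at hm
        subst hm
        exact Or.inr bB
  have bad : ∀ v v', v ∈ A → v' ∈ B → (∃ u ∈ K, G.Adj v u) → (∃ u ∈ K, G.Adj v' u) → False := by
    rintro v v' hv hv' ⟨u, hu, hvu⟩ ⟨u', hu', hvu'⟩
    have c1 : Cn G (A ∪ K) := cA.union cK ⟨v, hv, u, hu, hvu⟩
    have c2 : Cn G (A ∪ K ∪ B) := c1.union cB ⟨u', Or.inr hu', v', hv', hvu'.symm⟩
    have h3 := c.cut _ c2 (by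
      rintro x ((hx | hx) | hx)
      · exact c.PH (AP hx)
      · exact KH hx
      · exact c.PH (BP hx)) (Or.inl (Or.inl aA)) (Or.inr bB) my
    rcases h3 with (h | h) | h
    · exact yA h
    · exact hyK h
    · exact yB h
  rcases key z hyz mz with hz | hz <;> rcases key w hyw mw with hw | hw
  · exact Or.inl ⟨A, cA, fun v hv => c.PH (AP hv), yA, aA, hz, hw⟩
  · exact (bad z w hz hw e2 e3).elim
  · exact (bad w z hw hz e3 e2).elim
  · exact Or.inr ⟨B, cB, fun v hv => c.PH (BP hv), yB, bB, hz, hw⟩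

theorem Chain.mem {H N P : Set V} {a b : V} (c : Chain G H N P a b) {y : V} (my : y ∈ N) {S : Set V}
    (cS : Cn G S) (SH : S ⊆ H) (hy : y ∉ S) (ha : a ∈ S) (hb : b ∈ S) : False :=
  hy (c.cut S cS SH ha hb my)

/-- one of the three vertices is `a` -/
theorem no_three_a {H N P : Set V} {a b : V} (c : Chain G H N P a b) {K : Set V}
    (cK : Cn G K) (KH : K ⊆ H) (KN : ∀ y ∈ K, y ∉ N ∧ y ≠ a ∧ y ≠ b) {y z : V}
    (hay : a ≠ y) (haz : a ≠ z) (hyz : y ≠ z) (my : y ∈ N ∪ {a, b}) (mz : z ∈ N ∪ {a, b})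
    (ea : ∃ u ∈ K, G.Adj a u) (ey : ∃ u ∈ K, G.Adj y u) (ez : ∃ u ∈ K, G.Adj z u) : False := by
  have ma : a ∈ N ∪ {a, b} := Or.inr (Or.inl rfl)
  have inN : ∀ v, v ∈ N ∪ {a, b} → v ≠ a → v ≠ b → v ∈ N := by
    rintro v (h | h) h1 h2
    · exact h
    · rcases h with h | h
      · exact absurd h h1
      · exact absurd h h2
  have one : ∀ v w, a ≠ v → a ≠ w → v ≠ w → v ∈ N ∪ {a, b} → w ∈ N ∪ {a, b} → v ≠ b →
      (∃ u ∈ K, G.Adj w u) → ∃ S, Cn G S ∧ S ⊆ H ∧ v ∉ S ∧ a ∈ S ∧ w ∈ S := by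
    intro v w hv hw hvw mv mw hvb ew
    rcases c.side cK KH KN hv.symm hvw (inN v mv hv.symm hvb) hv.symm hvb ma mw ea ew with
      ⟨S, h1, h2, h3, h4, h5, h6⟩ | ⟨S, h1, h2, h3, h4, h5, h6⟩
    · exact ⟨S, h1, h2, h3, h4, h6⟩
    · exact (c.mem (inN v mv hv.symm hvb) h1 h2 h3 h5 h4).elim
  by_cases hyb : y = b
  · subst hyb
    obtain ⟨S, h1, h2, h3, h4, h6⟩ := one z y haz hay hyz.symm mz my hyz.symm ey
    exact c.mem (inN z mz haz.symm hyz.symm) h1 h2 h3 h4 h6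
  by_cases hzb : z = b
  · subst hzb
    obtain ⟨S, h1, h2, h3, h4, h6⟩ := one y z hay haz hyz my mz hyz ez
    exact c.mem (inN y my hay.symm hyz) h1 h2 h3 h4 h6
  exact no_two c.symm (inN y my hay.symm hyb) (inN z mz haz.symm hzb) hyb hzb hyz
    (one y z hay haz hyz my mz hyb ez) (one z y haz hay hyz.symm mz my hzb ey)

theorem no_three {H N P : Set V} {a b : V} (c : Chain G H N P a b) (hab : a ≠ b) {K : Set V}
    (cK : Cn G K) (KH : K ⊆ H) (KN : ∀ y ∈ K, y ∉ N ∧ y ≠ a ∧ y ≠ b) {y₁ y₂ y₃ : V}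
    (h12 : y₁ ≠ y₂) (h13 : y₁ ≠ y₃) (h23 : y₂ ≠ y₃) (m1 : y₁ ∈ N ∪ {a, b})
    (m2 : y₂ ∈ N ∪ {a, b}) (m3 : y₃ ∈ N ∪ {a, b}) (e1 : ∃ u ∈ K, G.Adj y₁ u)
    (e2 : ∃ u ∈ K, G.Adj y₂ u) (e3 : ∃ u ∈ K, G.Adj y₃ u) : False := by
  have comm : N ∪ {a, b} = N ∪ {b, a} := by rw [Set.pair_comm]
  have KN' : ∀ y ∈ K, y ∉ N ∧ y ≠ b ∧ y ≠ a := fun y hy =>
    ⟨(KN y hy).1, (KN y hy).2.2, (KN y hy).2.1⟩
  by_cases h1a : y₁ = a
  · subst h1a
    exact no_three_a c cK KH KN h12 h13 h23 m2 m3 e1 e2 e3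
  by_cases h2a : y₂ = a
  · subst h2a
    exact no_three_a c cK KH KN h12.symm h23 h13 m1 m3 e2 e1 e3
  by_cases h3a : y₃ = a
  · subst h3a
    exact no_three_a c cK KH KN h13.symm h23.symm h12 m1 m2 e3 e1 e2
  by_cases h1b : y₁ = b
  · subst h1b
    exact no_three_a c.symm cK KH KN' h12 h13 h23 (comm ▸ m2) (comm ▸ m3) e1 e2 e3
  by_cases h2b : y₂ = b
  · subst h2b
    exact no_three_a c.symm cK KH KN' h12.symm h23 h13 (comm ▸ m1) (comm ▸ m3) e2 e1 e3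
  by_cases h3b : y₃ = b
  · subst h3b
    exact no_three_a c.symm cK KH KN' h13.symm h23.symm h12 (comm ▸ m1) (comm ▸ m2) e3 e1 e2
  have inN : ∀ v, v ∈ N ∪ {a, b} → v ≠ a → v ≠ b → v ∈ N := by
    rintro v (h | h) h1 h2
    · exact h
    · rcases h with h | h
      · exact absurd h h1
      · exact absurd h h2
  have n1 := inN y₁ m1 h1a h1b
  have n2 := inN y₂ m2 h2a h2b
  have n3 := inN y₃ m3 h3a h3b
  have s1 := c.side cK KH KN h12 h13 n1 h1a h1b m2 m3 e2 e3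
  have s2 := c.side cK KH KN h12.symm h23 n2 h2a h2b m1 m3 e1 e3
  have s3 := c.side cK KH KN h13.symm h23.symm n3 h3a h3b m1 m2 e1 e2
  rcases s1 with ⟨S, p1, p2, p3, p4, p5, p6⟩ | ⟨S, p1, p2, p3, p4, p5, p6⟩ <;>
    rcases s2 with ⟨T, q1, q2, q3, q4, q5, q6⟩ | ⟨T, q1, q2, q3, q4, q5, q6⟩
  · exact no_two c.symm n1 n2 h1b h2b h12 ⟨S, p1, p2, p3, p4, p5⟩ ⟨T, q1, q2, q3, q4, q5⟩
  · rcases s3 with ⟨U, r1, r2, r3, r4, r5, r6⟩ | ⟨U, r1, r2, r3, r4, r5, r6⟩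
    · exact no_two c.symm n1 n3 h1b h3b h13 ⟨S, p1, p2, p3, p4, p6⟩ ⟨U, r1, r2, r3, r4, r5⟩
    · exact no_two c n2 n3 h2a h3a h23 ⟨T, q1, q2, q3, q4, q6⟩ ⟨U, r1, r2, r3, r4, r6⟩
  · rcases s3 with ⟨U, r1, r2, r3, r4, r5, r6⟩ | ⟨U, r1, r2, r3, r4, r5, r6⟩
    · exact no_two c.symm n2 n3 h2b h3b h23 ⟨T, q1, q2, q3, q4, q6⟩ ⟨U, r1, r2, r3, r4, r6⟩
    · exact no_two c n1 n3 h1a h3a h13 ⟨S, p1, p2, p3, p4, p6⟩ ⟨U, r1, r2, r3, r4, r5⟩
  · exact no_two c n1 n2 h1a h2a h12 ⟨S, p1, p2, p3, p4, p5⟩ ⟨T, q1, q2, q3, q4, q5⟩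

end Pool.Agent.LI7
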