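import Pool.Agent.LI5.Piece

/-!
LI7/SidesS30: `no_two` of LI7/Sides, for the fields of `Chain` as hypotheses.
-/

set_option autoImplicit false

namespace Pool.Agent.LI7

open Pool.Agent.LG6 Pool.Agent.LR5 Pool.Agent.LI5

variable {V : Type} {G : SimpleGraph V}

theorem no_twoS30 {H N P : Set V} {a b : V} (cP : Cn G P) (aP : a ∈ P) (bP : b ∈ P) (PH : P ⊆ H)
    (cut : ∀ Q, Cn G Q → Q ⊆ H → a ∈ Q → b ∈ Q → N ⊆ Q) {y y' : V} (hy : y ∈ N)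
    (hy' : y' ∈ N) (ya : y ≠ a) (hne : y ≠ y')
    (h1 : ∃ S, Cn G S ∧ S ⊆ H ∧ y ∉ S ∧ b ∈ S ∧ y' ∈ S)
    (h2 : ∃ S, Cn G S ∧ S ⊆ H ∧ y' ∉ S ∧ b ∈ S ∧ y ∈ S) : False := by
  obtain ⟨S₁, c1, s1H, y1, b1, y1'⟩ := h1
  obtain ⟨S₂, c2, s2H, y2', b2, y2⟩ := h2
  have hNP : N ⊆ P := cut P cP PH aP bP
  obtain ⟨A, AP, aA, cA, hcl⟩ := exists_comp G (P \ {y}) a ⟨aP, fun h => ya h.symm⟩
  have yA : y ∉ A := fun h => (AP h).2 rfl
  have AH : A ⊆ H := fun w hw => PH (AP hw).1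
  obtain ⟨g, h, gP, hP, hgh, gA, hA⟩ := cP.exit (P := A) ⟨a, aP, aA⟩ ⟨y, hNP hy, yA⟩
  have hhy : h = y := by
    by_contra hne'
    exact hcl h hA ⟨g, gA, hgh.symm⟩ ⟨hP, hne'⟩
  subst hhy
  have cI : Cn G (insert h A) := cA.insert ⟨g, gA, hgh.symm⟩
  have hdis : ∀ w ∈ A, w ∉ S₁ := by
    intro w hw hw'
    have h3 := cut (A ∪ S₁) (cA.inter c1 hw hw') (Set.union_subset AH s1H) (Or.inl aA)
      (Or.inr b1) hy
    rcases h3 with h4 | h4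
    · exact yA h4
    · exact y1 h4
  have h5 := cut (insert h A ∪ S₂) (cI.inter c2 (Or.inl rfl) y2)
    (Set.union_subset (Set.insert_subset (PH (hNP hy)) AH) s2H) (Or.inl (Or.inr aA))
    (Or.inr b2) hy'
  rcases h5 with (h6 | h6) | h6
  · exact hne h6.symm
  · exact hdis y' h6 y1'
  · exact y2' h6

end Pool.Agent.LI7
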