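import Pool.Agent.LI7.Defs

/-!
LI7: the `K₆` models.

`six_p`: `LI6.six6` with the 4-clique `v, s, t, a`, the set `X` (contains `b`) and `C` (contains `p`, which
is adjacent to `v` and `a`).
`six_q`: `six_p` for `h.swap` (the 4-clique is `v, s, t, b`, `X` contains `a`, `C` contains `q`).
`rest6`: `six_p` with `X = {b} ∪ Z` and `C` the complement of `Z ∪ {a, b, v, s, t}`: it contains `p` and `q`
(`b ~ q`).
-/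

set_option autoImplicit false

namespace Pool.Agent.LI7

open Pool.Agent.LG6 Pool.Agent.LR5 Pool.Agent.LI5 Pool.Agent.LI6

variable {V : Type} {G : SimpleGraph V}

theorem six_p {a b v s t p q : V} (h : Cg6 G a b v s t p q) {X C : Set V} (hX : Cn G X)
    (bX : b ∈ X) (aX : ∃ x ∈ X, G.Adj a x) (nX : a ∉ X ∧ v ∉ X ∧ s ∉ X ∧ t ∉ X) (hC : Cn G C)
    (pC : p ∈ C) (nC : a ∉ C ∧ v ∉ C ∧ s ∉ C ∧ t ∉ C) (hd : Disjoint X C)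
    (sC : ∃ y ∈ C, G.Adj s y) (tC : ∃ y ∈ C, G.Adj t y) (XC : ∃ x ∈ X, ∃ y ∈ C, G.Adj x y) :
    HasCompleteMinor 6 G :=
  six6 h.vs h.vt h.st h.av.symm h.as.symm h.at'.symm hX hC
    ⟨nX.2.1, nX.2.2.1, nX.2.2.2, nX.1⟩ ⟨nC.2.1, nC.2.2.1, nC.2.2.2, nC.1⟩ hd
    ⟨⟨b, bX, h.bv.symm⟩, ⟨b, bX, h.bs.symm⟩, ⟨b, bX, h.bt.symm⟩, aX⟩
    ⟨⟨p, pC, h.vp⟩, sC, tC, ⟨p, pC, h.ap⟩⟩ XC

theorem six_q {a b v s t p q : V} (h : Cg6 G a b v s t p q) {X C : Set V} (hX : Cn G X)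
    (aX : a ∈ X) (bX : ∃ x ∈ X, G.Adj b x) (nX : b ∉ X ∧ v ∉ X ∧ s ∉ X ∧ t ∉ X) (hC : Cn G C)
    (qC : q ∈ C) (nC : b ∉ C ∧ v ∉ C ∧ s ∉ C ∧ t ∉ C) (hd : Disjoint X C)
    (sC : ∃ y ∈ C, G.Adj s y) (tC : ∃ y ∈ C, G.Adj t y) (XC : ∃ x ∈ X, ∃ y ∈ C, G.Adj x y) :
    HasCompleteMinor 6 G :=
  six_p h.swap hX aX bX nX hC qC nC hd sC tC XC

theorem rest6 {a b v s t p q : V} (h : Cg6 G a b v s t p q) {Z : Set V} (hZ : Cn G Z)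
    (nZ : a ∉ Z ∧ b ∉ Z ∧ v ∉ Z ∧ s ∉ Z ∧ t ∉ Z ∧ p ∉ Z ∧ q ∉ Z)
    (aZ : ∃ x ∈ Z, G.Adj a x) (bZ : ∃ x ∈ Z, G.Adj b x)
    (hC : Cn G ((Z ∪ {a, b, v, s, t})ᶜ))
    (sC : ∃ y, y ∉ Z ∪ {a, b, v, s, t} ∧ G.Adj s y)
    (tC : ∃ y, y ∉ Z ∪ {a, b, v, s, t} ∧ G.Adj t y) : HasCompleteMinor 6 G := by
  obtain ⟨naZ, nbZ, nvZ, nsZ, ntZ, npZ, nqZ⟩ := nZ
  have pb : p ≠ b := fun e => h.nab (e ▸ h.ap)
  have qa : q ≠ a := fun e => h.nab (e ▸ h.bq).symm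
  have hp : p ∉ Z ∪ {a, b, v, s, t} := by
    simp only [Set.mem_union, Set.mem_insert_iff, Set.mem_singleton_iff, not_or]
    exact ⟨npZ, h.ap.ne.symm, pb, h.vp.ne.symm, h.ps, h.pt⟩
  have hq : q ∉ Z ∪ {a, b, v, s, t} := by
    simp only [Set.mem_union, Set.mem_insert_iff, Set.mem_singleton_iff, not_or]
    exact ⟨nqZ, qa, h.bq.ne.symm, h.vq.ne.symm, h.qs, h.qt⟩
  refine six_p h (X := insert b Z) (C := (Z ∪ {a, b, v, s, t})ᶜ) (hZ.insert bZ)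
    (Set.mem_insert _ _) ?_ ⟨?_, ?_, ?_, ?_⟩ hC hp ⟨?_, ?_, ?_, ?_⟩ ?_ ?_ ?_ ?_
  · obtain ⟨x, hx, hax⟩ := aZ
    exact ⟨x, Set.mem_insert_of_mem _ hx, hax⟩
  · rintro (e | e)
    · exact h.ab e
    · exact naZ e
  · rintro (e | e)
    · exact h.bv.ne e.symm
    · exact nvZ e
  · rintro (e | e)
    · exact h.bs.ne e.symm
    · exact nsZ e
  · rintro (e | e)
    · exact h.bt.ne e.symm
    · exact ntZ e
  · exact fun e => e (by simp)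
  · exact fun e => e (by simp)
  · exact fun e => e (by simp)
  · exact fun e => e (by simp)
  · rw [Set.disjoint_left]
    rintro x (e | e) hx
    · exact hx (by rw [e]; simp)
    · exact hx (Set.mem_union_left _ e)
  · obtain ⟨y, hy, hsy⟩ := sC
    exact ⟨y, hy, hsy⟩
  · obtain ⟨y, hy, hty⟩ := tC
    exact ⟨y, hy, hty⟩
  · exact ⟨b, Set.mem_insert _ _, q, hq, h.bq⟩

end Pool.Agent.LI7
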