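import Pool.Agent.LI7.Case3
import Pool.Agent.LR5.Concl

/-!
LI7, case 3, normal case: the structure (proof of `c3_set`, helper23).
-/

set_option autoImplicit false

namespace Pool.Agent.LI7

open Pool.Agent.LG6 Pool.Agent.LR5 Pool.Agent.LI5 Pool.Agent.LI6

variable {V : Type} {G : SimpleGraph V}

theorem c3_set_s23 [Fintype V] (hG : IsKConnected 6 G) {a b v s t p q z r r' : V} {P C : Set V}
    (h : Cg6 G a b v s t p q) (k : Rr G a b v s t p q z r r') (c : C3 G a b v s t p q P C)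
    (hz : G.Adj p z) : ∃ X : Set V, Cn G X ∧
      (a ∉ C ∧ b ∉ C ∧ v ∉ C ∧ s ∉ C ∧ t ∉ C ∧ p ∉ C ∧ q ∉ C ∧ z ∉ C) ∧
      (a ∉ X ∧ b ∉ X ∧ v ∉ X ∧ s ∉ X ∧ t ∉ X ∧ p ∉ X ∧ q ∉ X ∧ z ∉ X) ∧ Disjoint C X ∧
      r ∈ C ∧ r' ∈ C ∧ (∃ x ∈ X, G.Adj a x) ∧ (∃ x ∈ X, ∃ w ∈ C, G.Adj x w) ∧
      ∀ u, u ∈ C ∨ u ∈ X ∨ u = a ∨ u = b ∨ u = v ∨ u = s ∨ u = t ∨ u = p ∨ u = q ∨ u = z := by
  obtain ⟨hPc0, haP, hbP, hvP, hsP, htP, hpq⟩ := c.o.pa.adm
  have hPC : ∀ y, y ∈ P → y ∉ C := fun y hy hy' => Set.disjoint_left.1 c.o.pa.cP hy' hy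
  have hpC := c3_p h c
  have hzC : z ∉ C := fun h1 => hpC z h1 hz
  obtain ⟨dza, dzp, dzb, dzv, dzs, dzt⟩ := k.dz
  have hrC : r ∈ C := (c3_zr hG h k c).resolve_left hzC
  have hrC' : r' ∈ C := (c3_zr hG h k.swap c).resolve_left hzC
  have ch := c3_chain h c
  have all3 := c3_all hG h k c
  have hzN : z ∈ N3 G v s t p C := all3 z ⟨hzC, dzp, dzv, dzs, dzt⟩ dza dzb
  have hzP : z ∈ P := ch.cut P ch.cP ch.PH ch.aP ch.bP hzN
  obtain ⟨A, hAP, haA, cA, clA⟩ := exists_comp G (P \ {z}) a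
    ⟨haP, fun h1 => dza (Set.mem_singleton_iff.1 h1).symm⟩
  have hAP' : A ⊆ P := fun y hy => (hAP hy).1
  have hAH : A ⊆ H3 v s t p C := fun y hy => ch.PH (hAP' hy)
  have hzA : z ∉ A := fun h1 => (hAP h1).2 rfl
  have hbA : b ∉ A := fun h1 => hzA (ch.cut A cA hAH haA h1 hzN)
  -- `b` is not adjacent to `A`
  have hbA' : ∀ y ∈ A, ¬ G.Adj b y := by
    intro y hy hby
    have h1 : Cn G (insert b A) := cA.insert ⟨y, hy, hby⟩
    have h2 : z ∈ insert b A := by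
      refine ch.cut (insert b A) h1 ?_ (Set.mem_insert_of_mem b haA) (Set.mem_insert b A) hzN
      intro w hw
      rcases Set.mem_insert_iff.1 hw with h3 | h3
      · rw [h3]
        exact ch.PH hbP
      · exact hAH h3
    rcases Set.mem_insert_iff.1 h2 with h3 | h3
    · exact dzb h3
    · exact hzA h3
  have hqA : q ∉ A := fun h1 => hbA' q h1 h.bq
  have hzA' : ∃ g ∈ A, G.Adj z g := by
    obtain ⟨g, g', hg, hg', hgg, hgA, hgA'⟩ := hPc0.exit (P := A) ⟨a, haP, haA⟩ ⟨z, hzP, hzA⟩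
    have h1 := clA g' hgA' ⟨g, hgA, hgg.symm⟩
    have h2 : g' = z := by
      by_contra h3
      exact h1 ⟨hg', h3⟩
    rw [h2] at hgg
    exact ⟨g, hgA, hgg.symm⟩
  have hzq : G.Adj q z := k.R.qz
  -- everything outside `C`, `p` and the triangle
  have hE : ∀ u ∈ H3 v s t p C, u = b ∨ u = q ∨ u = z ∨ u ∈ A := by
    intro u hu
    by_cases hua : u = a
    · rw [hua]
      exact Or.inr (Or.inr (Or.inr haA))
    by_cases hub : u = b
    · exact Or.inl hub
    have h1 : Cn G (insert b (insert q (insert z A))) := by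
      refine Cn.insert (Cn.insert (cA.insert hzA') ⟨z, Set.mem_insert z A, hzq⟩)
        ⟨q, Set.mem_insert q _, h.bq⟩
    have h2 : u ∈ insert b (insert q (insert z A)) := by
      refine ch.cut _ h1 ?_ ?_ (Set.mem_insert b _) (all3 u hu hua hub)
      · intro w hw
        simp only [Set.mem_insert_iff] at hw
        rcases hw with h3 | h3 | h3 | h3
        · rw [h3]
          exact ch.PH hbP
        · rw [h3]
          exact ch.PH c.qP
        · rw [h3]
          exact ch.PH hzP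
        · exact hAH h3
      · exact Set.mem_insert_of_mem _ (Set.mem_insert_of_mem _ (Set.mem_insert_of_mem _ haA))
    simp only [Set.mem_insert_iff] at h2
    exact h2
  -- `X` is not empty
  have hXne : ∃ x₀ ∈ A, x₀ ≠ a := by
    by_contra hc
    push Not at hc
    have h1 := dg_ge hG p
    have h2 : (G.neighborSet p).ncard ≤ 5 := by
      refine ncard_five (x₁ := v) (x₂ := a) (x₃ := q) (x₄ := z) (x₅ := z) ?_
      intro y hy
      rw [SimpleGraph.mem_neighborSet] at hy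
      by_cases hyv : y = v
      · exact Or.inl hyv
      have hyH : y ∈ H3 v s t p C := by
        refine ⟨fun h3 => hpC y h3 hy, hy.ne', hyv, ?_, ?_⟩
        · intro h3
          rw [h3] at hy
          exact h.nsp hy.symm
        · intro h3
          rw [h3] at hy
          exact h.ntp hy.symm
      rcases hE y hyH with h3 | h3 | h3 | h3
      · rw [h3] at hy
        exact absurd hy.symm h.nbp
      · exact Or.inr (Or.inr (Or.inl h3))
      · exact Or.inr (Or.inr (Or.inr (Or.inl h3)))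
      · exact Or.inr (Or.inl (hc y h3))
    unfold dg at h1
    omega
  obtain ⟨x₀, hx₀, hx₀a⟩ := hXne
  have hPc : Cn G (P \ {a}) := by
    apply Pool.Agent.LI4.min_conn hPc0 haP hbP h.ab
    intro P' hP' hc ha hb
    exact c.o.min P' hP' ⟨hc, ha, hb, fun hj => hvP (hP' hj), fun hj => hsP (hP' hj),
      fun hj => htP (hP' hj), fun hi => hpq ⟨hP' hi.1, hP' hi.2⟩⟩
  obtain ⟨X₁, hX₁, hx₀X, cX, clX⟩ := exists_comp G (A \ {a}) x₀ ⟨hx₀, hx₀a⟩
  have haX : a ∉ X₁ := fun h1 => (hX₁ h1).2 rfl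
  have hX₁A : X₁ ⊆ A := fun y hy => (hX₁ hy).1
  have haX' : ∃ x ∈ X₁, G.Adj a x := by
    obtain ⟨g, g', hg, hg', hgg, hgX, hgX'⟩ := cA.exit (P := X₁) ⟨x₀, hx₀, hx₀X⟩ ⟨a, haA, haX⟩
    have h1 := clX g' hgX' ⟨g, hgX, hgg.symm⟩
    have h2 : g' = a := by
      by_contra h3
      exact h1 ⟨hg', h3⟩
    rw [h2] at hgg
    exact ⟨g, hgX, hgg.symm⟩
  have hzX' : ∃ x ∈ X₁, G.Adj z x := by
    obtain ⟨g, g', hg, hg', hgg, hgX, hgX'⟩ := hPc.exit (P := X₁)
      ⟨x₀, ⟨hAP' hx₀, hx₀a⟩, hx₀X⟩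
      ⟨b, ⟨hbP, fun h1 => h.ab (Set.mem_singleton_iff.1 h1).symm⟩, fun h1 => hbA (hX₁A h1)⟩
    have h1 := clX g' hgX' ⟨g, hgX, hgg.symm⟩
    have hg'A : g' ∉ A := fun h2 => h1 ⟨h2, hg'.2⟩
    have hgA : g ∈ A := hX₁A hgX
    rcases hE g' (ch.PH hg'.1) with h3 | h3 | h3 | h3
    · rw [h3] at hgg
      exact absurd hgg.symm (hbA' g hgA)
    · rw [h3] at hgg
      rcases k.nq g hgg.symm with e | e | e | e | e | e
      · exact absurd (e ▸ hAP' hgA) hvP
      · exact absurd (e ▸ hAP' hgA) c.pP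
      · exact absurd (e ▸ hgA) hbA
      · exact absurd (e ▸ hgA) hzA
      · exact absurd (e ▸ hrC) (hPC g (hAP' hgA))
      · exact absurd (e ▸ hrC') (hPC g (hAP' hgA))
    · rw [h3] at hgg
      exact ⟨g, hgX, hgg.symm⟩
    · exact absurd h3 hg'A
  -- `X = X₁`
  have hXX : ∀ x ∈ A, x ≠ a → x ∈ X₁ := by
    intro x hx hxa
    have hxb : x ≠ b := fun h1 => hbA (h1 ▸ hx)
    have h1 : Cn G (insert b (insert q (insert z (insert a X₁)))) := by
      refine Cn.insert (Cn.insert (Cn.insert (cX.insert haX') ?_) ⟨z, Set.mem_insert z _, hzq⟩)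
        ⟨q, Set.mem_insert q _, h.bq⟩
      obtain ⟨g, hg, hzg⟩ := hzX'
      exact ⟨g, Set.mem_insert_of_mem a hg, hzg⟩
    have h2 : x ∈ insert b (insert q (insert z (insert a X₁))) := by
      refine ch.cut _ h1 ?_ ?_ (Set.mem_insert b _) (all3 x (hAH hx) hxa hxb)
      · intro w hw
        simp only [Set.mem_insert_iff] at hw
        rcases hw with h3 | h3 | h3 | h3 | h3
        · rw [h3]
          exact ch.PH hbP
        · rw [h3]
          exact ch.PH c.qP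
        · rw [h3]
          exact ch.PH hzP
        · rw [h3]
          exact ch.PH haP
        · exact hAH (hX₁A h3)
      · exact Set.mem_insert_of_mem _ (Set.mem_insert_of_mem _ (Set.mem_insert_of_mem _
          (Set.mem_insert a _)))
    simp only [Set.mem_insert_iff] at h2
    rcases h2 with h3 | h3 | h3 | h3 | h3
    · exact absurd h3 hxb
    · exact absurd (h3 ▸ hx) hqA
    · exact absurd (h3 ▸ hx) hzA
    · exact absurd h3 hxa
    · exact h3
  refine ⟨X₁, cX, ⟨hPC a haP, hPC b hbP, c.o.pa.vC, c.o.pa.sC, c.o.pa.tC, c.pC, hPC q c.qP, hzC⟩,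
    ⟨haX, fun h1 => hbA (hX₁A h1), fun h1 => hvP (hAP' (hX₁A h1)), fun h1 => hsP (hAP' (hX₁A h1)),
      fun h1 => htP (hAP' (hX₁A h1)), fun h1 => c.pP (hAP' (hX₁A h1)), fun h1 => hqA (hX₁A h1),
      fun h1 => hzA (hX₁A h1)⟩, ?_, hrC, hrC', haX', ?_, ?_⟩
  · rw [Set.disjoint_right]
    exact fun y hy => hPC y (hAP' (hX₁A hy))
  · have h1 := all3 x₀ (hAH hx₀) hx₀a (fun h1 => hbA (h1 ▸ hx₀))
    exact ⟨x₀, hx₀X, h1.2⟩
  · intro u
    by_cases h1 : u ∈ C
    · exact Or.inl h1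
    by_cases h2 : u = p
    · simp [h2]
    by_cases h3 : u = v
    · simp [h3]
    by_cases h4 : u = s
    · simp [h4]
    by_cases h5 : u = t
    · simp [h5]
    rcases hE u ⟨h1, h2, h3, h4, h5⟩ with h6 | h6 | h6 | h6
    · simp [h6]
    · simp [h6]
    · simp [h6]
    · by_cases h7 : u = a
      · simp [h7]
      · exact Or.inr (Or.inl (hXX u h6 h7))

end Pool.Agent.LI7
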