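import Pool.Agent.LI7.StructS30
import Pool.Agent.LI7.StructS23

/-!
LI7, case 3: the structure.

`c3_abn`: abnormal case.  `r, r' ∉ C` (`p ~ r, r'`, `c3_p`), so `r, r' ∈ N3` (`c3_all`).  `no_two` with `y = r`,
`y' = r'`, `S₁ = {b, q, r'}`, `S₂ = {b, q, r}` (`q ∈ P ⊆ H3`).

`c3_set`: normal case.  `z ∉ C` (`p ~ z`), so `z ∈ N3`, and `r, r' ∈ C` (`c3_zr` for `k` and `k.swap`).
Let `A` be the component of `a` in `P \ {z}`; `b ∉ A` (`cut`); `A ∪ {z, q, b}` is connected (`Cn.exit` for `P`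
and `A` gives `A ~ z`; `z ~ q ~ b`), so it contains `N3` (`cut`): every vertex of `H3` is in `A ∪ {z, q, b}`
(`c3_all`).  `q ∉ A`: otherwise `A ∪ {b}` is connected and does not contain `z`.  `X := A \ {a}`.
`X` is not empty: `p` has at least six neighbours; they are not in `C`, not `s`, `t`, `b`, so besides `v, a, q, z` there
are two in `X`.  `X` is connected: let `X₁` be a component of a vertex of `X` in `X`.  `X₁ ~ a` (`Cn.exit` for
`A`).  `X₁ ~ z`: `P \ {a}` is connected (`LI4.min_conn`, `o.min`), so `X₁` is adjacent to a vertex of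
`P \ {a}` outside `X₁`, which is not in `X`, so it is `z`, `q` or `b`; not `q` (`k.nq`: `q` has only the neighbours `v, p, b, z, r, r'`, and
`r, r' ∈ C`); not `b`: otherwise `A ∪ {b}` is connected without `z`.  So `{a} ∪ X₁ ∪ {z, q, b}` is connected,
contains `N3 ⊇ X`: `X₁ = X`.
-/

set_option autoImplicit false

namespace Pool.Agent.LI7

open Pool.Agent.LG6 Pool.Agent.LR5 Pool.Agent.LI5 Pool.Agent.LI6

variable {V : Type} {G : SimpleGraph V}

theorem c3_abn [Fintype V] (hG : IsKConnected 6 G) {a b v s t p q z r r' : V} {P C : Set V}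
    (h : Cg6 G a b v s t p q) (k : Rr G a b v s t p q z r r') (c : C3 G a b v s t p q P C)
    (hr : G.Adj p r) (hr' : G.Adj p r') : False :=
  c3_abnS30 hG h k c hr hr'

/-- the structure in the normal case -/
structure Xs (G : SimpleGraph V) (a b v s t p q z r r' : V) (C X : Set V) : Prop where
  cC : Cn G C
  cX : Cn G X
  nC : a ∉ C ∧ b ∉ C ∧ v ∉ C ∧ s ∉ C ∧ t ∉ C ∧ p ∉ C ∧ q ∉ C ∧ z ∉ C
  nX : a ∉ X ∧ b ∉ X ∧ v ∉ X ∧ s ∉ X ∧ t ∉ X ∧ p ∉ X ∧ q ∉ X ∧ z ∉ X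
  dj : Disjoint C X
  rC : r ∈ C
  rC' : r' ∈ C
  aX : ∃ x ∈ X, G.Adj a x
  XC : ∃ x ∈ X, ∃ w ∈ C, G.Adj x w
  pC : ∀ u ∈ C, ¬ G.Adj p u
  all : ∀ u, u ∈ C ∨ u ∈ X ∨ u = a ∨ u = b ∨ u = v ∨ u = s ∨ u = t ∨ u = p ∨ u = q ∨ u = z

theorem c3_set [Fintype V] (hG : IsKConnected 6 G) {a b v s t p q z r r' : V} {P C : Set V}
    (h : Cg6 G a b v s t p q) (k : Rr G a b v s t p q z r r') (c : C3 G a b v s t p q P C)
    (hz : G.Adj p z) : ∃ X, Xs G a b v s t p q z r r' C X := by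
  obtain ⟨X, cX, nC, nX, dj, rC, rC', aX, XC, all⟩ := c3_set_s23 hG h k c hz
  exact ⟨X, c.o.pa.cc, cX, nC, nX, dj, rC, rC', aX, XC, c3_p h c, all⟩

end Pool.Agent.LI7
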