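import Pool.Agent.LI7.Case3

/-!
LI7/StructS30: `c3_abn` of LI7/Struct.
-/

set_option autoImplicit false

namespace Pool.Agent.LI7

open Pool.Agent.LG6 Pool.Agent.LR5 Pool.Agent.LI5 Pool.Agent.LI6

variable {V : Type} {G : SimpleGraph V}

theorem c3_abnS30 [Fintype V] (hG : IsKConnected 6 G) {a b v s t p q z r r' : V} {P C : Set V}
    (h : Cg6 G a b v s t p q) (k : Rr G a b v s t p q z r r') (c : C3 G a b v s t p q P C)
    (hr : G.Adj p r) (hr' : G.Adj p r') : False := by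
  obtain ⟨cnP, aP, bP, vP, sP, tP, npq⟩ := c.o.pa.adm
  have hdis : ∀ u ∈ P, u ∉ C := fun u hu hu' => Set.disjoint_left.mp c.o.pa.cP hu' hu
  have rC : r ∉ C := fun hh => c3_p h c r hh hr
  have rC' : r' ∉ C := fun hh => c3_p h c r' hh hr'
  obtain ⟨ra, rp, rb, rv, rs, rt⟩ := k.dr
  obtain ⟨ra', rp', rb', rv', rs', rt'⟩ := k.dr'
  have rH : r ∈ H3 v s t p C := ⟨rC, rp, rv, rs, rt⟩
  have rH' : r' ∈ H3 v s t p C := ⟨rC', rp', rv', rs', rt'⟩
  have bp : b ≠ p := fun hh => c.pP (hh ▸ bP)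
  have bH : b ∈ H3 v s t p C := ⟨hdis b bP, bp, h.bv.ne, h.bs.ne, h.bt.ne⟩
  have qp : q ≠ p := h.pq.ne'
  have qH : q ∈ H3 v s t p C := ⟨hdis q c.qP, qp, h.vq.ne', h.qs, h.qt⟩
  have rN := c3_all hG h k c r rH ra rb
  have rN' := c3_all hG h k c r' rH' ra' rb'
  have mk : ∀ x, x ∈ H3 v s t p C → G.Adj q x →
      ∀ y, y ≠ x → y ≠ b → y ≠ q →
      ∃ S, Cn G S ∧ S ⊆ H3 v s t p C ∧ y ∉ S ∧ b ∈ S ∧ x ∈ S := by
    intro x xH qx y yx yb yq
    refine ⟨insert b (insert q {x}), ?_, ?_, ?_, ?_, ?_⟩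
    · exact ((cn_single G x).insert ⟨x, rfl, qx⟩).insert ⟨q, Or.inl rfl, h.bq⟩
    · rintro w (hw | hw | hw)
      · rw [hw]; exact bH
      · rw [hw]; exact qH
      · rw [hw]; exact xH
    · rintro (hw | hw | hw)
      · exact yb hw
      · exact yq hw
      · exact yx hw
    · exact Or.inl rfl
    · exact Or.inr (Or.inr rfl)
  exact no_two (c3_chain h c) rN rN' ra ra' k.R.rr
    (mk r' rH' k.R.qr' r k.R.rr rb k.R.qr.ne')
    (mk r rH k.R.qr r' k.R.rr.symm rb' k.R.qr'.ne')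

end Pool.Agent.LI7
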